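import Pool.Agent.H89.HL.L.W5h86_HC_Aff

set_option autoImplicit false

/-!
# Chow groups of projective hypersurfaces
-/

universe u

namespace Pool.Agent.W5h86.HC

open MvPolynomial

section defs

variable {K : Type u} [Field K] {N : ℕ}

/-- The cycles of dimension `t - 1` on the hypersurface `F = 0` which are rationally equivalent to
zero: the span of the divisors of the rational functions `G₁ / G₂` on the subvarieties `Q` of
dimension `t`. -/
noncomputable def RatEq (F : MvPolynomial (Fin N) K) (t : ℕ) :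
    Submodule ℚ (Ideal (MvPolynomial (Fin N) K) → ℚ) :=
  Submodule.span ℚ {c | ∃ Q G₁ G₂ e, IsSub (t + 1) 1 Q ∧ F ∈ Q ∧ IsHomogeneous G₁ e ∧
    IsHomogeneous G₂ e ∧ G₁ ∉ Q ∧ G₂ ∉ Q ∧ c = idiv t 1 Q G₁ - idiv t 1 Q G₂}

open scoped Classical in
/-- The cycle of the linear section `ℓ 0 = ℓ 1 = ... = 0` of the hypersurface `F = 0`. -/
noncomputable def sect {i : ℕ} (t : ℕ) (F : MvPolynomial (Fin N) K) (ℓ : Fin i → Fin N → K) :
    Ideal (MvPolynomial (Fin N) K) → ℚ :=
  fun P => if IsSub t 1 P then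
    (mult (Ideal.span {F} ⊔ Ideal.span (Set.range fun k => lform (ℓ k))) P : ℚ) else 0

/-- The Chow group of cycles of codimension `i` of the hypersurface `F = 0`, with rational
coefficients, is generated by the class of a linear section. -/
def LinSpan (i : ℕ) (F : MvPolynomial (Fin N) K) : Prop :=
  ∀ ℓ : Fin i → Fin N → K, LinearIndependent K ℓ →
    F ∉ Ideal.span (Set.range fun k => lform (ℓ k)) → ∀ t, t + i + 1 = N →
      ∀ P, IsSub t 1 P → F ∈ P → pt P ∈ Submodule.span ℚ {sect t F ℓ} ⊔ RatEq F t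

end defs

section aux

variable {K : Type u} [Field K] {N : ℕ}

lemma isSub_iff {t : ℕ} {l : MvPolynomial (Fin N) K} {P : Ideal (MvPolynomial (Fin N) K)} :
    IsSub t l P ↔ IsSub t 1 P ∧ l ∉ P := by
  constructor
  · intro h
    exact ⟨⟨h.prime, h.hom, h.trdeg, fun h1 => h.prime.ne_top ((Ideal.eq_top_iff_one _).2 h1)⟩,
      h.notMem⟩
  · rintro ⟨h, h'⟩
    exact ⟨h.prime, h.hom, h.trdeg, h'⟩

lemma le_of_idiv_ne_zero {t : ℕ} {l : MvPolynomial (Fin N) K}
    {Q : Ideal (MvPolynomial (Fin N) K)} {G : MvPolynomial (Fin N) K}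
    {P : Ideal (MvPolynomial (Fin N) K)} (h : idiv t l Q G P ≠ 0) :
    IsSub t l P ∧ Q ≤ P ∧ G ∈ P := by
  by_cases hP : IsSub t l P
  · rw [idiv_of hP] at h
    have hle : Q ⊔ Ideal.span {G} ≤ P := by
      by_contra hcon
      rw [mult_eq_zero hcon] at h
      exact h rfl
    exact ⟨hP, le_sup_left.trans hle,
      hle (Ideal.mem_sup_right (Ideal.mem_span_singleton_self G))⟩
  · exact absurd (idiv_of_not hP) h

/-- **Extension of relations** from the complement of a hyperplane. -/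
lemma rel_le {F : MvPolynomial (Fin N) K} {t : ℕ} {r : Fin N → K}
    {S : Submodule ℚ (Ideal (MvPolynomial (Fin N) K) → ℚ)} (hS : RatEq F t ≤ S)
    (h : ∀ P, IsSub t 1 P → F ∈ P → lform r ∈ P → pt P ∈ S) : Rel F t (lform r) ≤ S := by
  unfold Rel
  rw [Submodule.span_le]
  rintro c ⟨Q, G, e, hQ, hFQ, hG, hGQ, rfl⟩
  rw [SetLike.mem_coe]
  obtain ⟨hQ1, hlQ⟩ := isSub_iff.1 hQ
  have hle : (lform r) ^ e ∉ Q := fun h1 => hlQ (hQ.prime.mem_of_pow_mem _ h1)
  have hhom : IsHomogeneous ((lform r) ^ e) e := by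
    have h1 := (isHomogeneous_lform r).pow e
    rw [one_mul] at h1
    exact h1
  set c₁ := idiv t 1 Q G - idiv t 1 Q ((lform r) ^ e) with hc₁
  have hc₁S : c₁ ∈ S := hS (Submodule.subset_span
    ⟨Q, G, (lform r) ^ e, e, hQ1, hFQ, hG, hhom, hGQ, hle, rfl⟩)
  set c := idiv t (lform r) Q G - c₁ with hc
  have hcval : ∀ P, c P ≠ 0 → IsSub t 1 P ∧ F ∈ P ∧ lform r ∈ P ∧
      P ∈ Function.support (idiv t 1 Q G) ∪ Function.support (idiv t 1 Q ((lform r) ^ e)) := by
    intro P hcP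
    by_cases hP : IsSub t 1 P
    · by_cases hlP : lform r ∈ P
      · have h1 : ¬ IsSub t (lform r) P := fun h1 => (isSub_iff.1 h1).2 hlP
        rw [hc, Pi.sub_apply, idiv_of_not h1, hc₁, Pi.sub_apply] at hcP
        by_cases h2 : idiv t 1 Q G P = 0
        · rw [h2] at hcP
          have h3 : idiv t 1 Q ((lform r) ^ e) P ≠ 0 := by
            intro h3
            rw [h3] at hcP
            exact hcP (by ring)
          exact ⟨hP, (le_of_idiv_ne_zero h3).2.1 hFQ, hlP, Or.inr h3⟩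
        · exact ⟨hP, (le_of_idiv_ne_zero h2).2.1 hFQ, hlP, Or.inl h2⟩
      · exfalso
        apply hcP
        have h1 : IsSub t (lform r) P := isSub_iff.2 ⟨hP, hlP⟩
        have h2 : idiv t 1 Q ((lform r) ^ e) P = 0 := by
          by_contra h3
          exact hlP (hP.prime.mem_of_pow_mem _ (le_of_idiv_ne_zero h3).2.2)
        rw [hc, Pi.sub_apply, idiv_of h1, hc₁, Pi.sub_apply, idiv_of hP, h2]
        ring
    · exfalso
      apply hcP
      have h1 : ¬ IsSub t (lform r) P := fun h1 => hP (isSub_iff.1 h1).1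
      rw [hc, Pi.sub_apply, idiv_of_not h1, hc₁, Pi.sub_apply, idiv_of_not hP, idiv_of_not hP]
      ring
  have hcS : c ∈ S := by
    refine mem_of_support (((idiv_support_finite hQ1 hGQ).union
      (idiv_support_finite hQ1 hle)).subset fun P hP => (hcval P hP).2.2.2) fun P hP => ?_
    obtain ⟨h1, h2, h3, -⟩ := hcval P hP
    exact h P h1 h2 h3
  have h1 : idiv t (lform r) Q G = c + c₁ := by
    rw [hc, sub_add_cancel]
  rw [h1]
  exact Submodule.add_mem _ hcS hc₁S

open scoped Classical in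
/-- restriction of cycles to the complement of a hyperplane -/
noncomputable def restr (l : MvPolynomial (Fin N) K) :
    (Ideal (MvPolynomial (Fin N) K) → ℚ) →ₗ[ℚ] (Ideal (MvPolynomial (Fin N) K) → ℚ) where
  toFun c P := if l ∈ P then 0 else c P
  map_add' c d := by
    funext P
    simp only [Pi.add_apply]
    split_ifs <;> simp
  map_smul' a c := by
    funext P
    simp only [Pi.smul_apply, RingHom.id_apply, smul_eq_mul]
    split_ifs <;> simp

lemma restr_of_mem {l : MvPolynomial (Fin N) K} (c : Ideal (MvPolynomial (Fin N) K) → ℚ)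
    {P : Ideal (MvPolynomial (Fin N) K)} (h : l ∈ P) : restr l c P = 0 := if_pos h

lemma restr_of_not_mem {l : MvPolynomial (Fin N) K} (c : Ideal (MvPolynomial (Fin N) K) → ℚ)
    {P : Ideal (MvPolynomial (Fin N) K)} (h : l ∉ P) : restr l c P = c P := if_neg h

lemma restr_pt {l : MvPolynomial (Fin N) K} {P : Ideal (MvPolynomial (Fin N) K)} (h : l ∉ P) :
    restr l (pt P) = pt P := by
  classical
  funext P'
  by_cases h' : l ∈ P'
  · rw [restr_of_mem _ h']
    unfold pt
    rw [Pi.single_eq_of_ne]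
    rintro rfl
    exact h h'
  · rw [restr_of_not_mem _ h']

lemma restr_idiv {l : MvPolynomial (Fin N) K} {t : ℕ} {Q : Ideal (MvPolynomial (Fin N) K)}
    {G : MvPolynomial (Fin N) K} : restr l (idiv t 1 Q G) = idiv t l Q G := by
  funext P
  by_cases h : l ∈ P
  · rw [restr_of_mem _ h, idiv_of_not fun h1 => (isSub_iff.1 h1).2 h]
  · rw [restr_of_not_mem _ h]
    by_cases hP : IsSub t 1 P
    · rw [idiv_of hP, idiv_of (isSub_iff.2 ⟨hP, h⟩)]
    · rw [idiv_of_not hP, idiv_of_not fun h1 => hP (isSub_iff.1 h1).1]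

lemma restr_ratEq {F l : MvPolynomial (Fin N) K} {t : ℕ} :
    (RatEq F t).map (restr l) ≤ Rel F t l := by
  unfold RatEq
  rw [Submodule.map_span_le]
  rintro c ⟨Q, G₁, G₂, e, hQ, hFQ, hG₁, hG₂, hGQ₁, hGQ₂, rfl⟩
  rw [map_sub, restr_idiv, restr_idiv]
  by_cases hl : l ∈ Q
  · have h1 : ∀ G, idiv t l Q G = 0 := by
      intro G
      funext P
      by_contra h1
      have h2 := le_of_idiv_ne_zero h1
      exact (isSub_iff.1 h2.1).2 (h2.2.1 hl)
    rw [h1, h1, sub_zero]
    exact Submodule.zero_mem _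
  · have hQl := isSub_iff.2 ⟨hQ, hl⟩
    exact Submodule.sub_mem _ (Submodule.subset_span ⟨Q, G₁, e, hQl, hFQ, hG₁, hGQ₁, rfl⟩)
      (Submodule.subset_span ⟨Q, G₂, e, hQl, hFQ, hG₂, hGQ₂, rfl⟩)

lemma sect_of {i : ℕ} {t : ℕ} {F : MvPolynomial (Fin N) K} {ℓ : Fin i → Fin N → K}
    {P : Ideal (MvPolynomial (Fin N) K)} (h : IsSub t 1 P) : sect t F ℓ P =
      (mult (Ideal.span {F} ⊔ Ideal.span (Set.range fun k => lform (ℓ k))) P : ℚ) := if_pos h

lemma sect_of_not {i : ℕ} {t : ℕ} {F : MvPolynomial (Fin N) K} {ℓ : Fin i → Fin N → K}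
    {P : Ideal (MvPolynomial (Fin N) K)} (h : ¬ IsSub t 1 P) : sect t F ℓ P = 0 := if_neg h

lemma le_of_sect_ne_zero {i : ℕ} {t : ℕ} {F : MvPolynomial (Fin N) K} {ℓ : Fin i → Fin N → K}
    {P : Ideal (MvPolynomial (Fin N) K)} (h : sect t F ℓ P ≠ 0) :
    IsSub t 1 P ∧ F ∈ P ∧ ∀ k, lform (ℓ k) ∈ P := by
  by_cases hP : IsSub t 1 P
  · rw [sect_of hP] at h
    have hle : Ideal.span {F} ⊔ Ideal.span (Set.range fun k => lform (ℓ k)) ≤ P := by
      by_contra hcon
      rw [mult_eq_zero hcon] at h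
      exact h rfl
    exact ⟨hP, hle (Ideal.mem_sup_left (Ideal.mem_span_singleton_self F)), fun k =>
      hle (Ideal.mem_sup_right (Ideal.subset_span ⟨k, rfl⟩))⟩
  · exact absurd (sect_of_not hP) h

/-- The affine statement follows from the projective one. -/
lemma pt_mem_rel {i : ℕ} {F : MvPolynomial (Fin N) K} (h : LinSpan (i + 1) F)
    {ℓ : Fin (i + 1) → Fin N → K} (hℓ : LinearIndependent K ℓ)
    (hF : F ∉ Ideal.span (Set.range fun k => lform (ℓ k))) {t : ℕ} (ht : t + (i + 1) + 1 = N)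
    {P : Ideal (MvPolynomial (Fin N) K)} (hP : IsSub t (lform (ℓ 0)) P) (hFP : F ∈ P) :
    pt P ∈ Rel F t (lform (ℓ 0)) := by
  obtain ⟨hP1, hlP⟩ := isSub_iff.1 hP
  have h1 := h ℓ hℓ hF t ht P hP1 hFP
  have h2 := Submodule.mem_map_of_mem (f := restr (lform (ℓ 0))) h1
  rw [restr_pt hlP, Submodule.map_sup, Submodule.map_span, Set.image_singleton] at h2
  have h3 : restr (lform (ℓ 0)) (sect t F ℓ) = 0 := by
    funext P'
    by_cases h' : lform (ℓ 0) ∈ P'
    · rw [restr_of_mem _ h']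
      rfl
    · rw [restr_of_not_mem _ h']
      by_contra h4
      exact h' ((le_of_sect_ne_zero h4).2.2 0)
  rw [h3, Submodule.span_singleton_eq_bot.2 rfl, bot_sup_eq] at h2
  exact restr_ratEq h2

end aux

end Pool.Agent.W5h86.HC
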