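import Pool.Agent.H89.HL.L.W5h94_CU_Defs

set_option autoImplicit false

/-!
# Common zeros of few polynomials
-/

universe u

namespace Pool.Agent.W5h94.CU

open MvPolynomial Pool.Agent.W5h86.HC

variable {K : Type u} [Field K]

/-- Fewer than `c` polynomials in `c` variables without constant term have a common zero different
from the origin. -/
theorem exists_common_zero' {c s : ℕ} (hsc : s < c) (f : Fin s → MvPolynomial (Fin c) K)
    (hf : ∀ i, constantCoeff (f i) = 0) :
    ∃ (L : Type u) (_ : Field L) (_ : Algebra K L) (b : Fin c → L),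
      b ≠ 0 ∧ ∀ i, aeval b (f i) = 0 := by
  classical
  set m := RingHom.ker (killVars (K := K) c c) with hm
  have hmp : m.IsPrime := RingHom.ker_isPrime _
  have hkill : ∀ f : MvPolynomial (Fin c) K, killVars c c f = C (constantCoeff f) := by
    intro f
    have h1 : killVars (K := K) c c = (Algebra.ofId K _).comp
        (aeval (fun _ => (0 : K)) : MvPolynomial (Fin c) K →ₐ[K] K) := by
      apply MvPolynomial.algHom_ext
      intro i
      rw [killVars_X, if_pos i.isLt, AlgHom.comp_apply, aeval_X, map_zero]
    rw [h1, AlgHom.comp_apply]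
    change C _ = _
    congr 1
    rw [aeval_zero']
    rfl
  set S : Finset (MvPolynomial (Fin c) K) := Finset.univ.image f with hS
  have hI : Ideal.span (S : Set (MvPolynomial (Fin c) K)) ≤ m := by
    rw [Ideal.span_le]
    intro x hx
    rw [hS, Finset.mem_coe, Finset.mem_image] at hx
    obtain ⟨i, -, rfl⟩ := hx
    change killVars c c _ = 0
    rw [hkill, hf, map_zero]
  obtain ⟨P, hP, hPm⟩ := Ideal.exists_minimalPrimes_le hI
  have hPp : P.IsPrime := hP.1.1
  have hcard : S.card ≤ s := by
    refine Finset.card_image_le.trans ?_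
    simp
  have h1 : P.height ≤ s :=
    (Ideal.height_le_card_of_mem_minimalPrimes_span_finset hP).trans (by exact_mod_cast hcard)
  have h2 : (c : ℕ∞) ≤ m.height := killVars_height c c le_rfl
  have h3 : ∃ j, (X j : MvPolynomial (Fin c) K) ∉ P := by
    by_contra hcon
    push Not at hcon
    have h4 : P = m := by
      apply le_antisymm hPm
      intro x hx
      have h5 : (Ideal.Quotient.mkₐ K P) = (Algebra.ofId K _).comp
          (aeval (fun _ => (0 : K)) : MvPolynomial (Fin c) K →ₐ[K] K) := by
        apply MvPolynomial.algHom_ext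
        intro i
        rw [AlgHom.comp_apply, aeval_X, map_zero]
        exact Ideal.Quotient.eq_zero_iff_mem.2 (hcon i)
      have h6 : Ideal.Quotient.mk P x = 0 := by
        change Ideal.Quotient.mkₐ K P x = 0
        rw [h5, AlgHom.comp_apply, aeval_zero']
        have h7 : C (constantCoeff x) = (0 : MvPolynomial (Fin c) K) := by
          rw [← hkill]
          exact hx
        rw [map_eq_zero_iff _ (C_injective _ _)] at h7
        change algebraMap _ _ (constantCoeff x) = 0
        rw [h7, map_zero]
      exact Ideal.Quotient.eq_zero_iff_mem.1 h6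
    rw [h4] at h1
    have h8 : (c : ℕ∞) ≤ s := h2.trans h1
    have h9 : c ≤ s := by exact_mod_cast h8
    omega
  obtain ⟨j, hj⟩ := h3
  let L := FractionRing (MvPolynomial (Fin c) K ⧸ P)
  let φ : MvPolynomial (Fin c) K →ₐ[K] L :=
    (IsScalarTower.toAlgHom K (MvPolynomial (Fin c) K ⧸ P) L).comp (Ideal.Quotient.mkₐ K P)
  have hφ : ∀ x, φ x = 0 ↔ x ∈ P := by
    intro x
    change algebraMap _ L (Ideal.Quotient.mk P x) = 0 ↔ _
    rw [map_eq_zero_iff _ (IsFractionRing.injective _ L), Ideal.Quotient.eq_zero_iff_mem]
  have hφa : ∀ x, φ x = aeval (fun i => φ (X i)) x := by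
    intro x
    have h4 : φ = aeval (fun i => φ (X i)) := by
      apply MvPolynomial.algHom_ext
      intro i
      rw [aeval_X]
    exact DFunLike.congr_fun h4 x
  refine ⟨L, inferInstance, inferInstance, fun i => φ (X i), ?_, ?_⟩
  · intro h
    exact hj ((hφ _).1 (congrFun h j))
  · intro i
    rw [← hφa, hφ]
    exact hP.1.2 (Ideal.subset_span (by
      rw [hS, Finset.mem_coe]
      exact Finset.mem_image_of_mem _ (Finset.mem_univ i)))

end Pool.Agent.W5h94.CU
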