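import Pool.Agent.H89.HL.L.W5h94_CU_Final
import Pool.Agent.H89.HL.L.W5h94_CU_Any2

set_option autoImplicit false

/-!
# Smooth cubic hypersurfaces containing a linear subspace: all linear sections
-/

universe u

namespace Pool.Agent.W5h94.CU

open MvPolynomial Pool.Agent.W5h86.HC

/-- **Smooth cubic hypersurfaces which contain a linear subspace**, any linear section. -/
theorem cubic_linSpan {K : Type u} [Field K] [CharZero K] {N r i : ℕ}
    {F : MvPolynomial (Fin N) K} (hF : IsHomogeneous F 3) (hs : Smooth F)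
    (Λ : Submodule K (Fin N → K)) (hΛ : Module.finrank K Λ = r + 1)
    (hΛF : ∀ x ∈ Λ, eval x F = 0) (hi : 2 * i < r) : LinSpan i F := by
  intro ℓ hℓ _ t ht P hP hFP
  obtain ⟨A, A', hA, hAF, -⟩ := exists_matrix Λ hΛ hΛF
  obtain ⟨e, g, g', hN, hg, hg', hgF, -⟩ := exists_adapted (i := 0) (ℓ := Fin.elim0) hs A A' hA hAF
    (linearIndependent_empty_type) (fun k => k.elim0)
  subst hN
  have hsg : Smooth (lsub K g F) := hs.coord hg hg'
  have hme : r + 1 ≤ e + 1 := le_of_smooth (m := r + 1) (isHomogeneous_lsub g hF) hsg hgF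
  set ℓ₀ : Fin i → Fin (r + 1 + e + 1) → K := fun k =>
    Matrix.vecMul (cf K (r + 1 + e + 1) i k) g' with hℓ₀
  have hℓ₀g : (fun k => Matrix.vecMul (ℓ₀ k) g) = cf K (r + 1 + e + 1) i := by
    funext k
    rw [hℓ₀, Matrix.vecMul_vecMul, hg', Matrix.vecMul_one]
  have hcf : LinearIndependent K (cf K (r + 1 + e + 1) i) := by
    have h1 : cf K (r + 1 + e + 1) i = fun k => Pi.single (Fin.castLE (by omega) k) (1 : K) := by
      funext k c
      unfold cf
      rw [Pi.single_apply]
      congr 1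
      rw [eq_iff_iff, Fin.ext_iff, Fin.val_castLE]
    rw [h1]
    exact (Pi.linearIndependent_single_one (Fin (r + 1 + e + 1)) K).comp _
      (Fin.castLE_injective _)
  have hℓ₀li : LinearIndependent K ℓ₀ := by
    apply LinearIndependent.of_comp (Matrix.vecMulLinear g)
    have h1 : (Matrix.vecMulLinear g) ∘ ℓ₀ = cf K (r + 1 + e + 1) i := hℓ₀g
    rw [h1]
    exact hcf
  have h1 : pt P ∈ Submodule.span ℚ {sect t F ℓ₀} ⊔ RatEq F t := by
    refine pt_mem_coord hg hg' (fun P₁ hP₁ hFP₁ => ?_) hP hFP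
    rw [hℓ₀g]
    exact cubic_main (m := r + 1) (e := e) (isHomogeneous_lsub g hF) hsg hgF
      (by omega) (by omega) hP₁ hFP₁
  have h2 : sect t F ℓ₀ - sect t F ℓ ∈ RatEq F t :=
    sect_ratEq (e := 1) hF hs (by omega) ht hℓ₀li hℓ
  have h3 : Submodule.span ℚ {sect t F ℓ₀} ⊔ RatEq F t ≤
      Submodule.span ℚ {sect t F ℓ} ⊔ RatEq F t := by
    refine sup_le ?_ le_sup_right
    rw [Submodule.span_le, Set.singleton_subset_iff, SetLike.mem_coe]
    have h4 := Submodule.add_mem _ (Submodule.mem_sup_right (S := Submodule.span ℚ {sect t F ℓ}) h2)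
      (Submodule.mem_sup_left (T := RatEq F t) (Submodule.mem_span_singleton_self (sect t F ℓ)))
    rw [sub_add_cancel] at h4
    exact h4
  exact h3 h1

end Pool.Agent.W5h94.CU
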