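import Pool.Agent.H89.HL.L.W5h86_HC_Comp

set_option autoImplicit false

/-!
# The induction on the dimension, outside of a hyperplane
-/

universe u

namespace Pool.Agent.W5h86.HC

open MvPolynomial

/-- All cycles of codimension `j`, outside of a hyperplane, on a hypersurface of degree `d` in the
projective space with `N` homogeneous coordinates are rationally equivalent to zero, if the
hypersurface has a smooth linear section of dimension `2 j + 1`. -/
def AffineStatement (d j N : ℕ) : Prop :=
  ∀ (K : Type u) [Field K] [CharZero K] (F : MvPolynomial (Fin N) K), IsHomogeneous F d →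
    HasSec (2 * j + 3) F → ∀ r : Fin N → K, r ≠ 0 → ∀ t, t + j + 1 = N →
      ∀ P, IsSub t (lform r) P → F ∈ P → pt P ∈ Rel F t (lform r)

section coord

variable {K : Type u} [Field K] {N : ℕ}

lemma isFib_coord {g g' : Matrix (Fin N) (Fin N) K} (h : g' * g = 1)
    (l : MvPolynomial (Fin N) K) : IsFib (lsub K g) l where
  graded := homogeneousComponent_lsub _
  den := by
    intro y
    refine ⟨1, lsub K g' y, 0, isHomogeneous_one _ _, ?_, ?_⟩
    · rw [lsub_lsub, h, lsub_one, map_one, one_mul]
      rfl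
    · intro P hP _ h1
      rw [map_one] at h1
      exact hP.ne_top ((Ideal.eq_top_iff_one _).2 h1)

lemma trdeg_self_eq : Algebra.trdeg K K = (0 : ℕ) := by
  rw [trdeg_eq_zero]
  simp

lemma lform_single (i : Fin N) : lform (Pi.single i (1 : K)) = X i := by
  unfold lform
  rw [Finset.sum_eq_single i]
  · simp
  · intro j _ hj
    simp [Pi.single_eq_of_ne hj]
  · simp

/-- Reduction to good coordinates. -/
lemma pt_mem_of_coord {F : MvPolynomial (Fin N) K} {g g' : Matrix (Fin N) (Fin N) K}
    (hg : g * g' = 1) (hg' : g' * g = 1) {l : MvPolynomial (Fin N) K} {t : ℕ}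
    (h : ∀ P, IsSub t (lsub K g l) P → lsub K g F ∈ P → pt P ∈ Rel (lsub K g F) t (lsub K g l))
    {P : Ideal (MvPolynomial (Fin N) K)} (hP : IsSub t l P) (hFP : F ∈ P) : pt P ∈ Rel F t l := by
  have hinv : ∀ f : MvPolynomial (Fin N) K, lsub K g' (lsub K g f) = f := by
    intro f
    rw [lsub_lsub, hg, lsub_one]
    rfl
  have hcomap : ∀ P : Ideal (MvPolynomial (Fin N) K),
      (P.comap (lsub K g')).comap (lsub K g) = P := by
    intro P
    ext f
    rw [Ideal.mem_comap, Ideal.mem_comap, hinv]
  have hsub : ∀ P, IsSub t l P → IsSub t (lsub K g l) (P.comap (lsub K g')) := by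
    intro P hP
    have h1 : IsSub t (lsub K g' (lsub K g l)) P := by
      rw [hinv]
      exact hP
    exact (isFib_coord hg (lsub K g l)).isSub_comap trdeg_self_eq h1
  have h1 := pt_mem_of_pt_mem (isFib_coord hg' l) trdeg_self_eq (F := F) (hsub P hP)
    (h _ (hsub P hP) (by
      rw [Ideal.mem_comap, hinv]
      exact hFP))
    (fun Q' _ _ P' _ hP' hno => absurd ⟨P'.comap (lsub K g'), hsub P' hP', hcomap P'⟩ hno)
  rw [hcomap] at h1
  exact h1

lemma le_of_hasSec {n : ℕ} {F : MvPolynomial (Fin N) K} (h : HasSec n F) : n ≤ N := by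
  obtain ⟨A, A', h1, -⟩ := h
  have h2 : Function.Injective A.mulVecLin := by
    intro v w hvw
    have h3 := congrArg (fun x => A'.mulVec x) hvw
    simpa [Matrix.mulVecLin_apply, Matrix.mulVec_mulVec, h1] using h3
  have h3 := LinearMap.finrank_le_finrank_of_injective h2
  simpa using h3

end coord

section step

variable {K : Type u} [Field K] [CharZero K] {M : ℕ}

/-- **The closed members of the pencil**, codimension one. -/
theorem closed_one {d : ℕ} {G : MvPolynomial (Fin (M + 2)) K} (hG : IsHomogeneous G (d + 2))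
    (hsec : HasSec 5 G) {P : Ideal (MvPolynomial (Fin (M + 2)) K)} [P.IsPrime]
    (hP : IsSub M (X 0) P) (hGP : G ∈ P) (hval : IsAlgebraic K (val P)) :
    pt P ∈ Rel G M (X 0) := by
  set π := minpoly K (val P) with hπ
  have hirr : Irreducible π := minpoly.irreducible hval.isIntegral
  have hfact : Fact (Irreducible π) := ⟨hirr⟩
  set φ := lsub K (fibMat (N := M) (AdjoinRoot.root π)) with hφ
  have hcz : CharZero (AdjoinRoot π) :=
    charZero_of_injective_algebraMap (algebraMap K (AdjoinRoot π)).injective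
  have hsec' : HasSec 3 (φ G) := hsec.closed hG _
  have hG0 : G ≠ 0 := ne_zero_of_hasSec (n := 4) hsec
  have hG0' : φ G ≠ 0 := ne_zero_of_hasSec (n := 2) hsec'
  set Pi2 := hom2 M π.natDegree π with hpi2
  have hpi2P : Pi2 ∈ P := (hom2_mem_iff hP π).2 (minpoly.aeval K (val P))
  -- the component
  obtain ⟨Q, hQ, hGQ, hQP⟩ := exists_component (M := M + 1) hG hG0 hP.prime hGP hP.notMem
  have hover : ∀ (t : ℕ) (P' : Ideal (MvPolynomial (Fin (M + 2)) K)), IsSub t (X 0) P' →
      Pi2 ∈ P' → ∃ P'', IsSub t (φ (X 0)) P'' ∧ P''.comap φ = P' := by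
    intro t P' hP' hmem
    have hprime := hP'.prime
    exact exists_over_closed π hP' ((hom2_mem_iff hP' π).1 hmem)
  have hpi2Q : Pi2 ∉ Q := by
    intro h1
    obtain ⟨Q', hQ', hQQ'⟩ := hover _ Q hQ h1
    have hGQ' : φ G ∈ Q' := by
      rw [← hQQ', Ideal.mem_comap] at hGQ
      exact hGQ
    have h2 : Q' ≠ ⊥ := by
      intro h3
      rw [h3, Ideal.mem_bot] at hGQ'
      exact hG0' hGQ'
    have h4 := trdeg_quot_lt (K := AdjoinRoot π) Ideal.isPrime_bot hQ'.prime
      (lt_of_le_of_ne bot_le (Ne.symm h2)) trdeg_bot hQ'.trdeg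
    omega
  set c := idiv M (X 0) Q Pi2 with hc
  have hcmem : c ∈ Rel G M (X 0) :=
    Submodule.subset_span ⟨Q, Pi2, π.natDegree, hQ, hGQ, isHomogeneous_hom2 _ _, hpi2Q, rfl⟩
  have hmP : mult (Q ⊔ Ideal.span {Pi2}) P ≠ 0 := by
    apply mult_ne_zero
    refine mem_minimalPrimes (K := K) hP.prime hQ.prime hP.trdeg hQ.trdeg le_sup_left hpi2Q
      (Ideal.mem_sup_right (Ideal.mem_span_singleton_self _)) (sup_le hQP ?_)
    rw [Ideal.span_singleton_le_iff_mem]
    exact hpi2P
  have hcP : c = (mult (Q ⊔ Ideal.span {Pi2}) P : ℚ) • pt P := by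
    classical
    funext P₂
    rw [Pi.smul_apply, smul_eq_mul]
    by_cases heq : P₂ = P
    · rw [heq, hc, idiv_of hP]
      unfold pt
      rw [Pi.single_eq_same, mul_one]
    · unfold pt
      rw [Pi.single_eq_of_ne heq, mul_zero]
      by_contra hne
      obtain ⟨h1, h2⟩ := idiv_support hQ hpi2Q hne
      have hle : Q ⊔ Ideal.span {Pi2} ≤ P₂ := h2.1.2
      have h3 : Pi2 ∈ P₂ := hle (Ideal.mem_sup_right (Ideal.mem_span_singleton_self _))
      have h4 : G ∈ P₂ := hle (Ideal.mem_sup_left hGQ)
      obtain ⟨P', hP', hPP'⟩ := hover _ P hP hpi2P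
      obtain ⟨P₂', hP₂', hPP₂'⟩ := hover _ P₂ h1 h3
      have h5 : P' = P₂' := by
        refine component_unique hsec' hP' hP₂' ?_ ?_
        · rw [← hPP', Ideal.mem_comap] at hGP
          exact hGP
        · rw [← hPP₂', Ideal.mem_comap] at h4
          exact h4
      exact heq (by rw [← hPP₂', ← h5, hPP'])
  have h6 : pt P = (mult (Q ⊔ Ideal.span {Pi2}) P : ℚ)⁻¹ • c := by
    rw [hcP, smul_smul, inv_mul_cancel₀ (by exact_mod_cast hmP), one_smul]
  rw [h6]
  exact Submodule.smul_mem _ _ hcmem

/-- **The closed members of the pencil**. -/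
theorem closed_case {d j : ℕ} (hj : 1 ≤ j)
    (ih : 1 < j → AffineStatement.{u} (d + 2) (j - 1) (M + 1))
    {G : MvPolynomial (Fin (M + 2)) K} (hG : IsHomogeneous G (d + 2))
    (hsec : HasSec (2 * j + 3) G) {t : ℕ} (ht : t + j + 1 = M + 2)
    {P : Ideal (MvPolynomial (Fin (M + 2)) K)} [P.IsPrime]
    (hP : IsSub t (X 0) P) (hGP : G ∈ P) (hval : IsAlgebraic K (val P)) :
    pt P ∈ Rel G t (X 0) := by
  rcases Nat.lt_or_ge 1 j with h1 | h1
  · set π := minpoly K (val P) with hπ
    have hirr : Irreducible π := minpoly.irreducible hval.isIntegral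
    have hfact : Fact (Irreducible π) := ⟨hirr⟩
    have hcz : CharZero (AdjoinRoot π) :=
      charZero_of_injective_algebraMap (algebraMap K (AdjoinRoot π)).injective
    have hsec' : HasSec (2 * (j - 1) + 3) (lsub K (fibMat (N := M) (AdjoinRoot.root π)) G) := by
      have h2 : 2 * j + 3 = (2 * (j - 1) + 3) + 2 := by omega
      rw [h2] at hsec
      exact hsec.closed hG _
    obtain ⟨P', hP', hPP'⟩ := exists_over_closed π hP (minpoly.aeval K (val P))
    have h3 : (X 0 : MvPolynomial (Fin (M + 1)) (AdjoinRoot π)) = lform (Pi.single 0 1) :=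
      (lform_single 0).symm
    have h4 := ih h1 (AdjoinRoot π) _ (isHomogeneous_lsub _ hG) hsec' (Pi.single 0 1)
      (by simp) t (by omega) P' (by
        rw [← h3, ← lsub_fibMat_zero (K := K) (θ := AdjoinRoot.root π)]
        exact hP') (by
        rw [← hPP', Ideal.mem_comap] at hGP
        exact hGP)
    rw [← h3, ← lsub_fibMat_zero (K := K) (θ := AdjoinRoot.root π)] at h4
    have h5 := pt_mem_of_pt_mem (isFib_fibMat (M := M) (hgen_adjoinRoot π)) (trdeg_adjoinRoot π)
      (F := G) hP' h4 (by
        intro Q' hQ' hGQ' P₂ hQP₂ hP₂ hno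
        exfalso
        apply hno
        have hpi2Q : hom2 M π.natDegree π ∈
            Q'.comap (lsub K (fibMat (N := M) (AdjoinRoot.root π))) := by
          rw [Ideal.mem_comap, lsub_fibMat_hom2 le_rfl]
          have h6 : Polynomial.aeval (AdjoinRoot.root π) π = 0 := by
            rw [AdjoinRoot.aeval_eq, AdjoinRoot.mk_self]
          rw [h6, map_zero, zero_mul]
          exact Q'.zero_mem
        have hprime := hP₂.prime
        exact exists_over_closed π hP₂ ((hom2_mem_iff hP₂ π).1 (hQP₂ hpi2Q)))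
    rw [hPP'] at h5
    exact h5
  · have h2 : j = 1 := by omega
    subst h2
    have h3 : t = M := by omega
    subst h3
    exact closed_one hG hsec hP hGP hval

/-- **The generic member of the pencil**. -/
theorem generic_case {d j : ℕ} (hj : 1 ≤ j)
    (ih : 1 < j → AffineStatement.{u} (d + 2) (j - 1) (M + 1))
    (ih' : AffineStatement.{u} (d + 2) j (M + 1))
    {G : MvPolynomial (Fin (M + 2)) K} (hG : IsHomogeneous G (d + 2))
    {A : Matrix (Fin (M + 2)) (Fin (2 * j + 3)) K} {A' : Matrix (Fin (2 * j + 3)) (Fin (M + 2)) K}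
    (hA : A' * A = 1) (hA1 : A 1 = 0) (hAs : Smooth (lsub K A G))
    {t : ℕ} (ht : t + j + 1 = M + 2) {P : Ideal (MvPolynomial (Fin (M + 2)) K)}
    (hP : IsSub t (X 0) P) (hGP : G ∈ P) : pt P ∈ Rel G t (X 0) := by
  have hprime := hP.prime
  by_cases hval : IsAlgebraic K (val P)
  · exact closed_case hj ih hG ⟨A, A', hA, hAs⟩ ht hP hGP hval
  · have hcz : CharZero (Kt K) :=
      charZero_of_injective_algebraMap (algebraMap K (Kt K)).injective
    have hsec' : HasSec (2 * j + 3) (lsub K (fibMat (N := M) (tt K)) G) :=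
      hasSec_generic hG transcendental_tt hA hA1 hAs
    obtain ⟨t', P', ht', hP', hPP'⟩ := exists_over_generic hP hval
    subst ht'
    have h3 : (X 0 : MvPolynomial (Fin (M + 1)) (Kt K)) = lform (Pi.single 0 1) :=
      (lform_single 0).symm
    have h4 := ih' (Kt K) _ (isHomogeneous_lsub _ hG) hsec' (Pi.single 0 1)
      (by simp) t' (by omega) P' (by
        rw [← h3, ← lsub_fibMat_zero (K := K) (θ := tt K)]
        exact hP') (by
        rw [← hPP', Ideal.mem_comap] at hGP
        exact hGP)
    rw [← h3, ← lsub_fibMat_zero (K := K) (θ := tt K)] at h4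
    have hfib : IsFib (lsub K (fibMat (N := M) (tt K))) (X 0) :=
      isFib_fibMat (M := M) (θ := tt K) (hgen_Kt (K := K))
    have h5 := pt_mem_of_pt_mem hfib (trdeg_Kt (K := K))
      (F := G) hP' h4 (by
        intro Q' hQ' hGQ' P₂ hQP₂ hP₂ hno
        have hprime := hP₂.prime
        have hGP₂ : G ∈ P₂ := hQP₂ hGQ'
        by_cases hval₂ : IsAlgebraic K (val P₂)
        · exact closed_case hj ih hG ⟨A, A', hA, hAs⟩ ht hP₂ hGP₂ hval₂
        · exfalso
          apply hno
          obtain ⟨t'', P'', ht'', hP'', hPP''⟩ := exists_over_generic hP₂ hval₂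
          have h6 : t'' = t' := by omega
          subst h6
          exact ⟨P'', hP'', hPP''⟩)
    rw [hPP'] at h5
    exact h5

end step

/-- **The induction.** -/
theorem affineStatement_of_base {d i : ℕ}
    (hbase : ∀ j, 1 ≤ j → j ≤ i → AffineStatement.{u} (d + 2) j (2 * j + 3)) :
    ∀ N j, 1 ≤ j → j ≤ i → AffineStatement.{u} (d + 2) j N := by
  intro N
  induction N with
  | zero =>
    intro j hj _ K _ _ F hF hsec
    have := le_of_hasSec hsec
    omega
  | succ N ih =>
    intro j hj hji K _ _ F hF hsec r hr t ht P hP hFP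
    have hle := le_of_hasSec hsec
    rcases Nat.eq_or_lt_of_le hle with heq | hlt
    · have h1 := hbase j hj hji
      rw [heq] at h1
      exact h1 K F hF hsec r hr t ht P hP hFP
    · obtain ⟨M, rfl⟩ : ∃ M, N = M + 1 := ⟨N - 1, by omega⟩
      have hsec2 : HasSec ((2 * j + 2) + 1) F := hsec
      obtain ⟨g, g', hg, hg', hg0, A, A', hA, hA1, hAs⟩ :=
        hsec2.exists_good_coord hF (by omega) hr
      have hl : lsub K g (lform r) = X 0 := by
        rw [lsub_lform, ← lform_single]
        congr 1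
        funext j
        have h1 := congrFun (congrFun hg' 0) j
        rw [Matrix.mul_apply, hg0] at h1
        simp only [Algebra.algebraMap_self, RingHom.id_apply]
        rw [h1, Matrix.one_apply, Pi.single_apply]
        simp only [eq_comm]
      refine pt_mem_of_coord hg hg' ?_ hP hFP
      intro P' hP' hFP'
      rw [hl] at hP' ⊢
      exact generic_case hj (fun h1 => ih (j - 1) (by omega) (by omega)) (ih j hj hji)
        (isHomogeneous_lsub g hF) hA hA1 hAs ht hP' hFP'

end Pool.Agent.W5h86.HC
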