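import Pool.Agent.H89.HL.L.W5h86_HC_Hypl

set_option autoImplicit false

/-!
# The base of the induction
-/

universe u

namespace Pool.Agent.W5h86.HC

open MvPolynomial

section

variable {K : Type u} [Field K] {M : ℕ}

lemma exists_li {V : Type u} [AddCommGroup V] [Module K V] [FiniteDimensional K V] {v : V}
    (hv : v ≠ 0) (m : ℕ) (hm : m + 1 ≤ Module.finrank K V) :
    ∃ w : Fin (m + 1) → V, LinearIndependent K w ∧ w 0 = v := by
  induction m with
  | zero =>
    have h1 : LinearIndependent K (fun _ : Fin 1 => v) := linearIndependent_unique_iff.2 hv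
    exact ⟨_, h1, rfl⟩
  | succ m ih =>
    obtain ⟨w, hw, hw0⟩ := ih (by omega)
    obtain ⟨x, hx⟩ := exists_linearIndependent_snoc_of_lt_finrank hw (by omega)
    refine ⟨Fin.snoc (α := fun _ => V) w x, hx, ?_⟩
    have h1 : (0 : Fin (m + 1 + 1)) = Fin.castSucc 0 := rfl
    rw [h1, Fin.snoc_castSucc, hw0]

/-- Linear sections of the right dimension. -/
lemma exists_forms [CharZero K] {F : MvPolynomial (Fin (M + 1)) K} {r : Fin (M + 1) → K}
    (hr : r ≠ 0) {B : Matrix (Fin (M + 1)) (Fin M) K} (hB : Matrix.vecMul r B = 0)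
    (hF : lsub K B F ≠ 0) {i : ℕ} (hi : i + 1 ≤ M) :
    ∃ ℓ : Fin (i + 1) → Fin (M + 1) → K, LinearIndependent K ℓ ∧ ℓ 0 = r ∧
      F ∉ Ideal.span (Set.range fun k => lform (ℓ k)) := by
  obtain ⟨y, hy⟩ : ∃ y : Fin M → K, aeval y (lsub K B F) ≠ 0 := by
    by_contra hcon
    push Not at hcon
    apply hF
    apply MvPolynomial.funext
    intro y
    rw [map_zero]
    have h1 := hcon y
    rw [aeval_eq_eval] at h1
    exact h1
  rw [aeval_lsub] at hy
  set x : Fin (M + 1) → K := fun i => ∑ j, algebraMap K K (B i j) * y j with hx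
  have hxB : x = B.mulVec y := rfl
  have hrx : r ⬝ᵥ x = 0 := by
    rw [hxB, Matrix.dotProduct_mulVec, hB, zero_dotProduct]
  obtain ⟨f, hf⟩ : ∃ f : (Fin (M + 1) → K) →ₗ[K] K, ∀ v, f v = v ⬝ᵥ x :=
    ⟨{ toFun := fun v => v ⬝ᵥ x
       map_add' := fun a b => add_dotProduct a b x
       map_smul' := fun c a => smul_dotProduct c a x }, fun v => rfl⟩
  have hfin : M ≤ Module.finrank K (LinearMap.ker f) := by
    have h1 := LinearMap.finrank_range_add_finrank_ker f
    have h2 : Module.finrank K (LinearMap.range f) ≤ 1 := by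
      have h3 := Submodule.finrank_le (LinearMap.range f)
      simpa using h3
    rw [Module.finrank_fin_fun] at h1
    omega
  obtain ⟨w, hw, hw0⟩ := exists_li (K := K) (V := LinearMap.ker f)
    (v := ⟨r, by rw [LinearMap.mem_ker, hf]; exact hrx⟩)
    (by
      intro h
      exact hr (congrArg Subtype.val h)) i (hi.trans hfin)
  refine ⟨fun k => (w k : Fin (M + 1) → K), ?_, ?_, ?_⟩
  · exact hw.map' (LinearMap.ker f).subtype (Submodule.ker_subtype _)
  · exact congrArg Subtype.val hw0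
  · intro h
    have h1 : Ideal.span (Set.range fun k => lform (w k : Fin (M + 1) → K)) ≤
        RingHom.ker (aeval x : MvPolynomial (Fin (M + 1)) K →ₐ[K] K) := by
      rw [Ideal.span_le]
      rintro _ ⟨k, rfl⟩
      rw [SetLike.mem_coe, RingHom.mem_ker]
      unfold lform
      rw [map_sum]
      have h2 : ∑ i, aeval x (C ((w k : Fin (M + 1) → K) i) * X i) =
          (w k : Fin (M + 1) → K) ⬝ᵥ x := by
        unfold dotProduct
        refine Finset.sum_congr rfl fun i _ => ?_
        rw [map_mul, aeval_X, aeval_C]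
        rfl
      rw [h2, ← hf]
      exact (w k).2
    exact hy ((RingHom.mem_ker).1 (h1 h))

end

/-- The base of the induction. -/
theorem affine_base {d j : ℕ} (hj : 1 ≤ j)
    (h : ∀ (K : Type u) [Field K] [CharZero K] (F : MvPolynomial (Fin (2 * j + 3)) K),
      IsHomogeneous F (d + 2) → Smooth F → LinSpan j F) :
    AffineStatement.{u} (d + 2) j (2 * j + 3) := by
  intro K _ _ F hF hsec r hr t ht P hP hFP
  obtain ⟨i, rfl⟩ : ∃ i, j = i + 1 := ⟨j - 1, by omega⟩
  obtain ⟨B, B', q, h1, h2, h3⟩ := exists_param (M := 2 * (i + 1) + 2) hr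
  have hsec' : HasSec (2 * (i + 1) + 1) (lsub K B F) := by
    refine hsec.hyperplane (p := 2 * (i + 1) + 1) hF B r ?_
    intro w hw
    refine ⟨B'.mulVec w, ?_⟩
    rw [Matrix.mulVec_mulVec, h2, Matrix.sub_mulVec, Matrix.one_mulVec, Matrix.vecMulVec_mulVec]
    have h5 : r ⬝ᵥ w = 0 := hw
    rw [h5]
    simp
  obtain ⟨ℓ, hℓ, hℓ0, hFℓ⟩ := exists_forms hr h3 (ne_zero_of_hasSec hsec') (i := i) (by omega)
  rw [← hℓ0] at hP ⊢
  exact pt_mem_rel (h K F hF (smooth_of_hasSec hsec)) hℓ hFℓ ht hP hFP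

/-- **Main theorem**: the codimension `i` part of Hartshorne's conjecture follows from the case of
dimension `2 j + 1` with `1 ≤ j ≤ i`. -/
theorem main {d i : ℕ} (h : ∀ j, 1 ≤ j → j ≤ i → ∀ (K : Type u) [Field K] [CharZero K]
      (F : MvPolynomial (Fin (2 * j + 3)) K), IsHomogeneous F (d + 2) → Smooth F → LinSpan j F)
    (N : ℕ) (K : Type u) [Field K] [CharZero K] (F : MvPolynomial (Fin N) K)
    (hF : IsHomogeneous F (d + 2)) (hsec : HasSec (2 * i + 3) F) : LinSpan i F :=
  linSpan_of_affine (affineStatement_of_base fun j h1 h2 => affine_base h1 (h j h1 h2)) i le_rfl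
    N K F hF hsec

end Pool.Agent.W5h86.HC
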