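import Mathlib

set_option autoImplicit false

/-!
# Derivations of field extensions of characteristic zero
-/

universe u

namespace Pool.Agent.W5h86.HC

open MvPolynomial

/-- Field extensions of characteristic zero are formally smooth. -/
lemma formallySmooth_of_charZero (U L : Type u) [Field U] [Field L] [CharZero U] [Algebra U L] :
    Algebra.FormallySmooth U L := by
  obtain ⟨s, hs⟩ := exists_isTranscendenceBasis U L
  have h1 : Algebra.IsAlgebraic (IntermediateField.adjoin U (Set.range ((↑) : s → L))) L := by
    convert! hs.isAlgebraic_field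
  have h2 : Algebra.IsSeparable (IntermediateField.adjoin U (Set.range ((↑) : s → L))) L :=
    inferInstance
  exact .of_algebraicIndependent_of_isSeparable hs.1

/-- Partial derivatives with respect to independent elements. -/
theorem exists_derivation {k L : Type u} [Field k] [Field L] [CharZero k] [Algebra k L] {p : ℕ}
    (U : Type u) [Field U] [Algebra k U] [Algebra (MvPolynomial (Fin p) k) U]
    [IsFractionRing (MvPolynomial (Fin p) k) U] [IsScalarTower k (MvPolynomial (Fin p) k) U]
    [Algebra U L] [IsScalarTower k U L] (i : Fin p) :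
    ∃ D : Derivation k L L, ∀ j, D (algebraMap U L (algebraMap (MvPolynomial (Fin p) k) U (X j))) =
      if j = i then 1 else 0 := by
  let f0 : MvPolynomial (Fin p) k →ₐ[k] L :=
    (IsScalarTower.toAlgHom k U L).comp (IsScalarTower.toAlgHom k (MvPolynomial (Fin p) k) U)
  have hf0 : Function.Injective f0 := (algebraMap U L).injective.comp
    (IsFractionRing.injective (MvPolynomial (Fin p) k) U)
  let σ0 : MvPolynomial (Fin p) k →ₐ[k] TrivSqZeroExt L L :=
    aeval fun j => TrivSqZeroExt.inl (f0 (X j)) + TrivSqZeroExt.inr (if j = i then 1 else 0)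
  have hσ0 : ∀ a, (σ0 a).fst = f0 a := by
    intro a
    have h : (TrivSqZeroExt.fstHom k L L).comp σ0 = f0 := by
      apply MvPolynomial.algHom_ext
      intro j
      change (σ0 (X j)).fst = f0 (X j)
      have h1 : σ0 (X j) = TrivSqZeroExt.inl (f0 (X j)) +
          TrivSqZeroExt.inr (if j = i then 1 else 0) := aeval_X _ _
      rw [h1, TrivSqZeroExt.fst_add, TrivSqZeroExt.fst_inl, TrivSqZeroExt.fst_inr, add_zero]
    exact DFunLike.congr_fun h a
  have hunit : ∀ y : nonZeroDivisors (MvPolynomial (Fin p) k), IsUnit (σ0 y) := by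
    intro y
    rw [TrivSqZeroExt.isUnit_iff_isUnit_fst, hσ0, isUnit_iff_ne_zero]
    intro h
    exact nonZeroDivisors.ne_zero y.2 (hf0 (h.trans (map_zero f0).symm))
  let σ1 : U →+* TrivSqZeroExt L L :=
    IsLocalization.lift (M := nonZeroDivisors (MvPolynomial (Fin p) k)) (g := σ0.toRingHom) hunit
  have hσ1 : ∀ a, σ1 (algebraMap _ U a) = σ0 a := fun a => IsLocalization.lift_eq _ _
  have hfst : ∀ x, (σ1 x).fst = algebraMap U L x := by
    intro x
    have h : (TrivSqZeroExt.fstHom k L L : TrivSqZeroExt L L →+* L).comp σ1 = algebraMap U L := by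
      apply IsLocalization.ringHom_ext (nonZeroDivisors (MvPolynomial (Fin p) k))
      ext a
      · change (σ1 (algebraMap _ U (C a))).fst = f0 (C a)
        rw [hσ1, hσ0]
      · change (σ1 (algebraMap _ U (X a))).fst = f0 (X a)
        rw [hσ1, hσ0]
    exact DFunLike.congr_fun h x
  let B := TrivSqZeroExt L L
  let algB : Algebra U B := σ1.toAlgebra
  let g : @AlgHom U B L _ _ _ algB _ := { (TrivSqZeroExt.fstHom k L L : B →+* L) with
    commutes' := fun x => hfst x }
  have hg : Function.Surjective g := fun x => ⟨TrivSqZeroExt.inl x, rfl⟩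
  have hg' : IsNilpotent (RingHom.ker (g : B →+* L)) := by
    refine ⟨2, ?_⟩
    exact TrivSqZeroExt.kerIdeal_sq L L
  have hU : CharZero U := charZero_of_injective_algebraMap (algebraMap k U).injective
  have := formallySmooth_of_charZero U L
  let τ : @AlgHom U L B _ _ _ _ algB :=
    Algebra.FormallySmooth.liftOfSurjective (AlgHom.id U L) g hg hg'
  have hτ : ∀ x, (τ x).fst = x := fun x =>
    Algebra.FormallySmooth.liftOfSurjective_apply (AlgHom.id U L) g hg hg' x
  have hτU : ∀ x : U, τ (algebraMap U L x) = σ1 x := fun x => τ.commutes x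
  have hτk : ∀ a : k, τ (algebraMap k L a) = TrivSqZeroExt.inl (algebraMap k L a) := by
    intro a
    have h1 : τ (algebraMap k L a) = σ0 (algebraMap k _ a) := by
      rw [IsScalarTower.algebraMap_apply k U L, hτU,
        IsScalarTower.algebraMap_apply k (MvPolynomial (Fin p) k) U, hσ1]
    rw [h1, AlgHom.commutes]
    rfl
  refine ⟨Derivation.mk'
    { toFun := fun x => (τ x).snd
      map_add' := fun x y => by rw [map_add]; rfl
      map_smul' := fun a x => by
        rw [Algebra.smul_def, map_mul, hτk, TrivSqZeroExt.snd_mul, TrivSqZeroExt.fst_inl,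
          TrivSqZeroExt.snd_inl, smul_zero, add_zero, RingHom.id_apply, smul_eq_mul]
        exact (Algebra.smul_def _ _).symm } ?_, ?_⟩
  · intro x y
    change (τ (x * y)).snd = x • (τ y).snd + y • (τ x).snd
    rw [map_mul, TrivSqZeroExt.snd_mul, hτ, hτ]
    simp [smul_eq_mul, mul_comm]
  · intro j
    change (τ (algebraMap U L (algebraMap (MvPolynomial (Fin p) k) U (X j)))).snd = _
    have h1 : σ0 (X j) = TrivSqZeroExt.inl (f0 (X j)) +
        TrivSqZeroExt.inr (if j = i then 1 else 0) := aeval_X _ _
    rw [hτU, hσ1, h1, TrivSqZeroExt.snd_add, TrivSqZeroExt.snd_inl, TrivSqZeroExt.snd_inr, zero_add]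

end Pool.Agent.W5h86.HC
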