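import Pool.Agent.H89.HL.L.W5h86_HC_Sec

set_option autoImplicit false

/-!
# Irreducibility of hypersurfaces with a smooth plane curve as a linear section
-/

universe u

namespace Pool.Agent.W5h86.HC

open MvPolynomial

variable {K : Type u} [Field K] {N n M : ℕ}

section height

/-- substitution of `0` for the first variables -/
noncomputable def killVars (n k : ℕ) :
    MvPolynomial (Fin n) K →ₐ[K] MvPolynomial (Fin n) K :=
  aeval fun i => if i.val < k then 0 else X i

lemma killVars_X (n k : ℕ) (i : Fin n) :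
    killVars n k (X i : MvPolynomial (Fin n) K) = if i.val < k then 0 else X i := by
  unfold killVars
  rw [aeval_X]

lemma killVars_height (n k : ℕ) (hk : k ≤ n) :
    (k : ℕ∞) ≤ (RingHom.ker (killVars (K := K) n k)).height := by
  induction k with
  | zero => simp
  | succ k ih =>
    have h1 := ih (by omega)
    have hp : ∀ k, (RingHom.ker (killVars (K := K) n k)).IsPrime := fun k => RingHom.ker_isPrime _
    have hlt : RingHom.ker (killVars (K := K) n k) < RingHom.ker (killVars (K := K) n (k + 1)) := by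
      have hcomp : (killVars (K := K) n (k + 1)).comp (killVars n k) = killVars n (k + 1) := by
        apply MvPolynomial.algHom_ext
        intro i
        rw [AlgHom.comp_apply, killVars_X]
        split_ifs with h
        · rw [map_zero, killVars_X, if_pos (by omega)]
        · rfl
      refine lt_of_le_of_ne ?_ ?_
      · intro f hf
        rw [RingHom.mem_ker] at hf ⊢
        rw [← hcomp, AlgHom.comp_apply, hf, map_zero]
      · intro heq
        have h2 : (X ⟨k, by omega⟩ : MvPolynomial (Fin n) K) ∈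
            RingHom.ker (killVars (K := K) n (k + 1)) := by
          rw [RingHom.mem_ker, killVars_X, if_pos (by simp)]
        rw [← heq, RingHom.mem_ker, killVars_X, if_neg (by simp)] at h2
        exact X_ne_zero _ h2
    have h3 := Ideal.height_add_one_le_of_lt_of_isPrime (I := RingHom.ker (killVars (K := K) n k))
      (J := RingHom.ker (killVars (K := K) n (k + 1))) hlt
    refine le_trans ?_ h3
    push_cast
    gcongr

/-- Two polynomials in three variables without constant term have a common zero different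
from the origin. -/
lemma exists_common_zero {f g : MvPolynomial (Fin 3) K} (hf : constantCoeff f = 0)
    (hg : constantCoeff g = 0) : ∃ (L : Type u) (_ : Field L) (_ : Algebra K L) (b : Fin 3 → L),
      b ≠ 0 ∧ aeval b f = 0 ∧ aeval b g = 0 := by
  classical
  set m := RingHom.ker (killVars (K := K) 3 3) with hm
  have hmp : m.IsPrime := RingHom.ker_isPrime _
  have hkill : ∀ f : MvPolynomial (Fin 3) K, killVars 3 3 f = C (constantCoeff f) := by
    intro f
    have h1 : killVars (K := K) 3 3 = (Algebra.ofId K _).comp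
        (aeval (fun _ => (0 : K)) : MvPolynomial (Fin 3) K →ₐ[K] K) := by
      apply MvPolynomial.algHom_ext
      intro i
      rw [killVars_X, if_pos i.isLt, AlgHom.comp_apply, aeval_X, map_zero]
    rw [h1, AlgHom.comp_apply]
    change C _ = _
    congr 1
    rw [aeval_zero']
    rfl
  have hI : Ideal.span (({f, g} : Finset (MvPolynomial (Fin 3) K)) :
      Set (MvPolynomial (Fin 3) K)) ≤ m := by
    rw [Ideal.span_le]
    intro x hx
    simp only [Finset.coe_insert, Finset.coe_singleton, Set.mem_insert_iff,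
      Set.mem_singleton_iff] at hx
    rcases hx with rfl | rfl
    · change killVars 3 3 _ = 0
      rw [hkill, hf, map_zero]
    · change killVars 3 3 _ = 0
      rw [hkill, hg, map_zero]
  obtain ⟨P, hP, hPm⟩ := Ideal.exists_minimalPrimes_le hI
  have hPp : P.IsPrime := hP.1.1
  have h1 : P.height ≤ 2 :=
    (Ideal.height_le_card_of_mem_minimalPrimes_span_finset hP).trans
      (by exact_mod_cast Finset.card_le_two)
  have h2 : (3 : ℕ∞) ≤ m.height := killVars_height 3 3 le_rfl
  have h3 : ∃ j, (X j : MvPolynomial (Fin 3) K) ∉ P := by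
    by_contra hcon
    push Not at hcon
    have h4 : P = m := by
      apply le_antisymm hPm
      intro x hx
      have h5 : (Ideal.Quotient.mkₐ K P) = (Algebra.ofId K _).comp
          (aeval (fun _ => (0 : K)) : MvPolynomial (Fin 3) K →ₐ[K] K) := by
        apply MvPolynomial.algHom_ext
        intro i
        rw [AlgHom.comp_apply, aeval_X, map_zero]
        exact Ideal.Quotient.eq_zero_iff_mem.2 (hcon i)
      have h6 : Ideal.Quotient.mk P x = 0 := by
        change Ideal.Quotient.mkₐ K P x = 0
        rw [h5, AlgHom.comp_apply, aeval_zero']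
        have h7 : C (constantCoeff x) = (0 : MvPolynomial (Fin 3) K) := by
          rw [← hkill]
          exact hx
        rw [map_eq_zero_iff _ (C_injective _ _)] at h7
        change algebraMap _ _ (constantCoeff x) = 0
        rw [h7, map_zero]
      exact Ideal.Quotient.eq_zero_iff_mem.1 h6
    rw [h4] at h1
    exact absurd (h2.trans h1) (by decide)
  obtain ⟨j, hj⟩ := h3
  let L := FractionRing (MvPolynomial (Fin 3) K ⧸ P)
  let φ : MvPolynomial (Fin 3) K →ₐ[K] L :=
    (IsScalarTower.toAlgHom K (MvPolynomial (Fin 3) K ⧸ P) L).comp (Ideal.Quotient.mkₐ K P)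
  have hφ : ∀ x, φ x = 0 ↔ x ∈ P := by
    intro x
    change algebraMap _ L (Ideal.Quotient.mk P x) = 0 ↔ _
    rw [map_eq_zero_iff _ (IsFractionRing.injective _ L), Ideal.Quotient.eq_zero_iff_mem]
  have hφa : ∀ x, φ x = aeval (fun i => φ (X i)) x := by
    intro x
    have h4 : φ = aeval (fun i => φ (X i)) := by
      apply MvPolynomial.algHom_ext
      intro i
      rw [aeval_X]
    exact DFunLike.congr_fun h4 x
  refine ⟨L, inferInstance, inferInstance, fun i => φ (X i), ?_, ?_, ?_⟩
  · intro h
    exact hj ((hφ _).1 (congrFun h j))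
  · rw [← hφa, hφ]
    exact hP.1.2 (Ideal.subset_span (by simp))
  · rw [← hφa, hφ]
    exact hP.1.2 (Ideal.subset_span (by simp))

end height

lemma ne_zero_of_hasSec {F : MvPolynomial (Fin N) K} (h : HasSec (n + 1) F) : F ≠ 0 := by
  rintro rfl
  obtain ⟨A, A', -, h2⟩ := h
  rw [map_zero] at h2
  obtain ⟨i, hi⟩ := h2 K (fun _ => 1) (fun h => one_ne_zero (congrFun h 0)) (map_zero _)
  exact hi (by rw [map_zero, map_zero])

lemma trdeg_bot : Algebra.trdeg K (MvPolynomial (Fin N) K ⧸ (⊥ : Ideal (MvPolynomial (Fin N) K)))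
    = (N : ℕ) := by
  have h1 := (AlgEquiv.quotientBot K (MvPolynomial (Fin N) K)).trdeg_eq
  rw [h1, MvPolynomial.trdeg_of_isDomain]
  simp

/-- A prime ideal which defines a hypersurface is principal. -/
lemma exists_generator {F : MvPolynomial (Fin (M + 1)) K} (hF : F ≠ 0)
    {P : Ideal (MvPolynomial (Fin (M + 1)) K)} (hP : P.IsPrime)
    (ht : Algebra.trdeg K (MvPolynomial (Fin (M + 1)) K ⧸ P) = (M : ℕ)) (hFP : F ∈ P) :
    ∃ g, Prime g ∧ g ∣ F ∧ P = Ideal.span {g} := by
  obtain ⟨f, hf, hfF⟩ := UniqueFactorizationMonoid.exists_prime_factors F hF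
  have h1 : f.prod ∈ P := by
    obtain ⟨v, hv⟩ := hfF
    have h2 : f.prod * v ∈ P := by
      rw [hv]
      exact hFP
    refine (hP.mem_or_mem h2).resolve_right fun h3 => ?_
    exact hP.ne_top (Ideal.eq_top_of_isUnit_mem _ h3 v.isUnit)
  obtain ⟨g, hg, hgP⟩ := (hP.multiset_prod_mem_iff_exists_mem f).1 h1
  have hgp := hf g hg
  refine ⟨g, hgp, (Multiset.dvd_prod hg).trans hfF.dvd, ?_⟩
  have hspan : (Ideal.span {g}).IsPrime := (Ideal.span_singleton_prime hgp.ne_zero).2 hgp
  obtain ⟨k, hk⟩ := exists_trdeg_eq (K := K) (Ideal.span {g})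
  have hlt : k < M + 1 := by
    refine trdeg_quot_lt (K := K) (Ideal.isPrime_bot) hspan ?_ trdeg_bot hk
    refine lt_of_le_of_ne bot_le fun h => ?_
    exact hgp.ne_zero (Ideal.span_singleton_eq_bot.1 h.symm)
  have hle : Ideal.span {g} ≤ P := by
    rw [Ideal.span_singleton_le_iff_mem]
    exact hgP
  by_contra hne
  have h4 := trdeg_quot_lt (K := K) hspan hP (lt_of_le_of_ne hle fun h => hne h.symm) hk ht
  omega

lemma constantCoeff_eq_zero_of_mem {P : Ideal (MvPolynomial (Fin N) K)} (hP : P.IsPrime)
    (hh : IsHomIdeal P) {f : MvPolynomial (Fin N) K} (hf : f ∈ P) : constantCoeff f = 0 := by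
  by_contra hne
  have h1 := hh f hf 0
  rw [homogeneousComponent_zero] at h1
  have h2 : IsUnit (C (coeff 0 f) : MvPolynomial (Fin N) K) := by
    apply IsUnit.map
    exact isUnit_iff_ne_zero.2 hne
  exact hP.ne_top (Ideal.eq_top_of_isUnit_mem _ h1 h2)

lemma constantCoeff_lsub (A : Matrix (Fin N) (Fin n) K) {f : MvPolynomial (Fin N) K}
    (hf : constantCoeff f = 0) : constantCoeff (lsub K A f) = 0 := by
  have h1 := homogeneousComponent_lsub A 0 f
  rw [homogeneousComponent_zero, homogeneousComponent_zero] at h1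
  have h2 : coeff 0 f = 0 := hf
  rw [h2, map_zero, map_zero, map_eq_zero_iff _ (C_injective _ _)] at h1
  exact h1

/-- **Uniqueness of the component**: a hypersurface with a smooth plane curve as a linear section
has only one component. -/
theorem component_unique {F : MvPolynomial (Fin (M + 1)) K} (h : HasSec 3 F)
    {l₁ l₂ : MvPolynomial (Fin (M + 1)) K} {P₁ P₂ : Ideal (MvPolynomial (Fin (M + 1)) K)}
    (h₁ : IsSub M l₁ P₁) (h₂ : IsSub M l₂ P₂) (hF₁ : F ∈ P₁) (hF₂ : F ∈ P₂) : P₁ = P₂ := by
  have hF := ne_zero_of_hasSec h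
  obtain ⟨A, A', -, hs⟩ := h
  obtain ⟨g₁, hg₁, hd₁, rfl⟩ := exists_generator hF h₁.prime h₁.trdeg hF₁
  obtain ⟨g₂, hg₂, hd₂, rfl⟩ := exists_generator hF h₂.prime h₂.trdeg hF₂
  by_contra hne
  have hnd : ¬ g₂ ∣ g₁ := by
    intro h3
    apply hne
    apply eq_of_trdeg_eq (K := K) h₁.prime h₂.prime _ h₁.trdeg h₂.trdeg
    rw [Ideal.span_singleton_le_span_singleton]
    exact h3
  obtain ⟨r, hr⟩ := hd₁
  rw [hr] at hd₂
  obtain ⟨r', hr'⟩ := (hg₂.dvd_or_dvd hd₂).resolve_left hnd
  have hc₁ := constantCoeff_lsub A (constantCoeff_eq_zero_of_mem h₁.prime h₁.hom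
    (Ideal.mem_span_singleton_self g₁))
  have hc₂ := constantCoeff_lsub A (constantCoeff_eq_zero_of_mem h₂.prime h₂.hom
    (Ideal.mem_span_singleton_self g₂))
  obtain ⟨L, _, _, b, hb, e₁, e₂⟩ := exists_common_zero hc₁ hc₂
  have hFe : lsub K A F = lsub K A g₁ * lsub K A g₂ * lsub K A r' := by
    rw [hr, hr', map_mul, map_mul, mul_assoc]
  obtain ⟨i, hi⟩ := hs L b hb (by rw [hFe, map_mul, map_mul, e₁, zero_mul, zero_mul])
  apply hi
  rw [hFe, pderiv_mul, pderiv_mul]
  simp only [map_add, map_mul, e₁, e₂, mul_zero, zero_mul, add_zero]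

end Pool.Agent.W5h86.HC
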