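import Mathlib

set_option autoImplicit false

/-!
# Multiplicities of ideals along primes, and transcendence degrees
-/

universe u v w

namespace Pool.Agent.W5h86.HC

open scoped Classical in
/-- The multiplicity along the prime ideal `P` of the closed subscheme defined by the ideal `I`:
the length of the local ring `(R / I)_P = R_P / I R_P`. (It is `0` if `I` is not contained in `P`,
and, by convention, if the length is infinite or `P` is not a prime ideal.) -/
noncomputable def mult {R : Type u} [CommRing R] (I P : Ideal R) : ℕ :=
  if h : P.IsPrime then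
    (haveI := h; (Module.length (Localization.AtPrime P)
      (Localization.AtPrime P ⧸ I.map (algebraMap R (Localization.AtPrime P)))).toNat)
  else 0

section mult

variable {R : Type u} {S : Type v} [CommRing R] [CommRing S]

lemma mult_eq (I P : Ideal R) [h : P.IsPrime] : mult I P = (Module.length (Localization.AtPrime P)
      (Localization.AtPrime P ⧸ I.map (algebraMap R (Localization.AtPrime P)))).toNat := by
  unfold mult
  rw [dif_pos h]

/-- The multiplicity only depends on the localization of the ideal. -/
lemma mult_congr {I J P : Ideal R} (hP : P.IsPrime)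
    (h1 : ∀ x ∈ I, ∃ s, s ∉ P ∧ s * x ∈ J) (h2 : ∀ x ∈ J, ∃ s, s ∉ P ∧ s * x ∈ I) :
    mult I P = mult J P := by
  have key : ∀ I J : Ideal R, (∀ x ∈ I, ∃ s, s ∉ P ∧ s * x ∈ J) →
      I.map (algebraMap R (Localization.AtPrime P)) ≤
        J.map (algebraMap R (Localization.AtPrime P)) := by
    intro I J h
    rw [Ideal.map_le_iff_le_comap]
    intro x hx
    obtain ⟨s, hs, hsx⟩ := h x hx
    rw [Ideal.mem_comap]
    have hu : IsUnit (algebraMap R (Localization.AtPrime P) s) :=
      IsLocalization.map_units (Localization.AtPrime P) (⟨s, hs⟩ : P.primeCompl)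
    have h3 : algebraMap R (Localization.AtPrime P) s * algebraMap R (Localization.AtPrime P) x ∈
        J.map (algebraMap R (Localization.AtPrime P)) := by
      rw [← map_mul]
      exact Ideal.mem_map_of_mem _ hsx
    exact (Ideal.unit_mul_mem_iff_mem _ hu).1 h3
  rw [mult_eq, mult_eq, le_antisymm (key I J h1) (key J I h2)]

lemma mult_eq_zero {I P : Ideal R} (h : ¬ I ≤ P) : mult I P = 0 := by
  by_cases hP : P.IsPrime
  · rw [mult_eq]
    obtain ⟨x, hx, hxP⟩ := Set.not_subset.1 h
    have h1 : I.map (algebraMap R (Localization.AtPrime P)) = ⊤ := by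
      rw [Ideal.eq_top_iff_one]
      have hu : IsUnit (algebraMap R (Localization.AtPrime P) x) :=
        IsLocalization.map_units (Localization.AtPrime P) (⟨x, hxP⟩ : P.primeCompl)
      have h2 := Ideal.mem_map_of_mem (algebraMap R (Localization.AtPrime P)) hx
      rw [← mul_one (algebraMap R (Localization.AtPrime P) x),
        Ideal.unit_mul_mem_iff_mem _ hu] at h2
      exact h2
    rw [h1]
    have : Subsingleton (Localization.AtPrime P ⧸ (⊤ : Ideal (Localization.AtPrime P))) :=
      Ideal.Quotient.subsingleton_iff.2 rfl
    rw [Module.length_eq_zero]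
    rfl
  · unfold mult
    rw [dif_neg hP]

/-- The multiplicity of a prime ideal along itself is one. -/
lemma mult_self {P : Ideal R} (hP : P.IsPrime) : mult P P = 1 := by
  rw [mult_eq, Localization.AtPrime.map_eq_maximalIdeal]
  have : IsSimpleModule (Localization.AtPrime P)
      (Localization.AtPrime P ⧸ IsLocalRing.maximalIdeal (Localization.AtPrime P)) := by
    rw [isSimpleModule_iff_quot_maximal]
    exact ⟨_, IsLocalRing.maximalIdeal.isMaximal _, ⟨LinearEquiv.refl _ _⟩⟩
  rw [Module.length_eq_one]
  rfl

/-- The multiplicity at a minimal prime is not zero. -/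
lemma mult_ne_zero [IsNoetherianRing R] {I P : Ideal R} (hP : P ∈ I.minimalPrimes) :
    mult I P ≠ 0 := by
  have hPp : P.IsPrime := hP.1.1
  have hIP : I ≤ P := hP.1.2
  rw [mult_eq]
  intro h
  rw [ENat.toNat_eq_zero] at h
  have hnt : I.map (algebraMap R (Localization.AtPrime P)) ≠ ⊤ := by
    intro h1
    have h2 : I.map (algebraMap R (Localization.AtPrime P)) ≤
        IsLocalRing.maximalIdeal (Localization.AtPrime P) := by
      rw [← Localization.AtPrime.map_eq_maximalIdeal]
      exact Ideal.map_mono hIP
    rw [h1] at h2
    exact (IsLocalRing.maximalIdeal.isMaximal (Localization.AtPrime P)).ne_top (top_le_iff.1 h2)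
  rcases h with h | h
  · rw [Module.length_eq_zero_iff, Ideal.Quotient.subsingleton_iff] at h
    exact hnt h
  · revert h
    change _ ≠ _
    have hA : IsArtinianRing
        (Localization.AtPrime P ⧸ I.map (algebraMap R (Localization.AtPrime P))) := by
      apply IsLocalRing.quotient_artinian_of_mem_minimalPrimes_of_isLocalRing
      rw [IsLocalization.minimalPrimes_map P.primeCompl (Localization.AtPrime P) I,
        Set.mem_preimage]
      have h1 : (IsLocalRing.maximalIdeal (Localization.AtPrime P)).under R = P :=
        Localization.AtPrime.under_maximalIdeal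
      rw [h1]
      exact hP
    have h8 : IsFiniteLength
        (Localization.AtPrime P ⧸ I.map (algebraMap R (Localization.AtPrime P)))
        (Localization.AtPrime P ⧸ I.map (algebraMap R (Localization.AtPrime P))) :=
      (isArtinianRing_iff_isFiniteLength _).1 hA
    rw [Module.length_eq_of_surjective (R := Localization.AtPrime P ⧸
      I.map (algebraMap R (Localization.AtPrime P))) Ideal.Quotient.mk_surjective]
    exact Module.length_ne_top_iff.2 h8

/-- Multiplicities under a homomorphism which is a localization of a surjection near `P`. -/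
lemma mult_comap (φ : R →+* S) {P : Ideal S} (hP : P.IsPrime)
    (hφ : ∀ y : S, ∃ s r, φ s ∉ P ∧ φ r = φ s * y) (J : Ideal S) :
    mult (J.comap φ) (P.comap φ) = mult J P := by
  have hP' : (P.comap φ).IsPrime := Ideal.comap_isPrime φ P
  rw [mult_eq, mult_eq]
  congr 1
  set f := Localization.localRingHom (P.comap φ) P φ rfl with hf
  have hfs : ∀ x, f (algebraMap R _ x) = algebraMap S _ (φ x) := fun x =>
    Localization.localRingHom_to_map _ _ _ _ _
  have hsurj : Function.Surjective f := by
    intro z
    obtain ⟨y, ⟨t, ht⟩, rfl⟩ := IsLocalization.exists_mk'_eq P.primeCompl z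
    obtain ⟨s, r, hs, hr⟩ := hφ y
    obtain ⟨s', r', hs', hr'⟩ := hφ t
    have hr'P : φ r' ∉ P := by
      rw [hr']
      exact fun h => (hP.mem_or_mem h).elim hs' ht
    have hden : s * r' ∈ (P.comap φ).primeCompl := by
      change φ (s * r') ∉ P
      rw [map_mul]
      exact fun h => (hP.mem_or_mem h).elim hs hr'P
    refine ⟨IsLocalization.mk' _ (s' * r) ⟨s * r', hden⟩, ?_⟩
    rw [hf, Localization.localRingHom_mk', IsLocalization.mk'_eq_iff_eq]
    congr 1
    simp only [map_mul, hr, hr']
    ring
  have key : (J.comap φ).map (algebraMap R (Localization.AtPrime (P.comap φ))) =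
      (J.map (algebraMap S (Localization.AtPrime P))).comap f := by
    apply le_antisymm
    · rw [Ideal.map_le_iff_le_comap]
      intro x hx
      rw [Ideal.mem_comap, Ideal.mem_comap, hfs]
      exact Ideal.mem_map_of_mem _ hx
    · intro z hz
      obtain ⟨x, ⟨t, ht⟩, rfl⟩ := IsLocalization.exists_mk'_eq (P.comap φ).primeCompl z
      rw [Ideal.mem_comap] at hz
      have h1 : algebraMap S (Localization.AtPrime P) (φ x) ∈
          J.map (algebraMap S (Localization.AtPrime P)) := by
        have h2 := Ideal.mul_mem_left _ (algebraMap S (Localization.AtPrime P) (φ t)) hz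
        have h3 : algebraMap R (Localization.AtPrime (P.comap φ)) t *
            IsLocalization.mk' (Localization.AtPrime (P.comap φ)) x
              (⟨t, ht⟩ : (P.comap φ).primeCompl) = algebraMap R _ x :=
          IsLocalization.mk'_spec' _ x (⟨t, ht⟩ : (P.comap φ).primeCompl)
        rw [← hfs t, ← map_mul, h3, hfs] at h2
        exact h2
      rw [IsLocalization.mem_map_algebraMap_iff P.primeCompl] at h1
      obtain ⟨⟨⟨j, hj⟩, ⟨v, hv⟩⟩, h2⟩ := h1
      simp only at h2
      rw [← map_mul] at h2
      obtain ⟨⟨c, hc⟩, h3⟩ := (IsLocalization.eq_iff_exists P.primeCompl _).1 h2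
      simp only at h3
      -- `c * (φ x * v) = c * j`
      obtain ⟨s, r, hs, hr⟩ := hφ (c * v)
      have hr' : φ r ∉ P := by
        rw [hr]
        exact fun h => (hP.mem_or_mem h).elim hs fun h => (hP.mem_or_mem h).elim hc hv
      have h4 : r * x ∈ J.comap φ := by
        rw [Ideal.mem_comap, map_mul, hr]
        have h5 : φ s * (c * v) * φ x = φ s * (c * j) := by
          rw [← h3]
          ring
        rw [h5]
        exact J.mul_mem_left _ (J.mul_mem_left _ hj)
      have hu : IsUnit (algebraMap R (Localization.AtPrime (P.comap φ)) (t * r)) := by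
        refine IsLocalization.map_units (Localization.AtPrime (P.comap φ))
          (⟨t * r, ?_⟩ : (P.comap φ).primeCompl)
        change φ (t * r) ∉ P
        rw [map_mul]
        exact fun h => (hP.mem_or_mem h).elim ht hr'
      rw [← Ideal.unit_mul_mem_iff_mem _ hu]
      have h5 : algebraMap R (Localization.AtPrime (P.comap φ)) (t * r) *
          IsLocalization.mk' (Localization.AtPrime (P.comap φ)) x
            (⟨t, ht⟩ : (P.comap φ).primeCompl) = algebraMap R _ (r * x) := by
        rw [map_mul, map_mul, mul_right_comm, mul_comm (algebraMap R _ r)]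
        have h3 : algebraMap R (Localization.AtPrime (P.comap φ)) t *
            IsLocalization.mk' (Localization.AtPrime (P.comap φ)) x
              (⟨t, ht⟩ : (P.comap φ).primeCompl) = algebraMap R _ x :=
          IsLocalization.mk'_spec' _ x (⟨t, ht⟩ : (P.comap φ).primeCompl)
        rw [h3]
      rw [h5]
      exact Ideal.mem_map_of_mem _ h4
  rw [Module.length_quotient, Module.length_quotient, key,
    Ideal.coheight_comap_of_surjective _ hsurj]

end mult

end Pool.Agent.W5h86.HC
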