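import Pool.Agent.H89.HL.L.W5h86_HC_Lsub

set_option autoImplicit false

/-!
# Specialization of points
-/

universe u

namespace Pool.Agent.W5h86.HC

open MvPolynomial

/-- Existence of places at which a transcendental element vanishes. -/
theorem exists_place {K L : Type u} [Field K] [Field L] [Algebra K L] {s : L}
    (hs : Transcendental K s) :
    ∃ (V : Type u) (_ : CommRing V) (_ : Algebra K V) (ι : V →ₐ[K] L) (k : Type u) (_ : Field k)
      (_ : Algebra K k) (ρ : V →ₐ[K] k), Function.Injective ι ∧ (∃ s', ι s' = s ∧ ρ s' = 0) ∧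
      ∀ (n : ℕ) (b : Fin n → L), b ≠ 0 → ∃ c : L, c ≠ 0 ∧ ∃ b' : Fin n → V,
        (∀ j, ι (b' j) = c * b j) ∧ ∃ j, b' j = 1 := by
  classical
  let A : Subalgebra K L := Algebra.adjoin K {s}
  have hsA : s ∈ A := Algebra.subset_adjoin (Set.mem_singleton s)
  let I : Ideal A.toSubring := Ideal.span {(⟨s, hsA⟩ : A.toSubring)}
  have hI : I ≠ ⊤ := by
    intro h
    rw [Ideal.eq_top_iff_one, Ideal.mem_span_singleton'] at h
    obtain ⟨⟨a, ha⟩, h1⟩ := h
    have ha' : a ∈ Algebra.adjoin K {s} := ha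
    rw [Algebra.adjoin_singleton_eq_range_aeval] at ha'
    obtain ⟨p, hp⟩ := ha'
    have h2 : a * s = 1 := congrArg Subtype.val h1
    have h3 : Polynomial.aeval s (p * Polynomial.X - 1) = 0 := by
      rw [map_sub, map_mul, Polynomial.aeval_X, map_one]
      have h4 : Polynomial.aeval s p = a := hp
      rw [h4, h2, sub_self]
    have h4 : p * Polynomial.X - 1 = 0 := by
      by_contra hne
      exact hs ⟨_, hne, h3⟩
    have h5 := congrArg (fun q => Polynomial.coeff q 0) h4
    simp at h5
  obtain ⟨B, hAB, hIB⟩ := Ideal.image_subset_nonunits_valuationSubring I hI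
  have hKB : ∀ x : K, algebraMap K L x ∈ B := fun x => hAB (A.algebraMap_mem x)
  let algKB : Algebra K B := (RingHom.codRestrict (algebraMap K L) B.toSubring hKB).toAlgebra
  let ι : B →ₐ[K] L := { B.subtype with commutes' := fun x => rfl }
  let algKk : Algebra K (IsLocalRing.ResidueField B) :=
    ((IsLocalRing.residue B).comp (algebraMap K B)).toAlgebra
  let ρ : B →ₐ[K] IsLocalRing.ResidueField B :=
    { IsLocalRing.residue B with commutes' := fun x => rfl }
  have hsB : s ∈ B.nonunits := hIB ⟨⟨s, hsA⟩, Ideal.mem_span_singleton_self _, rfl⟩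
  refine ⟨B, inferInstance, algKB, ι, IsLocalRing.ResidueField B, inferInstance, algKk, ρ,
    Subtype.val_injective, ?_, ?_⟩
  · rw [ValuationSubring.mem_nonunits_iff_exists_mem_maximalIdeal] at hsB
    obtain ⟨h1, h2⟩ := hsB
    exact ⟨⟨s, h1⟩, rfl, (IsLocalRing.residue_eq_zero_iff _).2 h2⟩
  · intro n b hb
    obtain ⟨j0, hj0⟩ := Function.ne_iff.1 hb
    have hne : (Finset.univ : Finset (Fin n)).Nonempty := ⟨j0, Finset.mem_univ _⟩
    obtain ⟨j1, -, hj1⟩ := Finset.exists_max_image Finset.univ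
      (fun j => B.valuation (b j)) hne
    have hb1 : b j1 ≠ 0 := by
      intro h
      have h1 := hj1 j0 (Finset.mem_univ _)
      simp only [h, map_zero, le_zero_iff, map_eq_zero] at h1
      exact hj0 h1
    have hmem : ∀ j, (b j1)⁻¹ * b j ∈ B := by
      intro j
      rw [← ValuationSubring.valuation_le_one_iff, map_mul, map_inv₀]
      have h1 := hj1 j (Finset.mem_univ _)
      have h2 : B.valuation (b j1) ≠ 0 := (B.valuation.ne_zero_iff).2 hb1
      calc (B.valuation (b j1))⁻¹ * B.valuation (b j)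
          ≤ (B.valuation (b j1))⁻¹ * B.valuation (b j1) := by gcongr
        _ = 1 := inv_mul_cancel₀ h2
    refine ⟨(b j1)⁻¹, inv_ne_zero hb1, fun j => ⟨_, hmem j⟩, fun j => rfl, j1, ?_⟩
    exact Subtype.ext (inv_mul_cancel₀ hb1)

end Pool.Agent.W5h86.HC
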