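import Pool.Agent.H89.HL.L.W5h86_HC_Place
import Pool.Agent.H89.HL.L.W5h86_HC_Deriv

set_option autoImplicit false

/-!
# Smooth hypersurfaces and their linear sections
-/

universe u

namespace Pool.Agent.W5h86.HC

open MvPolynomial

variable {K κ : Type u} [Field K] [Field κ] [Algebra K κ] {N n p : ℕ}

/-- The hypersurface `F = 0` in projective space is smooth: `F` and its partial derivatives have no
common zero, except for the origin, over any extension field. -/
def Smooth (F : MvPolynomial (Fin N) K) : Prop :=
  ∀ (L : Type u) [Field L] [Algebra K L] (a : Fin N → L), a ≠ 0 → aeval a F = 0 →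
    ∃ i, aeval a (pderiv i F) ≠ 0

/-- Smoothness of a linear section in terms of points. -/
lemma smooth_lsub_iff (B : Matrix (Fin N) (Fin n) κ) (F : MvPolynomial (Fin N) K) :
    Smooth (lsub K B F) ↔ ∀ (L : Type u) [Field L] [Algebra K L] [Algebra κ L]
      [IsScalarTower K κ L] (b : Fin n → L), b ≠ 0 →
      aeval (fun i => ∑ j, algebraMap κ L (B i j) * b j) F = 0 →
      ∃ j, ∑ i, algebraMap κ L (B i j) *
        aeval (fun i => ∑ j, algebraMap κ L (B i j) * b j) (pderiv i F) ≠ 0 := by
  constructor
  · intro h L _ _ _ _ b hb h0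
    rw [← aeval_lsub] at h0
    obtain ⟨j, hj⟩ := h L b hb h0
    refine ⟨j, ?_⟩
    rw [pderiv_lsub, map_sum] at hj
    simp only [map_mul, aeval_C, aeval_lsub] at hj
    exact hj
  · intro h L _ _ b hb h0
    let i1 : Algebra K L := ((algebraMap κ L).comp (algebraMap K κ)).toAlgebra
    have i2 : IsScalarTower K κ L := IsScalarTower.of_algebraMap_eq fun x => rfl
    rw [aeval_lsub] at h0
    obtain ⟨j, hj⟩ := h L b hb h0
    refine ⟨j, ?_⟩
    rw [pderiv_lsub, map_sum]
    simp only [map_mul, aeval_C, aeval_lsub]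
    exact hj

/-- Smoothness of a linear section in terms of points; the case without a field extension. -/
lemma smooth_lsub_self_iff (B : Matrix (Fin N) (Fin n) K) (F : MvPolynomial (Fin N) K) :
    Smooth (lsub K B F) ↔ ∀ (L : Type u) [Field L] [Algebra K L] (b : Fin n → L), b ≠ 0 →
      aeval (fun i => ∑ j, algebraMap K L (B i j) * b j) F = 0 →
      ∃ j, ∑ i, algebraMap K L (B i j) *
        aeval (fun i => ∑ j, algebraMap K L (B i j) * b j) (pderiv i F) ≠ 0 := by
  constructor
  · intro h L _ _ b hb h0
    rw [← aeval_lsub] at h0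
    obtain ⟨j, hj⟩ := h L b hb h0
    refine ⟨j, ?_⟩
    rw [pderiv_lsub, map_sum] at hj
    simp only [map_mul, aeval_C, aeval_lsub] at hj
    exact hj
  · intro h L _ _ b hb h0
    rw [aeval_lsub] at h0
    obtain ⟨j, hj⟩ := h L b hb h0
    refine ⟨j, ?_⟩
    rw [pderiv_lsub, map_sum]
    simp only [map_mul, aeval_C, aeval_lsub]
    exact hj

lemma aeval_comp {V W : Type u} [CommRing V] [CommRing W] [Algebra K V] [Algebra K W]
    (f : V →ₐ[K] W) (x : Fin N → V) (F : MvPolynomial (Fin N) K) :
    f (aeval x F) = aeval (fun i => f (x i)) F := by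
  rw [← AlgHom.comp_apply, comp_aeval]

/-- **Smoothness is an open condition**: a deformation of a smooth section is smooth. -/
theorem smooth_deform {F : MvPolynomial (Fin N) K} {d : ℕ} (hF : IsHomogeneous F (d + 1))
    (A E : Matrix (Fin N) (Fin n) K) (hA : Smooth (lsub K A F)) {θ : κ}
    (hθ : Transcendental K θ) (B : Matrix (Fin N) (Fin n) κ)
    (hB : ∀ i j, B i j = algebraMap K κ (A i j) + θ * algebraMap K κ (E i j)) :
    Smooth (lsub K B F) := by
  rw [smooth_lsub_iff]
  intro L _ _ _ _ b hb h0
  by_contra hcon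
  push Not at hcon
  have hs : Transcendental K (algebraMap κ L θ) := by
    rw [transcendental_algebraMap_iff (algebraMap κ L).injective]
    exact hθ
  obtain ⟨V, _, _, ι, k, _, _, ρ, hι, ⟨s', hs1, hs2⟩, hsc⟩ := exists_place hs
  obtain ⟨c, hc, b', hb', j0, hj0⟩ := hsc n b hb
  set x : Fin N → L := fun i => ∑ j, algebraMap κ L (B i j) * b j with hx
  let a' : Fin N → Fin n → V := fun i j => algebraMap K V (A i j) + s' * algebraMap K V (E i j)
  have ha' : ∀ i j, ι (a' i j) = algebraMap κ L (B i j) := by
    intro i j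
    simp only [a', map_add, map_mul, AlgHom.commutes, hs1, hB]
    rw [IsScalarTower.algebraMap_apply K κ L, IsScalarTower.algebraMap_apply K κ L]
  have ha'' : ∀ i j, ρ (a' i j) = algebraMap K k (A i j) := by
    intro i j
    simp only [a', map_add, map_mul, AlgHom.commutes, hs2, zero_mul, add_zero]
  let x' : Fin N → V := fun i => ∑ j, a' i j * b' j
  have hx' : ∀ i, ι (x' i) = c * x i := by
    intro i
    simp only [x', hx, map_sum, map_mul, ha', hb', Finset.mul_sum]
    refine Finset.sum_congr rfl fun j _ => ?_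
    ring
  have h1 : aeval x' F = 0 := by
    apply hι
    rw [aeval_comp ι, map_zero]
    simp only [hx']
    rw [aeval_smul_point hF, h0, mul_zero]
  have h2 : ∀ j, ∑ i, a' i j * aeval x' (pderiv i F) = 0 := by
    intro j
    apply hι
    rw [map_sum, map_zero]
    have h3 : ∀ i, ι (a' i j * aeval x' (pderiv i F)) =
        c ^ d * (algebraMap κ L (B i j) * aeval x (pderiv i F)) := by
      intro i
      rw [map_mul, ha', aeval_comp ι]
      simp only [hx']
      rw [aeval_smul_point (isHomogeneous_pderiv hF i)]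
      ring
    rw [Finset.sum_congr rfl fun i _ => h3 i, ← Finset.mul_sum, hcon j, mul_zero]
  rw [smooth_lsub_iff] at hA
  have hbar : (fun j => ρ (b' j)) ≠ 0 := by
    intro h
    have h3 := congrFun h j0
    simp only [hj0, map_one, Pi.zero_apply, one_ne_zero] at h3
  have hxbar : (fun i => ∑ j, algebraMap K k (A i j) * ρ (b' j)) = fun i => ρ (x' i) := by
    funext i
    simp only [x', map_sum, map_mul, ha'']
  obtain ⟨j, hj⟩ := hA k (fun j => ρ (b' j)) hbar (by
    rw [hxbar, ← aeval_comp ρ, h1, map_zero])
  apply hj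
  rw [hxbar]
  have h4 := congrArg ρ (h2 j)
  rw [map_sum, map_zero] at h4
  rw [← h4]
  refine Finset.sum_congr rfl fun i _ => ?_
  rw [map_mul, ha'', aeval_comp ρ]

/-- Points of a hyperplane section at which it is singular are algebraic. -/
theorem isAlgebraic_of_sing {k L : Type u} [Field k] [Field L] [Algebra k L]
    {G : MvPolynomial (Fin (p + 1)) k} {d : ℕ} (hG : IsHomogeneous G (d + 2)) (hs : Smooth G)
    {x : Fin (p + 1) → L} (h0 : aeval x G = 0)
    (h1 : ∀ i : Fin p, aeval x (pderiv i.succ G) = 0) {i j : Fin (p + 1)} (hj : x j ≠ 0) :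
    IsAlgebraic k (x i / x j) := by
  have hx : x ≠ 0 := fun h => hj (congrFun h j)
  have hg : aeval x (pderiv 0 G) ≠ 0 := by
    obtain ⟨i', hi'⟩ := hs L x hx h0
    rcases Fin.eq_zero_or_eq_succ i' with h | ⟨i'', h⟩
    · rw [h] at hi'
      exact hi'
    · rw [h] at hi'
      exact absurd (h1 i'') hi'
  set g := aeval x (pderiv 0 G) with hgdef
  have key : ∀ i, IsAlgebraic k (x i ^ (d + 1) / g) := by
    intro i
    by_contra hcon
    have hm : x i ^ (d + 1) / g ≠ 0 := by
      intro h
      rw [h] at hcon
      exact hcon isAlgebraic_zero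
    have hxi : x i ≠ 0 := by
      intro h
      rw [h] at hm
      simp at hm
    have hs' : Transcendental k (x i ^ (d + 1) / g)⁻¹ := by
      intro h
      exact hcon (by simpa using h.inv)
    obtain ⟨V, _, _, ι, k', _, _, ρ, hι, ⟨s', hs1, hs2⟩, hsc⟩ := exists_place hs'
    obtain ⟨c, hc, x', hx', j0, hj0⟩ := hsc _ x hx
    have e0 : aeval x' G = 0 := by
      apply hι
      rw [aeval_comp ι, map_zero]
      simp only [hx']
      rw [aeval_smul_point hG, h0, mul_zero]
    have e1 : ∀ i : Fin p, aeval x' (pderiv i.succ G) = 0 := by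
      intro i
      apply hι
      rw [aeval_comp ι, map_zero]
      simp only [hx']
      rw [aeval_smul_point (isHomogeneous_pderiv hG _), h1, mul_zero]
    have e2 : aeval x' (pderiv 0 G) = s' * x' i ^ (d + 1) := by
      apply hι
      rw [aeval_comp ι, map_mul, map_pow, hs1, hx']
      simp only [hx']
      rw [aeval_smul_point (isHomogeneous_pderiv hG _), ← hgdef, mul_pow]
      field_simp
    have hbar : (fun j => ρ (x' j)) ≠ 0 := by
      intro h
      have h3 := congrFun h j0
      simp only [hj0, map_one, Pi.zero_apply, one_ne_zero] at h3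
    obtain ⟨i', hi'⟩ := hs k' (fun j => ρ (x' j)) hbar (by rw [← aeval_comp ρ, e0, map_zero])
    apply hi'
    rw [← aeval_comp ρ]
    rcases Fin.eq_zero_or_eq_succ i' with h | ⟨i'', h⟩
    · rw [h, e2, map_mul, hs2, zero_mul]
    · rw [h, e1, map_zero]
  have h2 : (x i / x j) ^ (d + 1) = (x i ^ (d + 1) / g) * (x j ^ (d + 1) / g)⁻¹ := by
    rw [div_pow]
    field_simp
  have h3 : IsAlgebraic k ((x i / x j) ^ (d + 1)) := by
    rw [h2]
    exact (key i).mul (key j).inv
  exact h3.of_pow (by omega)

/-- The chain rule for derivations. -/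
lemma derivation_aeval {k L : Type u} [Field k] [Field L] [Algebra k L] (D : Derivation k L L)
    (x : Fin N → L) (G : MvPolynomial (Fin N) k) :
    D (aeval x G) = ∑ i, aeval x (pderiv i G) * D (x i) := by
  classical
  induction G using MvPolynomial.induction_on with
  | C a => simp
  | add p q hp hq =>
    simp only [map_add, hp, hq, add_mul, Finset.sum_add_distrib]
  | mul_X p k hp =>
    rw [map_mul, aeval_X, D.leibniz, hp]
    have h2 : ∀ i, aeval x (pderiv i (p * X k)) * D (x i) =
        x k * (aeval x (pderiv i p) * D (x i)) + aeval x p * (if i = k then D (x i) else 0) := by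
      intro i
      rw [pderiv_mul, map_add, map_mul, map_mul, aeval_X]
      by_cases hik : i = k
      · rw [hik, pderiv_X_self, map_one, if_pos rfl]
        ring
      · rw [pderiv_X_of_ne (fun h => hik h.symm), map_zero, if_neg hik]
        ring
    rw [Finset.sum_congr rfl fun i _ => h2 i, Finset.sum_add_distrib, ← Finset.mul_sum,
      ← Finset.mul_sum, Finset.sum_ite_eq' Finset.univ k]
    simp only [Finset.mem_univ, if_true, smul_eq_mul]
    ring

lemma derivation_isAlgebraic {k L : Type u} [Field k] [CharZero k] [Field L] [Algebra k L]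
    (D : Derivation k L L) {x : L} (hx : IsAlgebraic k x) : D x = 0 := by
  have h1 := D.map_aeval (minpoly k x) x
  rw [minpoly.aeval, map_zero] at h1
  have h2 : Polynomial.aeval x (Polynomial.derivative (minpoly k x)) ≠ 0 := by
    apply Polynomial.Separable.aeval_derivative_ne_zero _ (minpoly.aeval k x)
    exact (minpoly.irreducible hx.isIntegral).separable
  rw [smul_eq_mul] at h1
  exact (mul_eq_zero.1 h1.symm).resolve_left h2

/-- The matrix of a hyperplane `x 0 = ∑ u j * x (j + 1)`. -/
def hyp {R : Type*} [CommRing R] (u : Fin p → R) : Matrix (Fin (p + 1)) (Fin p) R :=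
  fun i j => Fin.cases (u j) (fun i' => if i' = j then 1 else 0) i

@[simp] lemma hyp_zero {R : Type*} [CommRing R] (u : Fin p → R) (j : Fin p) :
    hyp u 0 j = u j := rfl

@[simp] lemma hyp_succ {R : Type*} [CommRing R] (u : Fin p → R) (i j : Fin p) :
    hyp u i.succ j = if i = j then 1 else 0 := rfl

/-- **Generic hyperplane sections** of hypersurfaces whose singular points are algebraic. -/
theorem smooth_generic {k : Type u} [Field k] [CharZero k] {G : MvPolynomial (Fin (p + 1)) k}
    (hsing : ∀ (L : Type u) [Field L] [Algebra k L] (x : Fin (p + 1) → L), aeval x G = 0 →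
      (∀ i, aeval x (pderiv i G) = 0) → ∀ i j, x j ≠ 0 → IsAlgebraic k (x i / x j)) :
    Smooth (lsub k (hyp fun j => algebraMap (MvPolynomial (Fin p) k)
      (FractionRing (MvPolynomial (Fin p) k)) (X j)) G) := by
  set U := FractionRing (MvPolynomial (Fin p) k) with hU
  set u : Fin p → U := fun j => algebraMap (MvPolynomial (Fin p) k) U (X j) with hu
  rw [smooth_lsub_iff]
  intro L _ _ _ _ b hb h0
  by_contra hcon
  push Not at hcon
  set x : Fin (p + 1) → L := fun i => ∑ j, algebraMap U L (hyp u i j) * b j with hx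
  have hx0 : x 0 = ∑ j, algebraMap U L (u j) * b j := rfl
  have hxs : ∀ i : Fin p, x i.succ = b i := by
    intro i
    simp only [hx, hyp_succ]
    rw [Finset.sum_eq_single i]
    · simp
    · intro j _ hj
      simp [hj.symm]
    · simp
  have hc : ∀ j, algebraMap U L (u j) * aeval x (pderiv 0 G) + aeval x (pderiv j.succ G) = 0 := by
    intro j
    have h := hcon j
    rw [Fin.sum_univ_succ] at h
    simp only [hyp_zero, hyp_succ] at h
    rw [Finset.sum_eq_single j] at h
    · simpa using h
    · intro i _ hi
      simp [hi]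
    · simp
  have hD : ∀ l : Fin p, ∃ D : Derivation k L L, ∀ j, D (algebraMap U L (u j)) =
      if j = l then 1 else 0 := fun l => exists_derivation U l
  have hg0 : aeval x (pderiv 0 G) = 0 := by
    obtain ⟨l, hl⟩ := Function.ne_iff.1 hb
    obtain ⟨D, hD⟩ := hD l
    have h1 := derivation_aeval D x G
    rw [h0, map_zero, Fin.sum_univ_succ, hx0, map_sum] at h1
    have h2 : ∀ j, D (algebraMap U L (u j) * b j) =
        algebraMap U L (u j) * D (b j) + b j * (if j = l then 1 else 0) := by
      intro j
      rw [D.leibniz, hD, smul_eq_mul, smul_eq_mul]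
    have h3 : ∀ j : Fin p, aeval x (pderiv j.succ G) * D (x j.succ) =
        - (aeval x (pderiv 0 G) * (algebraMap U L (u j) * D (b j))) := by
      intro j
      rw [hxs]
      linear_combination (hc j) * D (b j)
    rw [Finset.sum_congr rfl fun j _ => h2 j, Finset.sum_congr rfl fun j _ => h3 j,
      Finset.sum_add_distrib, Finset.sum_neg_distrib, ← Finset.mul_sum] at h1
    simp only [mul_ite, mul_one, mul_zero, Finset.sum_ite_eq', Finset.mem_univ, if_true] at h1
    have h4 : aeval x (pderiv 0 G) * b l = 0 := by linear_combination -h1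
    exact (mul_eq_zero.1 h4).resolve_right hl
  have hgs : ∀ i, aeval x (pderiv i G) = 0 := by
    intro i
    rcases Fin.eq_zero_or_eq_succ i with h | ⟨j, h⟩
    · rw [h, hg0]
    · rw [h]
      have h1 := hc j
      rw [hg0, mul_zero, zero_add] at h1
      exact h1
  obtain ⟨l, hl⟩ := Function.ne_iff.1 hb
  have hbl : b l ≠ 0 := hl
  obtain ⟨D, hD⟩ := hD l
  have halg : ∀ i, IsAlgebraic k (x i / b l) := by
    intro i
    rw [← hxs l]
    exact hsing L x h0 hgs i l.succ (by rw [hxs]; exact hbl)
  have h1 : x 0 / b l = ∑ j, algebraMap U L (u j) * (b j / b l) := by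
    rw [hx0, Finset.sum_div]
    refine Finset.sum_congr rfl fun j _ => ?_
    rw [mul_div_assoc]
  have h2 := congrArg D h1
  rw [derivation_isAlgebraic D (halg 0), map_sum] at h2
  have h3 : ∀ j, D (algebraMap U L (u j) * (b j / b l)) =
      (b j / b l) * (if j = l then 1 else 0) := by
    intro j
    have h4 := derivation_isAlgebraic D (halg j.succ)
    rw [hxs] at h4
    rw [D.leibniz, hD, h4, smul_zero, zero_add, smul_eq_mul]
  rw [Finset.sum_congr rfl fun j _ => h3 j] at h2
  simp only [mul_ite, mul_one, mul_zero, Finset.sum_ite_eq', Finset.mem_univ, if_true] at h2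
  rw [div_self hbl] at h2
  exact zero_ne_one h2

end Pool.Agent.W5h86.HC
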