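import Pool.Agent.H89.HL.L.W5h86_HC_Smooth

set_option autoImplicit false

/-!
# Specialization of smooth sections; Bertini theorems
-/

universe u

namespace Pool.Agent.W5h86.HC

open MvPolynomial

variable {N n p q : ℕ}

section cert

variable {k R : Type u} [Field k] [CommRing R] [IsDomain R] [Algebra k R]

/-- the coordinates of the generic point of a family of sections -/
noncomputable def xh (A : Matrix (Fin N) (Fin n) R) : Fin N → MvPolynomial (Fin n) R :=
  fun i => ∑ j, C (A i j) * X j

/-- the ideal of the singular points of a family of sections -/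
noncomputable def singIdeal (A : Matrix (Fin N) (Fin n) R) (F : MvPolynomial (Fin N) k) :
    Ideal (MvPolynomial (Fin n) R) :=
  Ideal.span {aeval (xh A) F} ⊔
    Ideal.span (Set.range fun j => ∑ i, C (A i j) * aeval (xh A) (pderiv i F))

lemma exists_cert (U : Type u) [Field U] [Algebra R U] [IsFractionRing R U] [Algebra k U]
    [IsScalarTower k R U] {F : MvPolynomial (Fin N) k} (A : Matrix (Fin N) (Fin n) R)
    (hs : Smooth (lsub k (A.map (algebraMap R U)) F)) (j : Fin n) :
    ∃ δ : R, δ ≠ 0 ∧ ∃ m : ℕ, C δ * X j ^ m ∈ singIdeal A F := by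
  classical
  by_contra hcon
  push Not at hcon
  let M : Submonoid (MvPolynomial (Fin n) R) :=
    (nonZeroDivisors R).map (C : R →+* MvPolynomial (Fin n) R) ⊔ Submonoid.powers (X j)
  have hdisj : Disjoint (singIdeal A F : Set (MvPolynomial (Fin n) R)) M := by
    rw [Set.disjoint_left]
    intro y hy hyM
    obtain ⟨a, ha, b, hb, rfl⟩ := Submonoid.mem_sup.1 hyM
    obtain ⟨δ, hδ, rfl⟩ := Submonoid.mem_map.1 ha
    obtain ⟨m, rfl⟩ := hb
    exact hcon δ (nonZeroDivisors.ne_zero hδ) m hy
  obtain ⟨P, hP, hJP, hPM⟩ := Ideal.exists_le_prime_disjoint _ M hdisj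
  rw [Set.disjoint_right] at hPM
  have hXj : (X j : MvPolynomial (Fin n) R) ∉ P :=
    hPM (Submonoid.mem_sup_right (Submonoid.mem_powers _))
  have hCP : ∀ δ : R, δ ≠ 0 → (C δ : MvPolynomial (Fin n) R) ∉ P := fun δ hδ =>
    hPM (Submonoid.mem_sup_left (Submonoid.mem_map_of_mem _ (mem_nonZeroDivisors_of_ne_zero hδ)))
  let L := FractionRing (MvPolynomial (Fin n) R ⧸ P)
  let f : MvPolynomial (Fin n) R →+* L :=
    (algebraMap (MvPolynomial (Fin n) R ⧸ P) L).comp (Ideal.Quotient.mk P)
  have hf : ∀ y, f y = 0 ↔ y ∈ P := by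
    intro y
    change algebraMap _ L (Ideal.Quotient.mk P y) = 0 ↔ _
    rw [map_eq_zero_iff _ (IsFractionRing.injective _ L), Ideal.Quotient.eq_zero_iff_mem]
  have hfC : Function.Injective (f.comp (C : R →+* MvPolynomial (Fin n) R)) := by
    rw [injective_iff_map_eq_zero]
    intro δ hδ
    by_contra hne
    exact hCP δ hne ((hf _).1 hδ)
  let iU : Algebra U L := (IsFractionRing.lift hfC).toAlgebra
  have hiU : ∀ r : R, algebraMap U L (algebraMap R U r) = f (C r) := fun r =>
    IsFractionRing.lift_algebraMap hfC r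
  have hik : ∀ a : k, algebraMap k L a = f (C (algebraMap k R a)) := fun a => rfl
  have hst : IsScalarTower k U L := by
    apply IsScalarTower.of_algebraMap_eq
    intro a
    rw [hik, ← hiU, IsScalarTower.algebraMap_apply k R U]
  have hfa : ∀ (G : MvPolynomial (Fin N) k), f (aeval (xh A) G) =
      aeval (fun i => f (xh A i)) G := by
    intro G
    let fk : MvPolynomial (Fin n) R →ₐ[k] L := { f with commutes' := fun a => (hik a).symm }
    exact aeval_comp (K := k) fk (xh A) G
  rw [smooth_lsub_iff] at hs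
  have hx : (fun i => ∑ j, algebraMap U L (A.map (algebraMap R U) i j) * f (X j)) =
      fun i => f (xh A i) := by
    funext i
    simp only [xh, Matrix.map_apply, map_sum, map_mul, hiU]
  obtain ⟨j', hj'⟩ := hs L (fun j => f (X j)) (by
      intro h0
      exact hXj ((hf _).1 (congrFun h0 j))) (by
      rw [hx, ← hfa, hf]
      exact hJP (Ideal.mem_sup_left (Ideal.mem_span_singleton_self _)))
  apply hj'
  rw [hx]
  have h1 : f (∑ i, C (A i j') * aeval (xh A) (pderiv i F)) = 0 := by
    rw [hf]
    exact hJP (Ideal.mem_sup_right (Ideal.subset_span ⟨j', rfl⟩))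
  rw [← h1]
  simp only [map_sum, map_mul]
  refine Finset.sum_congr rfl fun i _ => ?_
  rw [Matrix.map_apply, hiU, hfa]

omit [IsDomain R] in
/-- Smoothness at all points of the parameter space where the certificates do not vanish. -/
lemma smooth_of_cert {F : MvPolynomial (Fin N) k} (A : Matrix (Fin N) (Fin n) R)
    (g : R →ₐ[k] k) (h : ∀ j, ∃ δ : R, g δ ≠ 0 ∧ ∃ m : ℕ, C δ * X j ^ m ∈ singIdeal A F) :
    Smooth (lsub k (A.map g) F) := by
  rw [smooth_lsub_self_iff]
  intro L _ _ b hb h0
  by_contra hcon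
  push Not at hcon
  set x : Fin N → L := fun i => ∑ j, algebraMap k L (A.map g i j) * b j with hx
  let Φ : MvPolynomial (Fin n) R →+* L :=
    eval₂Hom ((algebraMap k L).comp (g : R →+* k)) b
  have hΦC : ∀ r : R, Φ (C r) = algebraMap k L (g r) := fun r => eval₂Hom_C _ _ r
  have hΦX : ∀ j, Φ (X j) = b j := fun j => eval₂Hom_X' _ _ j
  have hΦx : ∀ i, Φ (xh A i) = x i := by
    intro i
    simp only [xh, map_sum, map_mul, hΦC, hΦX, hx, Matrix.map_apply]
  have hΦa : ∀ (G : MvPolynomial (Fin N) k), Φ (aeval (xh A) G) = aeval x G := by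
    intro G
    have hcomm : ∀ a : k, Φ (C (algebraMap k R a)) = algebraMap k L a := by
      intro a
      rw [hΦC, AlgHom.commutes]
      rfl
    let Φk : MvPolynomial (Fin n) R →ₐ[k] L := { Φ with commutes' := hcomm }
    have h1 := aeval_comp (K := k) Φk (xh A) G
    have h2 : (fun i => Φk (xh A i)) = x := funext hΦx
    rw [h2] at h1
    exact h1
  have hJ : singIdeal A F ≤ RingHom.ker Φ := by
    refine sup_le ?_ ?_
    · rw [Ideal.span_singleton_le_iff_mem, RingHom.mem_ker, hΦa, h0]
    · rw [Ideal.span_le]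
      rintro _ ⟨j, rfl⟩
      change Φ (∑ i, C (A i j) * aeval (xh A) (pderiv i F)) = 0
      simp only [map_sum, map_mul, hΦC, hΦa]
      exact hcon j
  apply hb
  funext j
  obtain ⟨δ, hδ, m, hm⟩ := h j
  have h1 : Φ (C δ * X j ^ m) = 0 := hJ hm
  rw [map_mul, map_pow, hΦC, hΦX] at h1
  have h2 : algebraMap k L (g δ) ≠ 0 := by
    rw [Ne, map_eq_zero]
    exact hδ
  exact eq_zero_of_pow_eq_zero ((mul_eq_zero.1 h1).resolve_left h2)

end cert

/-- **Specialization**: if the section is smooth at the generic point of the parameter space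
then it is smooth for suitable values of the parameters. -/
theorem exists_spec {k : Type u} [Field k] [CharZero k] {F : MvPolynomial (Fin N) k}
    (A : Matrix (Fin N) (Fin n) (MvPolynomial (Fin q) k))
    (hs : Smooth (lsub k (A.map (algebraMap (MvPolynomial (Fin q) k)
      (FractionRing (MvPolynomial (Fin q) k)))) F))
    {h : MvPolynomial (Fin q) k} (hh : h ≠ 0) :
    ∃ u : Fin q → k, aeval u h ≠ 0 ∧ Smooth (lsub k (A.map (aeval u)) F) := by
  classical
  choose δ hδ m hm using exists_cert (FractionRing (MvPolynomial (Fin q) k)) A hs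
  have hne : h * ∏ j, δ j ≠ 0 := mul_ne_zero hh (Finset.prod_ne_zero_iff.2 fun j _ => hδ j)
  obtain ⟨u, hu⟩ : ∃ u : Fin q → k, eval u (h * ∏ j, δ j) ≠ 0 := by
    by_contra hcon
    push Not at hcon
    apply hne
    apply MvPolynomial.funext
    intro x
    rw [hcon, map_zero]
  rw [map_mul, map_prod] at hu
  have hev : ∀ f : MvPolynomial (Fin q) k, aeval u f = eval u f := fun f => by
    rw [aeval_eq_eval]
  refine ⟨u, by rw [hev]; exact left_ne_zero_of_mul hu, smooth_of_cert A (aeval u) fun j =>
    ⟨δ j, ?_, m j, hm j⟩⟩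
  rw [hev]
  exact Finset.prod_ne_zero_iff.1 (right_ne_zero_of_mul hu) j (Finset.mem_univ _)

end Pool.Agent.W5h86.HC
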