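import Pool.Agent.H89.HL.L.W5h86_HC_Cyc

set_option autoImplicit false

/-!
# Transport of cycles and relations along linear substitutions
-/

universe u

namespace Pool.Agent.W5h86.HC

open MvPolynomial

variable {K κ : Type u} [Field K] [Field κ] [Algebra K κ] {N N' : ℕ}

/-- A substitution `K[x] → κ[y]` which near the primes without `φ l` is a localization of a
surjection. -/
structure IsFib (φ : MvPolynomial (Fin N) K →ₐ[K] MvPolynomial (Fin N') κ)
    (l : MvPolynomial (Fin N) K) : Prop where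
  graded : ∀ i f, homogeneousComponent i (φ f) = φ (homogeneousComponent i f)
  den : ∀ y, ∃ (s r : MvPolynomial (Fin N) K) (e : ℕ), IsHomogeneous s e ∧ φ r = φ s * y ∧
    ∀ P : Ideal (MvPolynomial (Fin N') κ), P.IsPrime → φ l ∉ P → φ s ∉ P

variable {φ : MvPolynomial (Fin N) K →ₐ[K] MvPolynomial (Fin N') κ} {l : MvPolynomial (Fin N) K}

lemma IsFib.isHomogeneous (h : IsFib φ l) {f : MvPolynomial (Fin N) K} {e : ℕ}
    (hf : IsHomogeneous f e) : IsHomogeneous (φ f) e := by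
  have h1 := h.graded e f
  rw [homogeneousComponent_of_mem hf, if_pos rfl] at h1
  rw [← h1]
  exact homogeneousComponent_isHomogeneous _ _

lemma IsFib.den' (h : IsFib φ l) {P' : Ideal (MvPolynomial (Fin N') κ)} (hP : P'.IsPrime)
    (hl : φ l ∉ P') (y : MvPolynomial (Fin N') κ) : ∃ s r, φ s ∉ P' ∧ φ r = φ s * y := by
  obtain ⟨s, r, e, -, h2, h3⟩ := h.den y
  exact ⟨s, r, h3 P' hP hl, h2⟩

lemma IsFib.trdeg (h : IsFib φ l) {P' : Ideal (MvPolynomial (Fin N') κ)} (hP : P'.IsPrime)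
    (hl : φ l ∉ P') : Algebra.trdeg K (MvPolynomial (Fin N) K ⧸ P'.comap φ) =
      Algebra.trdeg K κ + Algebra.trdeg κ (MvPolynomial (Fin N') κ ⧸ P') := by
  rw [trdeg_comap φ hP (h.den' hP hl)]
  exact (trdeg_add_eq K κ).symm

lemma IsFib.isSub_comap (h : IsFib φ l) {δ t : ℕ} (hδ : Algebra.trdeg K κ = δ)
    {P' : Ideal (MvPolynomial (Fin N') κ)} (hP : IsSub t (φ l) P') :
    IsSub (t + δ) l (P'.comap φ) where
  prime := hP.prime.comap _
  hom := fun f hf i => by
    rw [Ideal.mem_comap, ← h.graded]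
    exact hP.hom _ hf i
  trdeg := by
    rw [h.trdeg hP.prime hP.notMem, hδ, hP.trdeg]
    push_cast
    rw [add_comm]
  notMem := hP.notMem

lemma IsFib.comap_injective (h : IsFib φ l) {P' P'' : Ideal (MvPolynomial (Fin N') κ)}
    (hP' : P'.IsPrime) (hP'' : P''.IsPrime) (hl' : φ l ∉ P') (hl'' : φ l ∉ P'')
    (heq : P'.comap φ = P''.comap φ) : P' = P'' := by
  have key : ∀ P' P'' : Ideal (MvPolynomial (Fin N') κ), P''.IsPrime → φ l ∉ P'' →
      P'.comap φ = P''.comap φ → P' ≤ P'' := by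
    intro P' P'' hP'' hl'' heq y hy
    obtain ⟨s, r, hs, hr⟩ := h.den' hP'' hl'' y
    have h1 : r ∈ P'.comap φ := by
      rw [Ideal.mem_comap, hr]
      exact P'.mul_mem_left _ hy
    rw [heq, Ideal.mem_comap, hr] at h1
    exact (hP''.mem_or_mem h1).resolve_left hs
  exact le_antisymm (key _ _ hP'' hl'' heq) (key _ _ hP' hl' heq.symm)

/-- A prime ideal of `K[x]` which is the kernel of a homomorphism factoring over `φ`. -/
lemma IsFib.exists_isSub (h : IsFib φ l) {δ t : ℕ} (hδ : Algebra.trdeg K κ = δ)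
    {P : Ideal (MvPolynomial (Fin N) K)} (hP : IsSub t l P) {L : Type u} [Field L]
    (ψ : MvPolynomial (Fin N') κ →+* L) (hψ : ∀ f, ψ (φ f) = 0 ↔ f ∈ P) :
    ∃ t', t = t' + δ ∧ IsSub t' (φ l) (RingHom.ker ψ) ∧ (RingHom.ker ψ).comap φ = P := by
  have hprime : (RingHom.ker ψ).IsPrime := RingHom.ker_isPrime ψ
  have hcomap : (RingHom.ker ψ).comap φ = P := by
    ext f
    rw [Ideal.mem_comap, RingHom.mem_ker, hψ]
  have hl : φ l ∉ RingHom.ker ψ := by
    rw [RingHom.mem_ker, hψ]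
    exact hP.notMem
  have h1 := h.trdeg hprime hl
  rw [hcomap, hP.trdeg, hδ] at h1
  obtain ⟨n, hn⟩ := exists_trdeg_eq (K := κ) (RingHom.ker ψ)
  rw [hn] at h1
  have h2 : t = n + δ := by
    have h3 : (t : Cardinal.{u}) = ((δ + n : ℕ) : Cardinal.{u}) := by
      rw [h1]
      push_cast
      rfl
    have h4 : t = δ + n := by exact_mod_cast h3
    omega
  refine ⟨n, h2, ⟨hprime, ?_, hn, hl⟩, hcomap⟩
  intro y hy i
  obtain ⟨s, r, e, hs, hr, hsP⟩ := h.den y
  have h3 : homogeneousComponent (e + i) r ∈ P := by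
    apply hP.hom
    rw [← hψ, hr, map_mul, (RingHom.mem_ker).1 hy, mul_zero]
  rw [← hψ, ← h.graded, hr, homogeneousComponent_mul_of_isHomogeneous (h.isHomogeneous hs),
    map_mul] at h3
  rw [RingHom.mem_ker]
  exact (mul_eq_zero.1 h3).resolve_left (hsP _ hprime hl)

/-- Homogeneous elements can be lifted to homogeneous elements, up to denominators. -/
lemma IsFib.den_hom (h : IsFib φ l) {y : MvPolynomial (Fin N') κ} {e' : ℕ}
    (hy : IsHomogeneous y e') : ∃ (s r : MvPolynomial (Fin N) K) (e : ℕ), IsHomogeneous s e ∧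
      IsHomogeneous r (e + e') ∧ φ r = φ s * y ∧
      ∀ P : Ideal (MvPolynomial (Fin N') κ), P.IsPrime → φ l ∉ P → φ s ∉ P := by
  obtain ⟨s, r, e, hs, hr, hsP⟩ := h.den y
  refine ⟨s, homogeneousComponent (e + e') r, e, hs, homogeneousComponent_isHomogeneous _ _, ?_,
    hsP⟩
  rw [← h.graded, hr, homogeneousComponent_mul_of_isHomogeneous (h.isHomogeneous hs),
    homogeneousComponent_of_mem hy, if_pos rfl]

/-- Comparison of multiplicities. -/
lemma IsFib.mult_eq (h : IsFib φ l) {P' Q' : Ideal (MvPolynomial (Fin N') κ)} (hP : P'.IsPrime)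
    (hl : φ l ∉ P') {y : MvPolynomial (Fin N') κ} {s r : MvPolynomial (Fin N) K}
    (hs : φ s ∉ P') (hr : φ r = φ s * y) :
    mult (Q'.comap φ ⊔ Ideal.span {r}) (P'.comap φ) = mult (Q' ⊔ Ideal.span {y}) P' := by
  have h1 := mult_comap (φ : MvPolynomial (Fin N) K →+* MvPolynomial (Fin N') κ) hP
    (h.den' hP hl) (Q' ⊔ Ideal.span {y})
  refine Eq.trans (mult_congr (hP.comap _) ?_ ?_) h1
  · intro x hx
    refine ⟨1, ?_, ?_⟩
    · intro h2
      have h3 : φ 1 ∈ P' := h2
      rw [map_one] at h3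
      exact hP.ne_top ((Ideal.eq_top_iff_one _).2 h3)
    · rw [one_mul]
      change φ x ∈ (Q' ⊔ Ideal.span {y} : Ideal (MvPolynomial (Fin N') κ))
      obtain ⟨a, ha, b, hb, rfl⟩ := Submodule.mem_sup.1 hx
      obtain ⟨c, rfl⟩ := Ideal.mem_span_singleton'.1 hb
      rw [map_add, map_mul, hr]
      refine Ideal.add_mem _ (Ideal.mem_sup_left ha) (Ideal.mem_sup_right ?_)
      rw [Ideal.mem_span_singleton']
      exact ⟨φ c * φ s, by ring⟩
  · intro x hx
    have hx' : φ x ∈ Q' ⊔ Ideal.span {y} := hx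
    obtain ⟨a, ha, b, hb, hab⟩ := Submodule.mem_sup.1 hx'
    obtain ⟨c, rfl⟩ := Ideal.mem_span_singleton'.1 hb
    obtain ⟨s', r', hs', hr'⟩ := h.den' hP hl c
    refine ⟨s * s', ?_, ?_⟩
    · intro h2
      have h3 : φ (s * s') ∈ P' := h2
      rw [map_mul] at h3
      exact (hP.mem_or_mem h3).elim hs hs'
    · have h4 : s * s' * x - r' * r ∈ Q'.comap φ := by
        rw [Ideal.mem_comap, map_sub, map_mul, map_mul, map_mul, ← hab, hr', hr]
        have h5 : φ s * φ s' * (a + c * y) - φ s' * c * (φ s * y) = φ s * φ s' * a := by ring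
        rw [h5]
        exact Q'.mul_mem_left _ ha
      have h5 : s * s' * x = (s * s' * x - r' * r) + r' * r := by ring
      rw [h5]
      exact Ideal.add_mem _ (Ideal.mem_sup_left h4)
        (Ideal.mem_sup_right (Ideal.mul_mem_left _ _ (Ideal.mem_span_singleton_self r)))

open scoped Classical in
/-- Push-forward of cycles along `φ`. -/
noncomputable def push (φ : MvPolynomial (Fin N) K →ₐ[K] MvPolynomial (Fin N') κ)
    (l : MvPolynomial (Fin N) K) (t : ℕ) :
    (Ideal (MvPolynomial (Fin N') κ) → ℚ) →ₗ[ℚ] (Ideal (MvPolynomial (Fin N) K) → ℚ) where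
  toFun c P := if h : ∃ P', IsSub t (φ l) P' ∧ P'.comap φ = P then c h.choose else 0
  map_add' c d := by
    funext P
    simp only [Pi.add_apply]
    split_ifs <;> simp
  map_smul' a c := by
    funext P
    simp only [Pi.smul_apply, RingHom.id_apply, smul_eq_mul]
    split_ifs <;> simp

lemma push_of (h : IsFib φ l) {t : ℕ} (c : Ideal (MvPolynomial (Fin N') κ) → ℚ)
    {P' : Ideal (MvPolynomial (Fin N') κ)} (hP' : IsSub t (φ l) P') :
    push φ l t c (P'.comap φ) = c P' := by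
  have h1 : ∃ P'', IsSub t (φ l) P'' ∧ P''.comap φ = P'.comap φ := ⟨P', hP', rfl⟩
  have h2 : push φ l t c (P'.comap φ) = c h1.choose := dif_pos h1
  rw [h2, h.comap_injective h1.choose_spec.1.prime hP'.prime h1.choose_spec.1.notMem
    hP'.notMem h1.choose_spec.2]

lemma push_of_not {t : ℕ} (c : Ideal (MvPolynomial (Fin N') κ) → ℚ)
    {P : Ideal (MvPolynomial (Fin N) K)} (hP : ¬ ∃ P', IsSub t (φ l) P' ∧ P'.comap φ = P) :
    push φ l t c P = 0 := dif_neg hP

lemma push_pt (h : IsFib φ l) {t : ℕ} {P' : Ideal (MvPolynomial (Fin N') κ)}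
    (hP' : IsSub t (φ l) P') : push φ l t (pt P') = pt (P'.comap φ) := by
  classical
  funext P
  by_cases hP : ∃ P'', IsSub t (φ l) P'' ∧ P''.comap φ = P
  · obtain ⟨P'', hP'', rfl⟩ := hP
    rw [push_of h _ hP'']
    unfold pt
    by_cases heq : P'' = P'
    · rw [heq, Pi.single_eq_same, Pi.single_eq_same]
    · rw [Pi.single_eq_of_ne heq, Pi.single_eq_of_ne]
      intro h1
      exact heq (h.comap_injective hP''.prime hP'.prime hP''.notMem hP'.notMem h1)
  · rw [push_of_not _ hP]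
    unfold pt
    rw [Pi.single_eq_of_ne]
    rintro rfl
    exact hP ⟨P', hP', rfl⟩

/-- Transport of relations: the push-forward of the intersection cycles. -/
lemma push_idiv_mem (h : IsFib φ l) {δ t : ℕ} (hδ : Algebra.trdeg K κ = δ)
    {F : MvPolynomial (Fin N) K} {Q' : Ideal (MvPolynomial (Fin N') κ)}
    (hQ' : IsSub (t + 1) (φ l) Q') (hF : φ F ∈ Q') {G' : MvPolynomial (Fin N') κ} {e' : ℕ}
    (hG' : IsHomogeneous G' e') (hGQ : G' ∉ Q')
    (hsp : ∀ P, Q'.comap φ ≤ P → IsSub (t + δ) l P →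
      (¬ ∃ P', IsSub t (φ l) P' ∧ P'.comap φ = P) → pt P ∈ Rel F (t + δ) l) :
    push φ l t (idiv t (φ l) Q' G') ∈ Rel F (t + δ) l := by
  classical
  obtain ⟨s, r, e, hs, hrh, hr, hsP⟩ := h.den_hom hG'
  have hQ : IsSub (t + 1 + δ) l (Q'.comap φ) := h.isSub_comap hδ hQ'
  have hQ1 : IsSub (t + δ + 1) l (Q'.comap φ) := by
    have h1 : t + 1 + δ = t + δ + 1 := by ring
    rw [← h1]
    exact hQ
  have hrQ : r ∉ Q'.comap φ := by
    rw [Ideal.mem_comap, hr]
    exact fun h1 => (hQ'.prime.mem_or_mem h1).elim (hsP _ hQ'.prime hQ'.notMem) hGQ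
  set c := idiv (t + δ) l (Q'.comap φ) r - push φ l t (idiv t (φ l) Q' G') with hc
  have hval : ∀ P', IsSub t (φ l) P' → c (P'.comap φ) = 0 := by
    intro P' hP'
    rw [hc, Pi.sub_apply, push_of h _ hP', idiv_of (h.isSub_comap hδ hP'), idiv_of hP',
      h.mult_eq hP'.prime hP'.notMem (hsP _ hP'.prime hP'.notMem) hr, sub_self]
  have hval' : ∀ P, (¬ ∃ P', IsSub t (φ l) P' ∧ P'.comap φ = P) →
      c P = idiv (t + δ) l (Q'.comap φ) r P := by
    intro P hP
    rw [hc, Pi.sub_apply, push_of_not _ hP, sub_zero]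
  have hcmem : c ∈ Rel F (t + δ) l := by
    have hsub : Function.support c ⊆ Function.support (idiv (t + δ) l (Q'.comap φ) r) := by
      intro P hP
      by_cases h1 : ∃ P', IsSub t (φ l) P' ∧ P'.comap φ = P
      · obtain ⟨P', hP', rfl⟩ := h1
        exact absurd (hval P' hP') hP
      · rw [Function.mem_support, ← hval' P h1]
        exact hP
    refine mem_of_support ((idiv_support_finite hQ1 hrQ).subset hsub) fun P hP => ?_
    have h1 : ¬ ∃ P', IsSub t (φ l) P' ∧ P'.comap φ = P := by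
      rintro ⟨P', hP', rfl⟩
      exact hP (hval P' hP')
    obtain ⟨h2, h3⟩ := idiv_support hQ1 hrQ (hsub hP)
    exact hsp P (le_sup_left.trans h3.1.2) h2 h1
  have h1 : push φ l t (idiv t (φ l) Q' G') = idiv (t + δ) l (Q'.comap φ) r - c := by
    rw [hc, sub_sub_cancel]
  rw [h1]
  refine Submodule.sub_mem _ (Submodule.subset_span ⟨_, _, _, hQ1, ?_, hrh, hrQ, rfl⟩) hcmem
  exact hF

/-- **Transport of relations.** -/
theorem pt_mem_of_pt_mem (h : IsFib φ l) {δ t : ℕ} (hδ : Algebra.trdeg K κ = δ)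
    {F : MvPolynomial (Fin N) K} {P' : Ideal (MvPolynomial (Fin N') κ)}
    (hP' : IsSub t (φ l) P') (hmem : pt P' ∈ Rel (φ F) t (φ l))
    (hsp : ∀ Q', IsSub (t + 1) (φ l) Q' → φ F ∈ Q' → ∀ P, Q'.comap φ ≤ P → IsSub (t + δ) l P →
      (¬ ∃ P', IsSub t (φ l) P' ∧ P'.comap φ = P) → pt P ∈ Rel F (t + δ) l) :
    pt (P'.comap φ) ∈ Rel F (t + δ) l := by
  rw [← push_pt h hP']
  have h1 : (Rel (φ F) t (φ l)).map (push φ l t) ≤ Rel F (t + δ) l := by
    unfold Rel
    rw [Submodule.map_span_le]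
    rintro c ⟨Q', G', e', hQ', hF, hG', hGQ, rfl⟩
    exact push_idiv_mem h hδ hQ' hF hG' hGQ (hsp Q' hQ' hF)
  exact h1 (Submodule.mem_map_of_mem hmem)

end Pool.Agent.W5h86.HC
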