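import Pool.Agent.H89.HL.L.W5h86_HD_Ext

set_option autoImplicit false

/-!
# Descent from an algebraic closure
-/

universe u v w x

namespace Pool.Agent.W5h86.HD

open Pool.Agent.W5h86.HC MvPolynomial

attribute [local instance] MvPolynomial.algebraMvPolynomial

section comp

variable {K L Ω : Type u} [Field K] [Field L] [Field Ω] [Algebra K L] [Algebra L Ω] [Algebra K Ω]
  [IsScalarTower K L Ω] {N : ℕ}

lemma map_map_tower (f : MvPolynomial (Fin N) K) :
    algebraMap (MvPolynomial (Fin N) L) (MvPolynomial (Fin N) Ω)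
      (algebraMap (MvPolynomial (Fin N) K) (MvPolynomial (Fin N) L) f) =
        algebraMap (MvPolynomial (Fin N) K) (MvPolynomial (Fin N) Ω) f := by
  rw [algebraMap_eq_map, algebraMap_eq_map, algebraMap_eq_map, map_map]
  rw [← IsScalarTower.algebraMap_eq]

lemma comap_comap_tower (P : Ideal (MvPolynomial (Fin N) Ω)) :
    (P.comap (algebraMap (MvPolynomial (Fin N) L) (MvPolynomial (Fin N) Ω))).comap
      (algebraMap (MvPolynomial (Fin N) K) (MvPolynomial (Fin N) L)) =
        P.comap (algebraMap (MvPolynomial (Fin N) K) (MvPolynomial (Fin N) Ω)) := by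
  ext f
  rw [Ideal.mem_comap, Ideal.mem_comap, Ideal.mem_comap, map_map_tower]

end comp

section pull

variable {L Ω : Type u} [Field L] [Field Ω] [Algebra L Ω] [Algebra.IsAlgebraic L Ω] {N : ℕ}


lemma exists_over_isSub {t : ℕ} {l : (MvPolynomial (Fin N) L)} {P : Ideal (MvPolynomial (Fin N) L)}
    (hP : IsSub t l P) :
    ∃ P' : Ideal (MvPolynomial (Fin N) Ω), IsSub t (algebraMap (MvPolynomial (Fin N) L)
        (MvPolynomial (Fin N) Ω) l) P' ∧ P'.comap (algebraMap (MvPolynomial (Fin N) L)
            (MvPolynomial (Fin N) Ω)) = P := by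
  have hp := hP.prime
  have hinj : Function.Injective (algebraMap (MvPolynomial (Fin N) L) (MvPolynomial (Fin N) Ω)) :=
    map_injective _ (algebraMap L Ω).injective
  obtain ⟨P', -, hP', hcomap⟩ := Ideal.exists_ideal_over_prime_of_isIntegral (S := (MvPolynomial
      (Fin N) Ω)) P ⊥ (by
    intro x hx
    have h1 : algebraMap (MvPolynomial (Fin N) L) (MvPolynomial (Fin N) Ω) x = 0 := hx
    rw [map_eq_zero_iff _ hinj] at h1
    rw [h1]
    exact P.zero_mem)
  refine ⟨P', ?_, hcomap⟩
  rw [← isSub_ext_iff hP', hcomap]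
  exact hP

lemma mult_over_ne_zero {P' : Ideal (MvPolynomial (Fin N) Ω)} (hP' : P'.IsPrime) :
    mult ((P'.comap (algebraMap (MvPolynomial (Fin N) L) (MvPolynomial (Fin N) Ω))).map (algebraMap
        (MvPolynomial (Fin N) L) (MvPolynomial (Fin N) Ω))) P' ≠ 0 :=
  mult_ne_zero (over_minimal ⟨hP', rfl⟩)

/-- Pull back of intersection cycles. -/
lemma idiv_pull {t : ℕ} {l : (MvPolynomial (Fin N) L)} {Q' : Ideal (MvPolynomial (Fin N) Ω)}
    (hQ : Q' = (Q'.comap (algebraMap (MvPolynomial (Fin N) L) (MvPolynomial (Fin N) Ω))).map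
        (algebraMap (MvPolynomial (Fin N) L) (MvPolynomial (Fin N) Ω))) (g : (MvPolynomial (Fin N)
            L))
    {P' : Ideal (MvPolynomial (Fin N) Ω)} (hP' : IsSub t (algebraMap (MvPolynomial (Fin N) L)
        (MvPolynomial (Fin N) Ω) l) P') :
    idiv t (algebraMap (MvPolynomial (Fin N) L) (MvPolynomial (Fin N) Ω) l) Q' (algebraMap
        (MvPolynomial (Fin N) L) (MvPolynomial (Fin N) Ω) g) P' =
      idiv t l (Q'.comap (algebraMap (MvPolynomial (Fin N) L) (MvPolynomial (Fin N) Ω))) g
          (P'.comap (algebraMap (MvPolynomial (Fin N) L) (MvPolynomial (Fin N) Ω))) *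
        (mult ((P'.comap (algebraMap (MvPolynomial (Fin N) L) (MvPolynomial (Fin N) Ω))).map
            (algebraMap (MvPolynomial (Fin N) L) (MvPolynomial (Fin N) Ω))) P' : ℚ) := by
  rw [idiv_of hP', idiv_of ((isSub_ext_iff hP'.prime).2 hP')]
  have h1 := mult_map_flat (S := (MvPolynomial (Fin N) L)) hP'.prime (Q'.comap (algebraMap
      (MvPolynomial (Fin N) L) (MvPolynomial (Fin N) Ω)) ⊔ Ideal.span {g})
  rw [Ideal.map_sup, ← hQ, Ideal.map_span, Set.image_singleton] at h1
  rw [h1]
  push_cast
  rfl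

end pull

section galois

variable {K Ω : Type u} [Field K] [Field Ω] [Algebra K Ω] [CharZero K]

lemma exists_galois [Algebra.IsAlgebraic K Ω] [IsAlgClosed Ω] (C : Finset Ω) :
    ∃ L : IntermediateField K Ω, FiniteDimensional K L ∧ IsGalois K L ∧ ∀ c ∈ C, c ∈ L := by
  have hclo : IsAlgClosure K Ω := ⟨inferInstance, inferInstance⟩
  have hnormal : Normal K Ω := IsAlgClosure.normal K Ω
  set E := IntermediateField.adjoin K (C : Set Ω) with hE
  have hfin : FiniteDimensional K E := IntermediateField.finiteDimensional_adjoin fun x _ =>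
    (Algebra.IsAlgebraic.isAlgebraic x).isIntegral
  refine ⟨IntermediateField.normalClosure K E Ω, inferInstance, ?_, ?_⟩
  · have h1 : Normal K (IntermediateField.normalClosure K E Ω) := inferInstance
    have h2 : Algebra.IsSeparable K (IntermediateField.normalClosure K E Ω) := inferInstance
    exact ⟨⟩
  · intro c hc
    exact E.le_normalClosure (IntermediateField.subset_adjoin K _ hc)

end galois

section desc

variable {K Ω : Type u} [Field K] [Field Ω] [Algebra K Ω] [CharZero K] [Algebra.IsAlgebraic K Ω]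
  [IsAlgClosed Ω] {N : ℕ}

/-- **Descent of rational equivalence from an algebraic closure.** -/
theorem pt_mem_of_closure {F l : MvPolynomial (Fin N) K} {t : ℕ}
    {P' : Ideal (MvPolynomial (Fin N) Ω)}
    (hP' : IsSub t (algebraMap (MvPolynomial (Fin N) K) (MvPolynomial (Fin N) Ω) l) P')
    (hmem : pt P' ∈ Rel (algebraMap (MvPolynomial (Fin N) K) (MvPolynomial (Fin N) Ω) F) t
      (algebraMap (MvPolynomial (Fin N) K) (MvPolynomial (Fin N) Ω) l)) :
    pt (P'.comap (algebraMap (MvPolynomial (Fin N) K) (MvPolynomial (Fin N) Ω))) ∈ Rel F t l := by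
  classical
  obtain ⟨n, a, g, hsum⟩ := Submodule.mem_span_set'.1 hmem
  choose Q G e hQ hFQ hG hGQ hg using fun i => (g i).2
  have hfg : ∀ i, ∃ T : Finset (MvPolynomial (Fin N) Ω), Ideal.span (T : Set _) = Q i := fun i =>
    (isNoetherianRing_iff_ideal_fg _).1 inferInstance (Q i)
  choose T hT using hfg
  obtain ⟨L, hLfin, hLgal, hLC⟩ := exists_galois (K := K) (Ω := Ω)
    (Finset.univ.biUnion fun i => (insert (G i) (T i)).biUnion coeffs)
  have hrange : ∀ i, ∀ f ∈ insert (G i) (T i), ∃ f' : MvPolynomial (Fin N) L,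
      algebraMap (MvPolynomial (Fin N) L) (MvPolynomial (Fin N) Ω) f' = f := by
    intro i f hf
    have h1 : f ∈ Set.range (map (algebraMap L Ω) : MvPolynomial (Fin N) L →+* _) := by
      rw [mem_range_map_iff_coeffs_subset]
      intro c hc
      refine ⟨⟨c, hLC c ?_⟩, rfl⟩
      rw [Finset.mem_biUnion]
      refine ⟨i, Finset.mem_univ _, ?_⟩
      rw [Finset.mem_biUnion]
      exact ⟨f, hf, Finset.mem_coe.1 hc⟩
    exact h1
  have hchar : CharZero L := charZero_of_injective_algebraMap (algebraMap K L).injective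
  have halg : Algebra.IsAlgebraic L Ω := Algebra.IsAlgebraic.tower_top (K := K) L
  set S' := MvPolynomial (Fin N) L with hS'
  set φ := algebraMap S' (MvPolynomial (Fin N) Ω) with hφ
  have hQL : ∀ i, Q i = ((Q i).comap φ).map φ := by
    intro i
    apply le_antisymm
    · conv_lhs => rw [← hT i]
      rw [Ideal.span_le]
      intro f hf
      obtain ⟨f', hf'⟩ := hrange i f (Finset.mem_insert_of_mem (Finset.mem_coe.1 hf))
      rw [← hf']
      refine Ideal.mem_map_of_mem _ ?_
      rw [Ideal.mem_comap, hf', ← hT i]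
      exact Ideal.subset_span hf
    · exact Ideal.map_comap_le
  have hGL : ∀ i, ∃ G' : S', φ G' = G i := fun i => hrange i _ (Finset.mem_insert_self _ _)
  choose G' hG' using hGL
  set FL : S' := algebraMap (MvPolynomial (Fin N) K) S' F with hFL
  set lL : S' := algebraMap (MvPolynomial (Fin N) K) S' l with hlL
  have hFL' : φ FL = algebraMap _ _ F := map_map_tower F
  have hlL' : φ lL = algebraMap _ _ l := map_map_tower l
  rw [← hlL'] at hP'
  set c' : Ideal S' → ℚ := ∑ i, a i • idiv t lL ((Q i).comap φ) (G' i) with hc'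
  have hc'mem : c' ∈ Rel FL t lL := by
    refine Submodule.sum_mem _ fun i _ => Submodule.smul_mem _ _ (Submodule.subset_span ?_)
    refine ⟨_, G' i, e i, ?_, ?_, ?_, ?_, rfl⟩
    · rw [isSub_ext_iff (hQ i).prime]
      rw [← hlL'] at hQ
      exact hQ i
    · rw [Ideal.mem_comap]
      change φ FL ∈ Q i
      rw [hFL']
      exact hFQ i
    · intro m hm
      apply hG i
      rw [← hG' i]
      change coeff m (map (algebraMap L Ω) (G' i)) ≠ 0
      rw [coeff_map]
      intro h3
      exact hm ((map_eq_zero_iff _ (algebraMap L Ω).injective).1 h3)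
    · intro h1
      apply hGQ i
      rw [← hG' i]
      exact h1
  have hval : ∀ P'' : Ideal (MvPolynomial (Fin N) Ω), IsSub t (φ lL) P'' →
      (pt P' : Ideal (MvPolynomial (Fin N) Ω) → ℚ) P'' =
        c' (P''.comap φ) * (mult ((P''.comap φ).map φ) P'' : ℚ) := by
    intro P'' hP''
    rw [← hsum, Finset.sum_apply, hc', Finset.sum_apply, Finset.sum_mul]
    refine Finset.sum_congr rfl fun i _ => ?_
    rw [Pi.smul_apply, Pi.smul_apply, hg i, ← hlL', ← hG' i, idiv_pull (hQL i) (G' i) hP'',
      smul_eq_mul, smul_eq_mul, mul_assoc]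
  have hzero : ∀ P₁ : Ideal S', ¬ IsSub t lL P₁ → c' P₁ = 0 := by
    intro P₁ h1
    rw [hc', Finset.sum_apply, Finset.sum_eq_zero]
    intro i _
    rw [Pi.smul_apply, idiv_of_not h1, smul_zero]
  set m : ℚ := (mult ((P'.comap φ).map φ) P' : ℚ) with hm
  have hm0 : m ≠ 0 := by
    rw [hm, Nat.cast_ne_zero]
    exact mult_over_ne_zero hP'.prime
  have hpt : pt (P'.comap φ) = m • c' := by
    funext P₁
    rw [Pi.smul_apply, smul_eq_mul]
    unfold pt
    by_cases h1 : P₁ = P'.comap φ
    · subst h1
      rw [Pi.single_eq_same]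
      have h2 := hval P' hP'
      unfold pt at h2
      rw [Pi.single_eq_same] at h2
      rw [h2, mul_comm]
    · rw [Pi.single_eq_of_ne h1]
      by_cases h2 : IsSub t lL P₁
      · obtain ⟨P'', hP'', hcomap⟩ := exists_over_isSub (Ω := Ω) h2
        have h3 := hval P'' hP''
        rw [hcomap] at h3
        unfold pt at h3
        have h4 : P'' ≠ P' := by
          rintro rfl
          exact h1 hcomap.symm
        rw [Pi.single_eq_of_ne h4] at h3
        have h5 : (mult ((P''.comap φ).map φ) P'' : ℚ) ≠ 0 := by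
          rw [Nat.cast_ne_zero]
          exact mult_over_ne_zero hP''.prime
        rw [hcomap] at h5
        rw [(mul_eq_zero.1 h3.symm).resolve_right h5, mul_zero]
      · rw [hzero P₁ h2, mul_zero]
  have h1 : pt (P'.comap φ) ∈ Rel FL t lL := by
    rw [hpt]
    exact Submodule.smul_mem _ _ hc'mem
  have h2 := (isQuot_gal (K := K) (L := L) (N := N)).pt_mem (F := F) (l := l) (t := t)
    (hP'.prime.comap φ) h1
  rw [hφ, comap_comap_tower] at h2
  exact h2

end desc

end Pool.Agent.W5h86.HD
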