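import Pool.Agent.H89.HL.L.W5h86_HD_Flat
import Pool.Agent.H89.HL.L.W5h86_HC_Comp

set_option autoImplicit false

/-!
# Algebraic extensions of the base field
-/

universe u v w x

namespace Pool.Agent.W5h86.HD

open Pool.Agent.W5h86.HC MvPolynomial

attribute [local instance] MvPolynomial.gradedAlgebra in
lemma isHomIdeal_of_minimal' {K : Type u} [Field K] {N : ℕ}
    {J Q : Ideal (MvPolynomial (Fin N) K)} (hJ : IsHomIdeal J) (hQ : Q ∈ J.minimalPrimes) :
    IsHomIdeal Q := by
  have hQp : Q.IsPrime := hQ.1.1
  have hJQ : J ≤ Q := hQ.1.2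
  have h1 : (Q.homogeneousCore (homogeneousSubmodule (Fin N) K)).toIdeal.IsPrime :=
    hQp.homogeneousCore
  have h2 : J ≤ (Q.homogeneousCore (homogeneousSubmodule (Fin N) K)).toIdeal := by
    intro f hf
    rw [← sum_homogeneousComponent f]
    refine Ideal.sum_mem _ fun i _ => ?_
    exact Ideal.mem_homogeneousCore_of_homogeneous_of_mem
      ⟨i, homogeneousComponent_isHomogeneous _ _⟩ (hJQ (hJ f hf i))
  have h3 : Q ≤ (Q.homogeneousCore (homogeneousSubmodule (Fin N) K)).toIdeal :=
    hQ.2 ⟨h1, h2⟩ (Ideal.toIdeal_homogeneousCore_le _ _)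
  intro f hf i
  exact Ideal.toIdeal_homogeneousCore_le _ _
    (homogeneousComponent_mem_of_mem (Q.homogeneousCore _).isHomogeneous (h3 hf) i)

/-- Transcendence degrees in integral extensions. -/
lemma trdeg_comap_integral {K R S : Type u} [Field K] [CommRing R] [CommRing S] [Algebra K R]
    [Algebra K S] [Algebra R S] [IsScalarTower K R S] [Algebra.IsIntegral R S] {P : Ideal S}
    (hP : P.IsPrime) :
    Algebra.trdeg K (R ⧸ P.comap (algebraMap R S)) = Algebra.trdeg K (S ⧸ P) := by
  set Q := P.comap (algebraMap R S) with hQ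
  have hlies : P.LiesOver Q := ⟨rfl⟩
  have hQp : Q.IsPrime := Ideal.comap_isPrime _ _
  have hst : IsScalarTower K (R ⧸ Q) (S ⧸ P) := by
    refine IsScalarTower.of_algebraMap_eq fun x => ?_
    change Ideal.Quotient.mk P (algebraMap K S x) =
      Ideal.Quotient.mk P (algebraMap R S (algebraMap K R x))
    rw [← IsScalarTower.algebraMap_apply]
  have halg : Algebra.IsAlgebraic (R ⧸ Q) (S ⧸ P) := inferInstance
  have h1 := trdeg_add_eq K (R ⧸ Q) (A := S ⧸ P)
  rw [← h1, trdeg_eq_zero (R := R ⧸ Q) (A := S ⧸ P), add_zero]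

section ext

attribute [local instance] MvPolynomial.algebraMvPolynomial

variable {K L : Type u} [Field K] [Field L] [Algebra K L] {N : ℕ}


lemma algebraMap_eq_map (f : (MvPolynomial (Fin N) K)) : algebraMap (MvPolynomial (Fin N) K)
    (MvPolynomial (Fin N) L) f = map (algebraMap K L) f := rfl

lemma homogeneousComponent_map (i : ℕ) (f : (MvPolynomial (Fin N) K)) :
    homogeneousComponent i (map (algebraMap K L) f) =
      map (algebraMap K L) (homogeneousComponent i f) := by
  ext m
  rw [coeff_homogeneousComponent, coeff_map, coeff_map, coeff_homogeneousComponent]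
  split_ifs
  · rfl
  · rw [map_zero]

lemma isHomIdeal_comap {P' : Ideal (MvPolynomial (Fin N) L)} (h : IsHomIdeal P') :
    IsHomIdeal (P'.comap (algebraMap (MvPolynomial (Fin N) K) (MvPolynomial (Fin N) L))) := by
  intro f hf i
  rw [Ideal.mem_comap, algebraMap_eq_map] at hf ⊢
  rw [← homogeneousComponent_map]
  exact h _ hf i

lemma isHomIdeal_map {P : Ideal (MvPolynomial (Fin N) K)} (h : IsHomIdeal P) : IsHomIdeal (P.map
    (algebraMap (MvPolynomial (Fin N) K) (MvPolynomial (Fin N) L))) := by
  intro f hf i
  induction hf using Submodule.span_induction generalizing i with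
  | mem x hx =>
    obtain ⟨y, hy, rfl⟩ := hx
    change homogeneousComponent i (map (algebraMap K L) y) ∈ _
    rw [homogeneousComponent_map]
    exact Ideal.mem_map_of_mem (algebraMap (MvPolynomial (Fin N) K) (MvPolynomial (Fin N) L)) (h y
        hy i)
  | zero =>
    rw [map_zero]
    exact Ideal.zero_mem _
  | add x y _ _ hx hy =>
    rw [map_add]
    exact Ideal.add_mem _ (hx i) (hy i)
  | smul a x _ hx =>
    rw [smul_eq_mul, ← sum_homogeneousComponent a, Finset.sum_mul, map_sum]
    refine Ideal.sum_mem _ fun j _ => ?_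
    rcases Nat.lt_or_ge i j with hij | hij
    · have h1 : homogeneousComponent i (homogeneousComponent j a * x) = 0 := by
        rw [← sum_homogeneousComponent x, Finset.mul_sum, map_sum, Finset.sum_eq_zero]
        intro k _
        rw [homogeneousComponent_of_mem ((homogeneousComponent_isHomogeneous j a).mul
          (homogeneousComponent_isHomogeneous k x)), if_neg (by omega)]
      rw [h1]
      exact Ideal.zero_mem _
    · obtain ⟨k, rfl⟩ := Nat.exists_eq_add_of_le hij
      rw [homogeneousComponent_mul_of_isHomogeneous (homogeneousComponent_isHomogeneous j a)]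
      exact Ideal.mul_mem_left _ _ (hx k)

lemma isHomIdeal_ext_iff [Algebra.IsAlgebraic K L] {P' : Ideal (MvPolynomial (Fin N) L)} (hP :
    P'.IsPrime) :
    IsHomIdeal (P'.comap (algebraMap (MvPolynomial (Fin N) K) (MvPolynomial (Fin N) L))) ↔
        IsHomIdeal P' := by
  have hint : Algebra.IsIntegral (MvPolynomial (Fin N) K) (MvPolynomial (Fin N) L) := inferInstance
  constructor
  · intro h
    exact isHomIdeal_of_minimal' (isHomIdeal_map h) (over_minimal (P := P'.comap (algebraMap
        (MvPolynomial (Fin N) K) (MvPolynomial (Fin N) L)))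
      ⟨hP, rfl⟩)
  · intro h
    exact isHomIdeal_comap (K := K) h

lemma trdeg_ext [Algebra.IsAlgebraic K L] {P' : Ideal (MvPolynomial (Fin N) L)} (hP : P'.IsPrime) :
    Algebra.trdeg K ((MvPolynomial (Fin N) K) ⧸ P'.comap (algebraMap (MvPolynomial (Fin N) K)
        (MvPolynomial (Fin N) L))) = Algebra.trdeg L ((MvPolynomial (Fin N) L) ⧸ P') := by
  have hst : IsScalarTower K (MvPolynomial (Fin N) K) (MvPolynomial (Fin N) L) := inferInstance
  have hint : Algebra.IsIntegral (MvPolynomial (Fin N) K) (MvPolynomial (Fin N) L) := inferInstance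
  rw [trdeg_comap_integral (K := K) hP]
  have h1 := trdeg_add_eq K L (A := (MvPolynomial (Fin N) L) ⧸ P')
  rw [← h1, trdeg_eq_zero (R := K) (A := L), zero_add]

lemma isSub_ext_iff [Algebra.IsAlgebraic K L] {P' : Ideal (MvPolynomial (Fin N) L)} (hP :
    P'.IsPrime) {t : ℕ} {l : (MvPolynomial (Fin N) K)} :
    IsSub t l (P'.comap (algebraMap (MvPolynomial (Fin N) K) (MvPolynomial (Fin N) L))) ↔ IsSub t
        (algebraMap (MvPolynomial (Fin N) K) (MvPolynomial (Fin N) L) l) P' := by
  constructor
  · intro h1
    exact ⟨hP, (isHomIdeal_ext_iff (K := K) hP).1 h1.hom, by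
      rw [← trdeg_ext (K := K) hP]
      exact h1.trdeg, h1.notMem⟩
  · intro h1
    exact ⟨hP.comap _, isHomIdeal_comap (K := K) h1.hom, by
      rw [trdeg_ext (K := K) hP]
      exact h1.trdeg, h1.notMem⟩

instance finite_ext [Module.Finite K L] : Module.Finite (MvPolynomial (Fin N) K) (MvPolynomial (Fin
    N) L) := by
  have h1 : Algebra.IsPushout K (MvPolynomial (Fin N) K) L (MvPolynomial (Fin N) L) := inferInstance
  have h2 : Module.Finite (MvPolynomial (Fin N) K) (TensorProduct K (MvPolynomial (Fin N) K) L) :=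
      inferInstance
  exact Module.Finite.of_surjective (h1.out.equiv).toLinearMap (h1.out.equiv).surjective

instance flat_ext : Module.Flat (MvPolynomial (Fin N) K) (MvPolynomial (Fin N) L) := by
  have h1 : Algebra.IsPushout K (MvPolynomial (Fin N) K) L (MvPolynomial (Fin N) L) := inferInstance
  exact Module.Flat.isBaseChange K (MvPolynomial (Fin N) K) L (MvPolynomial (Fin N) L) h1.out

/-- The Galois group acts on the polynomial ring. -/
noncomputable def galAct (K L : Type u) [Field K] [Field L] [Algebra K L] (N : ℕ) :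
    Gal(L/K) →* (MvPolynomial (Fin N) L ≃ₐ[MvPolynomial (Fin N) K] MvPolynomial (Fin N) L) where
  toFun σ := AlgEquiv.ofRingEquiv (f := MvPolynomial.mapEquiv (Fin N) (σ : L ≃+* L)) (by
    intro f
    change map (σ : L →+* L) (map (algebraMap K L) f) = map (algebraMap K L) f
    rw [map_map]
    have h1 : (σ : L →+* L).comp (algebraMap K L) = algebraMap K L :=
      RingHom.ext fun x => σ.commutes x
    rw [h1])
  map_one' := by
    ext f : 1
    change map _ f = f
    exact map_id f
  map_mul' σ τ := by
    ext f : 1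
    change map _ f = map _ (map _ f)
    rw [map_map]
    rfl

lemma galAct_apply (σ : Gal(L/K)) (f : (MvPolynomial (Fin N) L)) : galAct K L N σ f = map (σ : L
    →+* L) f := rfl

theorem isQuot_gal [Module.Finite K L] [IsGalois K L] : IsQuot (galAct K L N) where
  isHom P' hP := isHomIdeal_ext_iff hP
  trdeg P' hP := trdeg_ext hP
  inv r e hr h := by
    classical
    have h1 : ∀ m, coeff m r ∈ Set.range (algebraMap K L) := by
      intro m
      rw [IsGalois.mem_range_algebraMap_iff_fixed]
      intro σ
      have h2 := congrArg (coeff m) (h σ)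
      rw [galAct_apply, coeff_map] at h2
      exact h2
    have h2 : r ∈ Set.range (map (algebraMap K L) : (MvPolynomial (Fin N) K) →+* (MvPolynomial (Fin
        N) L)) := by
      rw [MvPolynomial.mem_range_map_iff_coeffs_subset]
      intro c hc
      rw [coeffs] at hc
      obtain ⟨m, -, rfl⟩ := Finset.mem_image.1 (Finset.mem_coe.1 hc)
      exact h1 m
    obtain ⟨s, rfl⟩ := h2
    refine ⟨s, e, ?_, rfl⟩
    intro m hm
    apply hr
    rw [coeff_map]
    intro h3
    exact hm ((map_eq_zero_iff _ (algebraMap K L).injective).1 h3)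
  hom σ f e hf := by
    rw [galAct_apply]
    exact hf.map _

end ext

end Pool.Agent.W5h86.HD
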