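import Pool.Agent.H89.HL.L.W5h86_HD_Rank
import Pool.Agent.H89.HL.L.W5h86_HC_Proj

set_option autoImplicit false

/-!
# Norms of cycles
-/

universe u v w x

namespace Pool.Agent.W5h86.HD

open Pool.Agent.W5h86.HC

section norm

variable {S : Type u} {R : Type v} [CommRing S] [CommRing R] [Algebra S R]

/-- The residue degree. -/
noncomputable def fdeg (S : Type u) {R : Type v} [CommRing S] [CommRing R] [Algebra S R]
    (P' : Ideal R) : ℕ :=
  (lenS R (P'.comap (algebraMap S R)) (R ⧸ P')).toNat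

lemma fdeg_ne_zero [Module.Finite S R] {P' : Ideal R} (h : P'.IsPrime) : fdeg S P' ≠ 0 := by
  unfold fdeg
  rw [Ne, ENat.toNat_eq_zero, not_or]
  exact ⟨lenS_ne_zero (h.comap _) le_rfl, lenS_over_ne_top (h.comap _) ⟨h, rfl⟩⟩

variable [IsNoetherianRing R] [Algebra.IsIntegral S R]

/-- The norm of a cycle. -/
noncomputable def Nm (S : Type u) {R : Type v} [CommRing S] [CommRing R] [Algebra S R]
    [IsNoetherianRing R] [Algebra.IsIntegral S R] : (Ideal R → ℚ) →ₗ[ℚ] (Ideal S → ℚ) where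
  toFun c P := ∑ P' ∈ (over_finite (R := R) P).toFinset, (fdeg S P' : ℚ) * c P'
  map_add' c c' := by
    funext P
    rw [Pi.add_apply, ← Finset.sum_add_distrib]
    refine Finset.sum_congr rfl fun P' _ => ?_
    rw [Pi.add_apply, mul_add]
  map_smul' q c := by
    funext P
    rw [Pi.smul_apply, smul_eq_mul, Finset.mul_sum]
    refine Finset.sum_congr rfl fun P' _ => ?_
    rw [Pi.smul_apply, smul_eq_mul]
    simp only [RingHom.id_apply]
    ring

lemma Nm_apply (c : Ideal R → ℚ) (P : Ideal S) :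
    Nm S c P = ∑ P' ∈ (over_finite (R := R) P).toFinset, (fdeg S P' : ℚ) * c P' := rfl

open scoped Classical in
lemma Nm_single {P' : Ideal R} (h : P'.IsPrime) :
    Nm S (Pi.single P' (1 : ℚ)) =
      (fdeg S P' : ℚ) • Pi.single (P'.comap (algebraMap S R)) (1 : ℚ) := by
  funext P
  rw [Nm_apply, Pi.smul_apply, smul_eq_mul]
  by_cases hP : P = P'.comap (algebraMap S R)
  · subst hP
    rw [Pi.single_eq_same, Finset.sum_eq_single P']
    · rw [Pi.single_eq_same]
    · intro P'' _ hne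
      rw [Pi.single_eq_of_ne hne, mul_zero]
    · intro h1
      rw [Set.Finite.mem_toFinset] at h1
      exact absurd ⟨h, rfl⟩ h1
  · rw [Pi.single_eq_of_ne hP, mul_zero, Finset.sum_eq_zero]
    intro P'' hP''
    rw [Set.Finite.mem_toFinset] at hP''
    have hne : P'' ≠ P' := by
      rintro rfl
      exact hP hP''.2.symm
    rw [Pi.single_eq_of_ne hne, mul_zero]

omit [IsNoetherianRing R] [Algebra.IsIntegral S R] in
lemma comap_comap_equiv (σ : R ≃ₐ[S] R) (P' : Ideal R) :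
    (P'.comap (σ : R →+* R)).comap (algebraMap S R) = P'.comap (algebraMap S R) := by
  ext s
  rw [Ideal.mem_comap, Ideal.mem_comap, Ideal.mem_comap]
  change σ (algebraMap S R s) ∈ P' ↔ _
  rw [AlgEquiv.commutes]

omit [IsNoetherianRing R] [Algebra.IsIntegral S R] in
lemma fdeg_comap (σ : R ≃ₐ[S] R) (P' : Ideal R) : fdeg S (P'.comap (σ : R →+* R)) = fdeg S P' := by
  unfold fdeg
  congr 1
  rw [lenS_eq, lenS_eq]
  have h1 : (P'.comap (σ : R →+* R)).comap (algebraMap S R) = P'.comap (algebraMap S R) := by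
    ext s
    rw [Ideal.mem_comap, Ideal.mem_comap, Ideal.mem_comap]
    change σ (algebraMap S R s) ∈ P' ↔ _
    rw [AlgEquiv.commutes]
  rw [h1]
  refine len_equiv (LinearEquiv.ofBijective
    (Ideal.quotientMapₐ P' (σ : R →ₐ[S] R) le_rfl).toLinearMap ⟨?_, ?_⟩)
  · exact Ideal.quotientMap_injective' (H := le_rfl) le_rfl
  · intro y
    obtain ⟨y, rfl⟩ := Ideal.Quotient.mk_surjective y
    refine ⟨Ideal.Quotient.mk _ (σ.symm y), ?_⟩
    change Ideal.Quotient.mk P' (σ (σ.symm y)) = _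
    rw [AlgEquiv.apply_symm_apply]

lemma Nm_comap (σ : R ≃ₐ[S] R) (c : Ideal R → ℚ) :
    Nm S (fun P' => c (P'.comap (σ : R →+* R))) = Nm S c := by
  funext P
  rw [Nm_apply, Nm_apply]
  have hinv : ∀ P' : Ideal R, (P'.comap (σ : R →+* R)).comap (σ.symm : R →+* R) = P' := by
    intro P'
    ext x
    rw [Ideal.mem_comap, Ideal.mem_comap]
    change σ (σ.symm x) ∈ P' ↔ _
    rw [AlgEquiv.apply_symm_apply]
  have hinv' : ∀ P' : Ideal R, (P'.comap (σ.symm : R →+* R)).comap (σ : R →+* R) = P' := by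
    intro P'
    ext x
    rw [Ideal.mem_comap, Ideal.mem_comap]
    change σ.symm (σ x) ∈ P' ↔ _
    rw [AlgEquiv.symm_apply_apply]
  refine Finset.sum_bij' (fun P' _ => P'.comap (σ : R →+* R))
    (fun P' _ => P'.comap (σ.symm : R →+* R)) ?_ ?_ ?_ ?_ ?_
  · intro P' hP'
    rw [Set.Finite.mem_toFinset] at hP' ⊢
    exact ⟨hP'.1.comap _, by rw [comap_comap_equiv, hP'.2]⟩
  · intro P' hP'
    rw [Set.Finite.mem_toFinset] at hP' ⊢
    exact ⟨hP'.1.comap _, by rw [comap_comap_equiv σ.symm, hP'.2]⟩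
  · intro P' _
    exact hinv P'
  · intro P' _
    exact hinv' P'
  · intro P' _
    rw [fdeg_comap]

end norm

section len

variable {R : Type v} [CommRing R]

lemma len_mul {Q P : Ideal R} (hQ : Q.IsPrime) {a b : R} (ha : a ∉ Q) :
    len P (R ⧸ (Q ⊔ Ideal.span {a * b})) =
      len P (R ⧸ (Q ⊔ Ideal.span {b})) + len P (R ⧸ (Q ⊔ Ideal.span {a})) := by
  have h1 := len_coker_comp (P := P) (LinearMap.lsmul R (R ⧸ Q) b) (LinearMap.lsmul R (R ⧸ Q) a)
    (by
      rw [injective_iff_map_eq_zero]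
      intro y hy
      obtain ⟨y, rfl⟩ := Ideal.Quotient.mk_surjective y
      rw [LinearMap.lsmul_apply, Algebra.smul_def] at hy
      change Ideal.Quotient.mk Q a * Ideal.Quotient.mk Q y = 0 at hy
      rw [← map_mul, Ideal.Quotient.eq_zero_iff_mem] at hy
      exact Ideal.Quotient.eq_zero_iff_mem.2 ((hQ.mem_or_mem hy).resolve_left ha))
  have h2 : LinearMap.lsmul R (R ⧸ Q) a ∘ₗ LinearMap.lsmul R (R ⧸ Q) b =
      LinearMap.lsmul R (R ⧸ Q) (a * b) := by
    refine LinearMap.ext fun x => ?_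
    rw [LinearMap.comp_apply, LinearMap.lsmul_apply, LinearMap.lsmul_apply,
      LinearMap.lsmul_apply, mul_smul]
  rw [h2, len_coker_mul, len_coker_mul, len_coker_mul] at h1
  exact h1

lemma len_ne_top_of_minimal [IsNoetherianRing R] {I P : Ideal R} (h : P ∈ I.minimalPrimes) :
    len P (R ⧸ I) ≠ ⊤ := by
  intro h1
  have h2 := mult_ne_zero h
  rw [mult_eq_len, h1] at h2
  exact h2 rfl

lemma len_quot_eq_zero {I P : Ideal R} (h : ¬ I ≤ P) : len P (R ⧸ I) = 0 := by
  obtain ⟨s, hs, hs'⟩ := Set.not_subset.1 h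
  refine len_eq_zero hs' fun x => ?_
  obtain ⟨x, rfl⟩ := Ideal.Quotient.mk_surjective x
  rw [Algebra.smul_def]
  change Ideal.Quotient.mk I s * _ = 0
  rw [Ideal.Quotient.eq_zero_iff_mem.2 hs, zero_mul]

end len

section sub

open MvPolynomial

variable {K : Type u} [Field K] {N : ℕ}

lemma len_ne_top_of_isSub {t : ℕ} {l l' : MvPolynomial (Fin N) K}
    {Q P : Ideal (MvPolynomial (Fin N) K)} (hQ : IsSub (t + 1) l' Q) (hP : IsSub t l P)
    {G : MvPolynomial (Fin N) K} (hG : G ∉ Q) :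
    len P (MvPolynomial (Fin N) K ⧸ (Q ⊔ Ideal.span {G})) ≠ ⊤ := by
  by_cases hle : Q ⊔ Ideal.span {G} ≤ P
  · exact len_ne_top_of_minimal (mem_minimalPrimes (K := K) hP.prime hQ.prime hP.trdeg hQ.trdeg
      le_sup_left hG (Ideal.mem_sup_right (Ideal.mem_span_singleton_self G)) hle)
  · rw [len_quot_eq_zero hle]
    exact ENat.zero_ne_top

lemma idiv_mul {t : ℕ} {l l' : MvPolynomial (Fin N) K} {Q : Ideal (MvPolynomial (Fin N) K)}
    (hQ : IsSub (t + 1) l' Q) {a b : MvPolynomial (Fin N) K} (ha : a ∉ Q) (hb : b ∉ Q) :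
    idiv t l Q (a * b) = idiv t l Q a + idiv t l Q b := by
  funext P
  rw [Pi.add_apply]
  by_cases hP : IsSub t l P
  · rw [idiv_of hP, idiv_of hP, idiv_of hP, mult_eq_len, mult_eq_len, mult_eq_len,
      len_mul hQ.prime ha, ENat.toNat_add (len_ne_top_of_isSub hQ hP hb)
        (len_ne_top_of_isSub hQ hP ha)]
    push_cast
    ring
  · rw [idiv_of_not hP, idiv_of_not hP, idiv_of_not hP, add_zero]

lemma idiv_one {t : ℕ} {l : MvPolynomial (Fin N) K} {Q : Ideal (MvPolynomial (Fin N) K)} :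
    idiv t l Q 1 = 0 := by
  funext P
  by_cases hP : IsSub t l P
  · rw [idiv_of hP, mult_eq_zero, Pi.zero_apply, Nat.cast_zero]
    intro h
    apply hP.prime.ne_top
    rw [Ideal.eq_top_iff_one]
    exact h (Ideal.mem_sup_right (Ideal.mem_span_singleton_self 1))
  · rw [idiv_of_not hP, Pi.zero_apply]

lemma idiv_prod {t : ℕ} {l l' : MvPolynomial (Fin N) K} {Q : Ideal (MvPolynomial (Fin N) K)}
    (hQ : IsSub (t + 1) l' Q) {ι : Type*} (T : Finset ι) (a : ι → MvPolynomial (Fin N) K)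
    (ha : ∀ i ∈ T, a i ∉ Q) : idiv t l Q (∏ i ∈ T, a i) = ∑ i ∈ T, idiv t l Q (a i) := by
  classical
  induction T using Finset.induction_on with
  | empty => rw [Finset.prod_empty, Finset.sum_empty, idiv_one]
  | insert i T hi ih =>
    rw [Finset.prod_insert hi, Finset.sum_insert hi, idiv_mul hQ (ha i (Finset.mem_insert_self _ _)),
      ih fun j hj => ha j (Finset.mem_insert_of_mem hj)]
    have hp := hQ.prime
    intro h
    obtain ⟨j, hj, hj'⟩ := (Ideal.IsPrime.prod_mem_iff).1 h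
    exact ha j (Finset.mem_insert_of_mem hj) hj'

end sub

end Pool.Agent.W5h86.HD
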