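import Pool.Agent.H89.HL.L.W5h86_HD_Quot

set_option autoImplicit false

/-!
# Cycles on quotients by finite groups: rational equivalence
-/

universe u v w x

namespace Pool.Agent.W5h86.HD

open Pool.Agent.W5h86.HC MvPolynomial

lemma idiv_congr {K : Type u} [Field K] {N : ℕ} {t : ℕ} {l : MvPolynomial (Fin N) K}
    {Q : Ideal (MvPolynomial (Fin N) K)} {a b : MvPolynomial (Fin N) K} (h : a - b ∈ Q) :
    idiv t l Q a = idiv t l Q b := by
  have h1 : Q ⊔ Ideal.span {a} = Q ⊔ Ideal.span {b} := by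
    apply le_antisymm
    · refine sup_le le_sup_left ?_
      rw [Ideal.span_singleton_le_iff_mem]
      have h2 : a = (a - b) + b := by ring
      rw [h2]
      exact Ideal.add_mem _ (Ideal.mem_sup_left h)
        (Ideal.mem_sup_right (Ideal.mem_span_singleton_self b))
    · refine sup_le le_sup_left ?_
      rw [Ideal.span_singleton_le_iff_mem]
      have h2 : b = a - (a - b) := by ring
      rw [h2]
      exact Ideal.sub_mem _ (Ideal.mem_sup_right (Ideal.mem_span_singleton_self a))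
        (Ideal.mem_sup_left h)
  unfold idiv
  rw [h1]

section

variable {K L : Type u} [Field K] [Field L] {N N' : ℕ}
  [Algebra (MvPolynomial (Fin N) K) (MvPolynomial (Fin N') L)]
  {G : Type w} [Group G]
  {ρ : G →* (MvPolynomial (Fin N') L ≃ₐ[MvPolynomial (Fin N) K] MvPolynomial (Fin N') L)}


lemma rho_sum [Fintype G] (τ : G) (x : (MvPolynomial (Fin N') L)) : ρ τ (∑ σ, ρ σ x) = ∑ σ, ρ σ x
    := by
  rw [map_sum]
  refine Fintype.sum_equiv (Equiv.mulLeft τ) _ _ fun σ => ?_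
  rw [Equiv.coe_mulLeft, map_mul]
  rfl

theorem IsQuot.Nm_idiv_mem [Finite G] [Module.Finite (MvPolynomial (Fin N) K) (MvPolynomial (Fin
    N') L)] [CharZero L] (h : IsQuot ρ) {t : ℕ}
    {l F : (MvPolynomial (Fin N) K)} {Q' : Ideal (MvPolynomial (Fin N') L)} {g : (MvPolynomial (Fin
        N') L)} {e : ℕ} (hQ : IsSub (t + 1) (algebraMap (MvPolynomial (Fin N) K) (MvPolynomial (Fin
            N') L) l) Q')
    (hF : algebraMap (MvPolynomial (Fin N) K) (MvPolynomial (Fin N') L) F ∈ Q') (hg : IsHomogeneous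
        g e) (hgQ : g ∉ Q') :
    Nm (MvPolynomial (Fin N) K) (idiv t (algebraMap (MvPolynomial (Fin N) K) (MvPolynomial (Fin N')
        L) l) Q' g) ∈ Rel F t l := by
  classical
  have := Fintype.ofFinite G
  have hQp := hQ.prime
  obtain ⟨w, ew, hw, hwQ, hwσ⟩ := h.exists_separating hQ.prime hQ.hom
  set H : Finset G := Finset.univ.filter fun σ => Q'.comap (ρ σ : (MvPolynomial (Fin N') L) →+*
      (MvPolynomial (Fin N') L)) = Q' with hH
  have hHmem : ∀ σ, σ ∈ H ↔ Q'.comap (ρ σ : (MvPolynomial (Fin N') L) →+* (MvPolynomial (Fin N')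
      L)) = Q' := fun σ => by
    rw [hH, Finset.mem_filter]
    exact and_iff_right (Finset.mem_univ _)
  have hH1 : (1 : G) ∈ H := by
    rw [hHmem, map_one]
    rfl
  have hHiff : ∀ σ ∈ H, ∀ x, ρ σ x ∈ Q' ↔ x ∈ Q' := by
    intro σ hσ x
    have h1 := (hHmem σ).1 hσ
    constructor
    · intro h2
      rw [← h1]
      exact h2
    · intro h2
      rw [← h1] at h2
      exact h2
  have hHmul : ∀ σ ∈ H, ∀ τ, σ * τ ∈ H ↔ τ ∈ H := by
    intro σ hσ τ
    rw [hHmem, hHmem]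
    have h1 : ∀ x, x ∈ Q'.comap (ρ (σ * τ) : (MvPolynomial (Fin N') L) →+* (MvPolynomial (Fin N')
        L)) ↔ x ∈ Q'.comap (ρ τ : (MvPolynomial (Fin N') L) →+* (MvPolynomial (Fin N') L)) := by
      intro x
      rw [Ideal.mem_comap, Ideal.mem_comap]
      change ρ (σ * τ) x ∈ Q' ↔ ρ τ x ∈ Q'
      rw [map_mul]
      exact hHiff σ hσ _
    have h2 : Q'.comap (ρ (σ * τ) : (MvPolynomial (Fin N') L) →+* (MvPolynomial (Fin N') L)) =
        Q'.comap (ρ τ : (MvPolynomial (Fin N') L) →+* (MvPolynomial (Fin N') L)) := Ideal.ext h1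
    rw [h2]
  have hdom : IsDomain ((MvPolynomial (Fin N') L) ⧸ Q') := Ideal.Quotient.isDomain Q'
  have hcz : CharZero ((MvPolynomial (Fin N') L) ⧸ Q') :=
    charZero_of_injective_algebraMap (algebraMap L ((MvPolynomial (Fin N') L) ⧸ Q')).injective
  obtain ⟨k, hk, hsum⟩ := exists_sum_pow_ne_zero H ⟨1, hH1⟩
    (fun σ => Ideal.Quotient.mk Q' (ρ σ w)) (by
      intro σ hσ h1
      rw [Ideal.Quotient.eq_zero_iff_mem, hHiff σ hσ] at h1
      exact hwQ h1)
  have hsum' : ∑ σ ∈ H, ρ σ (w ^ k) ∉ Q' := by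
    intro h1
    apply hsum
    rw [← Ideal.Quotient.eq_zero_iff_mem, map_sum] at h1
    rw [← h1]
    refine Finset.sum_congr rfl fun σ _ => ?_
    rw [map_pow, map_pow]
  have hout : ∀ σ, σ ∉ H → ρ σ (w ^ k) ∈ Q' := by
    intro σ hσ
    rw [hHmem] at hσ
    rw [map_pow]
    exact Ideal.pow_mem_of_mem _ (hwσ σ hσ) k (by omega)
  set g₂ : (MvPolynomial (Fin N') L) := ∏ σ ∈ H, ρ σ g with hg₂
  have hg₂H : ∀ σ ∈ H, ρ σ g₂ = g₂ := by
    intro σ hσ
    rw [hg₂, map_prod]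
    refine Finset.prod_bij (fun τ _ => σ * τ) ?_ ?_ ?_ ?_
    · intro τ hτ
      exact (hHmul σ hσ τ).2 hτ
    · intro τ _ τ' _ h1
      exact mul_left_cancel h1
    · intro τ hτ
      refine ⟨σ⁻¹ * τ, ?_, mul_inv_cancel_left _ _⟩
      rw [← hHmul σ hσ, mul_inv_cancel_left]
      exact hτ
    · intro τ _
      rw [map_mul]
      rfl
  have hgσ : ∀ σ ∈ H, ρ σ g ∉ Q' := fun σ hσ h1 => hgQ ((hHiff σ hσ g).1 h1)
  have hg₂Q : g₂ ∉ Q' := by
    intro h1
    obtain ⟨σ, hσ, h2⟩ := (Ideal.IsPrime.prod_mem_iff).1 h1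
    exact hgσ σ hσ h2
  have hg₂hom : IsHomogeneous g₂ (∑ _σ ∈ H, e) :=
    IsHomogeneous.prod H _ (fun _ => e) fun σ _ => h.hom σ g e hg
  have hwhom : IsHomogeneous (w ^ k) (ew * k) := hw.pow k
  set r₂ : (MvPolynomial (Fin N') L) := ∑ σ, ρ σ (w ^ k) with hr₂
  set r₁ : (MvPolynomial (Fin N') L) := ∑ σ, ρ σ (w ^ k * g₂) with hr₁
  have hr₂hom : IsHomogeneous r₂ (ew * k) :=
    IsHomogeneous.sum _ _ _ fun σ _ => h.hom σ _ _ hwhom
  have hr₁hom : IsHomogeneous r₁ (ew * k + ∑ _σ ∈ H, e) :=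
    IsHomogeneous.sum _ _ _ fun σ _ => h.hom σ _ _ (hwhom.mul hg₂hom)
  obtain ⟨s₂, e₂, hs₂, hsr₂⟩ := h.inv r₂ _ hr₂hom fun τ => rho_sum τ _
  obtain ⟨s₁, e₁, hs₁, hsr₁⟩ := h.inv r₁ _ hr₁hom fun τ => rho_sum τ _
  have hr₂Q : r₂ ∉ Q' := by
    intro h1
    apply hsum'
    have h2 : ∑ σ ∈ H, ρ σ (w ^ k) = r₂ - ∑ σ ∈ Finset.univ \ H, ρ σ (w ^ k) := by
      rw [hr₂, ← Finset.sum_sdiff (Finset.subset_univ H)]
      ring
    rw [h2]
    refine Ideal.sub_mem _ h1 (Ideal.sum_mem _ fun σ hσ => ?_)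
    exact hout σ (Finset.mem_sdiff.1 hσ).2
  have hr₁r₂ : r₁ - r₂ * g₂ ∈ Q' := by
    rw [hr₁, hr₂, Finset.sum_mul, ← Finset.sum_sub_distrib]
    refine Ideal.sum_mem _ fun σ _ => ?_
    rw [map_mul, ← mul_sub]
    by_cases hσ : σ ∈ H
    · rw [hg₂H σ hσ, sub_self, mul_zero]
      exact Q'.zero_mem
    · exact Ideal.mul_mem_right _ _ (hout σ hσ)
  have hr₁Q : r₁ ∉ Q' := by
    intro h1
    have h2 : r₂ * g₂ ∈ Q' := by
      have h3 : r₂ * g₂ = r₁ - (r₁ - r₂ * g₂) := by ring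
      rw [h3]
      exact Ideal.sub_mem _ h1 hr₁r₂
    exact (hQp.mem_or_mem h2).elim hr₂Q hg₂Q
  obtain ⟨e₀, he₀, hNm⟩ := Nm_idiv_map (l := l) (t := t) h hQ
  have hNm₁ := hNm s₁ (by
    rw [Ideal.mem_comap, hsr₁]
    exact hr₁Q)
  have hNm₂ := hNm s₂ (by
    rw [Ideal.mem_comap, hsr₂]
    exact hr₂Q)
  rw [hsr₁] at hNm₁
  rw [hsr₂] at hNm₂
  rw [idiv_congr hr₁r₂, idiv_mul hQ hr₂Q hg₂Q, idiv_prod hQ H _ hgσ, map_add, hNm₂, map_sum] at hNm₁
  have h5 : ∀ σ ∈ H, Nm (MvPolynomial (Fin N) K) (idiv t (algebraMap (MvPolynomial (Fin N) K)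
      (MvPolynomial (Fin N') L) l) Q' (ρ σ g)) =
      Nm (MvPolynomial (Fin N) K) (idiv t (algebraMap (MvPolynomial (Fin N) K) (MvPolynomial (Fin
          N') L) l) Q' g) := by
    intro σ hσ
    have h6 : idiv t (algebraMap (MvPolynomial (Fin N) K) (MvPolynomial (Fin N') L) l) Q' (ρ σ g) =
        fun P' =>
        idiv t (algebraMap (MvPolynomial (Fin N) K) (MvPolynomial (Fin N') L) l) Q' g (P'.comap (ρ
            σ : (MvPolynomial (Fin N') L) →+* (MvPolynomial (Fin N') L))) := by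
      funext P'
      exact h.idiv_comap σ ((hHmem σ).1 hσ) g P'
    rw [h6, Nm_comap]
  rw [Finset.sum_congr rfl h5, Finset.sum_const] at hNm₁
  have hQ2 := (h.isSub_iff hQ.prime).2 hQ
  have hmem : ∀ (s : (MvPolynomial (Fin N) K)) (e' : ℕ), IsHomogeneous s e' → s ∉ Q'.comap
      (algebraMap (MvPolynomial (Fin N) K) (MvPolynomial (Fin N') L)) →
      idiv t l (Q'.comap (algebraMap (MvPolynomial (Fin N) K) (MvPolynomial (Fin N') L))) s ∈ Rel F
          t l := fun s e' hs hsQ =>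
    Submodule.subset_span ⟨_, s, e', hQ2, hF, hs, hsQ, rfl⟩
  have h7 : (H.card : ℚ) • Nm (MvPolynomial (Fin N) K) (idiv t (algebraMap (MvPolynomial (Fin N) K)
      (MvPolynomial (Fin N') L) l) Q' g) =
      (e₀ : ℚ) • idiv t l (Q'.comap (algebraMap (MvPolynomial (Fin N) K) (MvPolynomial (Fin N')
          L))) s₁ -
        (e₀ : ℚ) • idiv t l (Q'.comap (algebraMap (MvPolynomial (Fin N) K) (MvPolynomial (Fin N')
            L))) s₂ := by
    rw [← hNm₁, add_sub_cancel_left, Nat.cast_smul_eq_nsmul]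
  have hcard : (H.card : ℚ) ≠ 0 := by
    rw [Nat.cast_ne_zero, Finset.card_ne_zero]
    exact ⟨1, hH1⟩
  have h8 : (H.card : ℚ) • Nm (MvPolynomial (Fin N) K) (idiv t (algebraMap (MvPolynomial (Fin N) K)
      (MvPolynomial (Fin N') L) l) Q' g) ∈ Rel F t l := by
    rw [h7]
    refine Submodule.sub_mem _ (Submodule.smul_mem _ _ (hmem s₁ e₁ hs₁ ?_))
      (Submodule.smul_mem _ _ (hmem s₂ e₂ hs₂ ?_))
    · rw [Ideal.mem_comap, hsr₁]
      exact hr₁Q
    · rw [Ideal.mem_comap, hsr₂]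
      exact hr₂Q
  have h9 := Submodule.smul_mem _ (H.card : ℚ)⁻¹ h8
  rw [smul_smul, inv_mul_cancel₀ hcard, one_smul] at h9
  exact h9

/-- **Descent of rational equivalence.** -/
theorem IsQuot.pt_mem [Finite G] [Module.Finite (MvPolynomial (Fin N) K) (MvPolynomial (Fin N') L)]
    [CharZero L] (h : IsQuot ρ) {t : ℕ}
    {l F : (MvPolynomial (Fin N) K)} {P' : Ideal (MvPolynomial (Fin N') L)} (hP' : P'.IsPrime)
    (hmem : pt P' ∈ Rel (algebraMap (MvPolynomial (Fin N) K) (MvPolynomial (Fin N') L) F) t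
        (algebraMap (MvPolynomial (Fin N) K) (MvPolynomial (Fin N') L) l)) :
    pt (P'.comap (algebraMap (MvPolynomial (Fin N) K) (MvPolynomial (Fin N') L))) ∈ Rel F t l := by
  classical
  have h1 : (Rel (algebraMap (MvPolynomial (Fin N) K) (MvPolynomial (Fin N') L) F) t (algebraMap
      (MvPolynomial (Fin N) K) (MvPolynomial (Fin N') L) l)).map (Nm (MvPolynomial (Fin N) K)) ≤
          Rel F t l := by
    unfold HC.Rel
    rw [Submodule.map_span, Submodule.span_le]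
    rintro _ ⟨_, ⟨Q, g, e, hQ, hFQ, hg, hgQ, rfl⟩, rfl⟩
    exact h.Nm_idiv_mem hQ hFQ hg hgQ
  have h2 := h1 (Submodule.mem_map_of_mem hmem)
  have h3 : Nm (MvPolynomial (Fin N) K) (pt P') = (fdeg (MvPolynomial (Fin N) K) P' : ℚ) • pt
      (P'.comap (algebraMap (MvPolynomial (Fin N) K) (MvPolynomial (Fin N') L))) := by
    have h4 := Nm_single (S := (MvPolynomial (Fin N) K)) hP'
    unfold pt
    convert h4 using 1
    all_goals congr!
  rw [h3] at h2
  have h5 : (fdeg (MvPolynomial (Fin N) K) P' : ℚ) ≠ 0 := by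
    rw [Nat.cast_ne_zero]
    exact fdeg_ne_zero hP'
  have h6 := Submodule.smul_mem _ (fdeg (MvPolynomial (Fin N) K) P' : ℚ)⁻¹ h2
  rw [smul_smul, inv_mul_cancel₀ h5, one_smul] at h6
  exact h6

end

end Pool.Agent.W5h86.HD
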