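import Pool.Agent.H89.HL.L.W5h94_CU_Step

set_option autoImplicit false

/-!
# The condition on the ranks of the fibres
-/

universe u

namespace Pool.Agent.W5h94.CU

open MvPolynomial Pool.Agent.W5h86.HC

/-- The conclusion about the fibre over the point `w`. -/
def Fibre {K L : Type u} [Field K] [Field L] [Algebra K L] (m e c δ : ℕ)
    (G : MvPolynomial (Fin (m + e + 1)) K) (w : ℕ → L) : Prop :=
  ∃ Q : MvPolynomial (Fin (m + 1)) L, lsub K (Wm m e w) G = X 0 * Q ∧ IsHomogeneous Q 2 ∧
    ∀ n, n + c + e ≤ m + 1 + δ → HasSec n Q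

/-- The fibres over the points of the projective space are quadrics; the corank over a point with
closure of codimension `γ` is at most `γ + c`. -/
def PC (m e c : ℕ) {K : Type u} [Field K] (G : MvPolynomial (Fin (m + e + 1)) K) : Prop :=
  ∀ (L : Type u) [Field L] [Algebra K L] (w : ℕ → L) (k0 : ℕ), k0 ≤ e → w k0 = 1 →
    ∀ (δ : ℕ) (T : Fin δ → ℕ), (∀ l, T l ≤ e) → AlgebraicIndependent K (fun l => w (T l)) →
      Fibre m e c δ G w

/-- The same for the points outside of the first coordinate hyperplane. -/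
def AC (m e c : ℕ) {K : Type u} [Field K] (G : MvPolynomial (Fin (m + e + 1)) K) : Prop :=
  ∀ (L : Type u) [Field L] [Algebra K L] (w : ℕ → L), w 0 = 1 →
    ∀ (δ : ℕ) (T : Fin δ → ℕ), (∀ l, T l ≤ e) → AlgebraicIndependent K (fun l => w (T l)) →
      Fibre m e c δ G w

lemma PC.ac {m e c : ℕ} {K : Type u} [Field K] {G : MvPolynomial (Fin (m + e + 1)) K}
    (h : PC m e c G) : AC m e c G :=
  fun L _ _ w hw δ T hT hTi => h L w 0 (Nat.zero_le _) hw δ T hT hTi

lemma lsub_lsub' {K κ L : Type u} [Field K] [Field κ] [Field L] [Algebra K κ] [Algebra κ L]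
    [Algebra K L] [IsScalarTower K κ L] {N N' N'' : ℕ} (A : Matrix (Fin N') (Fin N'') L)
    (B : Matrix (Fin N) (Fin N') κ) (f : MvPolynomial (Fin N) K) :
    lsub κ A (lsub K B f) = lsub K (B.map (algebraMap κ L) * A) f := by
  have h : ((lsub κ A).restrictScalars K).comp (lsub K B) =
      lsub K (B.map (algebraMap κ L) * A) := by
    apply MvPolynomial.algHom_ext
    intro i
    simp only [AlgHom.comp_apply, AlgHom.restrictScalars_apply, lsub_X, map_sum, map_mul, lsub_C,
      Matrix.mul_apply, Matrix.map_apply, Finset.sum_mul]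
    simp only [Finset.mul_sum]
    rw [Finset.sum_comm]
    refine Finset.sum_congr rfl fun j _ => Finset.sum_congr rfl fun k _ => ?_
    rw [mul_assoc]
  exact DFunLike.congr_fun h f

/-- The new point for a member of the pencil. -/
def wfib {L : Type u} [Field L] (θ : L) (w : ℕ → L) : ℕ → L
  | 0 => 1
  | 1 => θ
  | k + 2 => w (k + 1)

/-- The new point for a hyperplane section. -/
def wzin {L : Type u} [Field L] (w : ℕ → L) : ℕ → L
  | 0 => 0
  | k + 1 => w k

lemma Wm_apply {L : Type u} [Field L] (m e : ℕ) (w : ℕ → L) (i : Fin (m + e + 1))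
    (j : Fin (m + 1)) : Wm m e w i j = if i.val ≤ e then (if j = 0 then w i.val else 0)
    else (if j.val + e = i.val then 1 else 0) := rfl

lemma fibMat_mul_Wm {κ L : Type u} [Field κ] [Field L] [Algebra κ L] (m e : ℕ) (θ : κ) (w : ℕ → L)
    (hw : w 0 = 1) :
    (fibMat (N := m + e) θ).map (algebraMap κ L) * Wm m e w =
      Wm m (e + 1) (wfib (algebraMap κ L θ) w) := by
  ext i j
  rw [Matrix.mul_apply]
  simp only [Matrix.map_apply]
  rcases fin_cases_two i with h | h | ⟨i', h⟩
  · rw [h, Finset.sum_eq_single 0]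
    · simp [Wm, wfib, hw]
    · intro k _ hk
      simp [hk]
    · simp
  · rw [h, Finset.sum_eq_single 0]
    · have h9 : Wm m (e + 1) (wfib (algebraMap κ L θ) w) 1 j =
          if j = 0 then algebraMap κ L θ else 0 := by
        rw [Wm_apply]
        change (if (1 : ℕ) ≤ e + 1 then (if j = 0 then algebraMap κ L θ else 0) else _) = _
        exact if_pos (by omega)
      have h10 : Wm m e w 0 j = if j = 0 then 1 else 0 := by
        rw [Wm_apply, Fin.val_zero, if_pos (Nat.zero_le _), hw]
      have h11 := h9.symm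
      rw [fibMat_one, if_pos rfl, h10]
      refine Eq.trans ?_ h11
      split_ifs
      · rw [mul_one]
      · rw [mul_zero]
    · intro k _ hk
      simp [hk]
    · simp
  · rw [h, Finset.sum_eq_single i'.succ]
    · rw [fibMat_succ, if_pos rfl, map_one, one_mul]
      change (if i'.val + 1 ≤ e then (if j = 0 then w (i'.val + 1) else 0)
        else (if j.val + e = i'.val + 1 then (1 : L) else 0)) =
        (if i'.val + 1 + 1 ≤ e + 1 then (if j = 0 then w (i'.val + 1) else 0)
        else (if j.val + (e + 1) = i'.val + 1 + 1 then 1 else 0))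
      split_ifs <;> first | rfl | (exfalso; omega)
    · intro k _ hk
      simp [hk]
    · simp

lemma zin_mul_Wm {κ L : Type u} [Field κ] [Field L] [Algebra κ L] (m e : ℕ) (w : ℕ → L) :
    (zin (K := κ) (p := m + e + 1)).map (algebraMap κ L) * Wm m e w = Wm m (e + 1) (wzin w) := by
  ext i j
  rw [Matrix.mul_apply]
  simp only [Matrix.map_apply]
  rcases Fin.eq_zero_or_eq_succ i with h | ⟨i', h⟩
  · rw [h, Finset.sum_eq_zero]
    · simp [Wm, wzin]
    · intro k _
      simp [zin]
  · rw [h, Finset.sum_eq_single i']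
    · unfold zin
      rw [hyp_succ, if_pos rfl, map_one, one_mul]
      change (if i'.val ≤ e then (if j = 0 then w i'.val else 0)
        else (if j.val + e = i'.val then (1 : L) else 0)) =
        (if i'.val + 1 ≤ e + 1 then (if j = 0 then w i'.val else 0)
        else (if j.val + (e + 1) = i'.val + 1 then 1 else 0))
      split_ifs <;> first | rfl | (exfalso; omega)
    · intro k _ hk
      simp [zin, hk.symm]
    · simp

/-- The generic member of the pencil. -/
theorem AC.generic {m e c : ℕ} {K : Type u} [Field K] {G : MvPolynomial (Fin (m + (e + 1) + 1)) K}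
    (h : AC m (e + 1) c G) : AC m e c (lsub K (fibMat (N := m + e) (tt K)) G) := by
  intro L _ _ w hw δ T hT hTi
  let i1 : Algebra K L := ((algebraMap (Kt K) L).comp (algebraMap K (Kt K))).toAlgebra
  have i2 : IsScalarTower K (Kt K) L := IsScalarTower.of_algebraMap_eq fun x => rfl
  have hT0 : ∀ l, T l ≠ 0 := by
    intro l hl
    have h1 := hTi.transcendental l
    simp only [hl, hw] at h1
    exact h1 isAlgebraic_one
  have hx : AlgebraicIndependent K (fun _ : Unit => tt K) := by
    rw [algebraicIndependent_unique_type_iff]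
    exact transcendental_tt
  have hxy := AlgebraicIndependent.sumElim_comp hx hTi
  let f : Fin (δ + 1) → Fin δ ⊕ Unit := Fin.cons (Sum.inr ()) Sum.inl
  have hf : Function.Injective f := by
    intro a b
    refine Fin.cases ?_ (fun a => ?_) a <;> refine Fin.cases ?_ (fun b => ?_) b
    · simp
    · intro h3
      simp [f] at h3
    · intro h3
      simp [f] at h3
    · intro h3
      simp only [f, Fin.cons_succ, Sum.inl.injEq] at h3
      rw [h3]
  obtain ⟨Q, h1, h2, h3⟩ := h L (wfib (algebraMap (Kt K) L (tt K)) w) rfl (δ + 1)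
    (Fin.cons 1 fun l => T l + 1) (by
      intro l
      refine Fin.cases ?_ (fun l => ?_) l
      · simp
      · simpa using hT l) (by
      have h4 := hxy.comp f hf
      convert! h4 using 1
      funext l
      refine Fin.cases ?_ (fun l => ?_) l
      · rfl
      · simp only [Fin.cons_succ, Function.comp_apply, f, Sum.elim_inl]
        obtain ⟨k, hk⟩ : ∃ k, T l = k + 1 := ⟨T l - 1, by have := hT0 l; omega⟩
        rw [hk]
        rfl)
  refine ⟨Q, ?_, h2, fun n hn => h3 n (by omega)⟩
  rw [lsub_lsub', fibMat_mul_Wm m e _ w hw]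
  exact h1

/-- The closed members of the pencil. -/
theorem AC.closed {m e c : ℕ} {K : Type u} [Field K] {G : MvPolynomial (Fin (m + (e + 1) + 1)) K}
    (h : AC m (e + 1) c G) {κ : Type u} [Field κ] [Algebra K κ] (θ : κ) :
    AC m e (c + 1) (lsub K (fibMat (N := m + e) θ) G) := by
  intro L _ _ w hw δ T hT hTi
  let i1 : Algebra K L := ((algebraMap κ L).comp (algebraMap K κ)).toAlgebra
  have i2 : IsScalarTower K κ L := IsScalarTower.of_algebraMap_eq fun x => rfl
  have hT0 : ∀ l, T l ≠ 0 := by
    intro l hl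
    have h1 := hTi.transcendental l
    simp only [hl, hw] at h1
    exact h1 isAlgebraic_one
  obtain ⟨Q, h1, h2, h3⟩ := h L (wfib (algebraMap κ L θ) w) rfl δ
    (fun l => T l + 1) (fun l => by simpa using hT l) (by
      have h4 : AlgebraicIndependent K (fun l => w (T l)) :=
        hTi.restrictScalars (algebraMap K κ).injective
      convert! h4 using 1
      funext l
      obtain ⟨k, hk⟩ : ∃ k, T l = k + 1 := ⟨T l - 1, by have := hT0 l; omega⟩
      rw [hk]
      rfl)
  refine ⟨Q, ?_, h2, fun n hn => h3 n (by omega)⟩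
  rw [lsub_lsub', fibMat_mul_Wm m e _ w hw]
  exact h1

/-- Hyperplane sections. -/
theorem PC.hyperplane {m e c : ℕ} {K : Type u} [Field K]
    {G : MvPolynomial (Fin (m + (e + 1) + 1)) K} (h : PC m (e + 1) c G) :
    PC m e (c + 1) (lsub K (zin (K := K) (p := m + e + 1)) G) := by
  intro L _ _ w k0 hk0 hw δ T hT hTi
  obtain ⟨Q, h1, h2, h3⟩ := h L (wzin w) (k0 + 1) (by omega) hw δ
    (fun l => T l + 1) (fun l => by simpa using hT l) hTi
  refine ⟨Q, ?_, h2, fun n hn => h3 n (by omega)⟩
  have i2 : IsScalarTower K K L := IsScalarTower.of_algebraMap_eq fun x => rfl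
  rw [lsub_lsub', zin_mul_Wm m e w]
  exact h1

lemma Wm_zero_one {L : Type u} [Field L] (m : ℕ) (w : ℕ → L) (hw : w 0 = 1) : Wm m 0 w = 1 := by
  ext i j
  unfold Wm
  rw [Matrix.one_apply]
  by_cases h : i.val ≤ 0
  · have h1 : i = 0 := Fin.ext (by simpa using h)
    rw [if_pos h, h1, Fin.val_zero, hw]
    simp only [eq_comm]
  · rw [if_neg h]
    by_cases h1 : i = j
    · rw [if_pos h1, if_pos (by rw [h1, add_zero])]
    · rw [if_neg h1, if_neg (fun h2 => h1 (Fin.ext (by omega)))]

/-- The base. -/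
theorem AC.base {m c : ℕ} {K : Type u} [Field K] {G : MvPolynomial (Fin (m + 0 + 1)) K}
    (h : AC m 0 c G) : ∃ Q : MvPolynomial (Fin (m + 1)) K, G = X 0 * Q ∧ IsHomogeneous Q 2 ∧
      ∀ n, n + c ≤ m + 1 → HasSec n Q := by
  obtain ⟨Q, h1, h2, h3⟩ := h K (fun _ => 1) rfl 0 (fun l => l.elim0) (fun l => l.elim0)
    (by
      rw [algebraicIndependent_iff_injective_aeval]
      intro p q hpq
      obtain ⟨a, rfl⟩ := C_surjective (Fin 0) p
      obtain ⟨b, rfl⟩ := C_surjective (Fin 0) q
      rw [aeval_C, aeval_C] at hpq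
      have h4 : a = b := hpq
      rw [h4])
  refine ⟨Q, ?_, h2, fun n hn => h3 n (by omega)⟩
  rw [Wm_zero_one m _ rfl] at h1
  have h4 := lsub_one (K := K) (N := m + 1)
  rw [← h1]
  exact (DFunLike.congr_fun h4 G).symm

/-- Nonvanishing. -/
theorem AC.ne_zero : ∀ (e c m : ℕ) (K : Type u) [Field K]
    (G : MvPolynomial (Fin (m + e + 1)) K), AC m e c G → c ≤ m → G ≠ 0 := by
  intro e
  induction e with
  | zero =>
    intro c m K _ G h hc hG
    obtain ⟨Q, h1, -, h3⟩ := h.base
    have h4 := ne_zero_of_hasSec (n := 0) (h3 1 (by omega))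
    rw [hG] at h1
    exact mul_ne_zero (X_ne_zero _) h4 h1.symm
  | succ e ih =>
    intro c m K _ G h hc hG
    have h1 := ih c m (Kt K) _ h.generic hc
    rw [hG, map_zero] at h1
    exact h1 rfl

/-- Uniqueness of the component. -/
theorem AC.uniq : ∀ (e c m : ℕ) (K : Type u) [Field K]
    (G : MvPolynomial (Fin (m + e + 1)) K), AC m e c G → c + 2 ≤ m → Uniq G := by
  intro e
  induction e with
  | zero =>
    intro c m K _ G h hc P₁ P₂ h₁ h₂ hG₁ hG₂
    obtain ⟨Q, hQ, -, hsec⟩ := h.base
    have key : ∀ P : Ideal (MvPolynomial (Fin (m + 0 + 1)) K), IsSub (m + 0) (X 0) P → G ∈ P →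
        Q ∈ P := by
      intro P hP hGP
      rw [hQ] at hGP
      exact (hP.prime.mem_or_mem hGP).resolve_left hP.notMem
    exact component_unique (hsec 3 (by omega)) h₁ h₂ (key P₁ h₁ hG₁) (key P₂ h₂ hG₂)
  | succ e ih =>
    intro c m K _ G h hc
    refine uniq_step (ih c m (Kt K) _ h.generic hc) fun π _ => ?_
    exact AC.ne_zero e (c + 1) m _ _ (h.closed _) (by omega)

end Pool.Agent.W5h94.CU
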