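import Pool.Agent.H89.HL.L.W5h94_CU_Defs

set_option autoImplicit false

/-!
# Isotropic coordinates for a smooth quadric with a given linear form
-/

universe u

namespace Pool.Agent.W5h94.CU

open MvPolynomial Pool.Agent.W5h86.HC

section gram

variable {K : Type u} [Field K] {n : ℕ}

/-- The matrix of the polar form of a quadratic form. -/
noncomputable def gramM (F : MvPolynomial (Fin n) K) : Matrix (Fin n) (Fin n) K :=
  fun i j => coeff 0 (pderiv j (pderiv i F))

lemma gramM_symm (F : MvPolynomial (Fin n) K) (i j : Fin n) : gramM F i j = gramM F j i := by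
  unfold gramM
  rw [coeff_pderiv, coeff_pderiv, coeff_pderiv, coeff_pderiv, zero_add, zero_add]
  by_cases h : i = j
  · rw [h]
  · rw [Finsupp.single_eq_of_ne (a := j) (a' := i) h,
      Finsupp.single_eq_of_ne (a := i) (a' := j) (fun h' => h h'.symm), add_comm]
    simp only [Finsupp.coe_zero, Pi.zero_apply]

lemma eval_pderiv {F : MvPolynomial (Fin n) K} (hF : IsHomogeneous F 2) (x : Fin n → K)
    (i : Fin n) : eval x (pderiv i F) = ∑ j, gramM F i j * x j := by
  have h1 : IsHomogeneous (pderiv i F) 1 := isHomogeneous_pderiv hF i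
  have h2 := h1.sum_X_mul_pderiv
  rw [one_smul] at h2
  rw [← h2, map_sum]
  refine Finset.sum_congr rfl fun j _ => ?_
  have h3 : IsHomogeneous (pderiv j (pderiv i F)) 0 := isHomogeneous_pderiv h1 j
  rw [← totalDegree_zero_iff_isHomogeneous, totalDegree_eq_zero_iff_eq_C] at h3
  rw [map_mul, eval_X, mul_comm]
  congr 1
  rw [h3, eval_C]
  unfold gramM
  rfl

lemma two_mul_eval {F : MvPolynomial (Fin n) K} (hF : IsHomogeneous F 2) (x : Fin n → K) :
    2 * eval x F = ∑ i, ∑ j, x i * gramM F i j * x j := by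
  have h2 := hF.sum_X_mul_pderiv
  have h3 := congrArg (eval x) h2
  rw [map_sum, nsmul_eq_mul, map_mul, map_natCast, Nat.cast_ofNat] at h3
  rw [← h3]
  refine Finset.sum_congr rfl fun i _ => ?_
  rw [map_mul, eval_X, eval_pderiv hF, Finset.mul_sum]
  refine Finset.sum_congr rfl fun j _ => ?_
  ring

/-- The expansion of a quadratic form. -/
lemma eval_add_smul [CharZero K] {F : MvPolynomial (Fin n) K} (hF : IsHomogeneous F 2)
    (x p : Fin n → K) (t : K) :
    eval (fun i => x i + t * p i) F =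
      eval x F + t * (∑ j, (∑ i, gramM F j i * p i) * x j) + t ^ 2 * eval p F := by
  have h2 : (2 : K) ≠ 0 := two_ne_zero
  apply mul_left_cancel₀ h2
  have e1 : 2 * (eval x F + t * (∑ j, (∑ i, gramM F j i * p i) * x j) + t ^ 2 * eval p F) =
      2 * eval x F + 2 * t * (∑ j, (∑ i, gramM F j i * p i) * x j) +
        t ^ 2 * (2 * eval p F) := by ring
  rw [e1, two_mul_eval hF, two_mul_eval hF, two_mul_eval hF]
  have e2 : ∑ j, (∑ i, gramM F j i * p i) * x j = ∑ i, ∑ j, x i * gramM F i j * p j := by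
    refine Finset.sum_congr rfl fun i _ => ?_
    rw [Finset.sum_mul]
    refine Finset.sum_congr rfl fun j _ => ?_
    ring
  have e3 : ∑ i, ∑ j, x i * gramM F i j * p j = ∑ i, ∑ j, p i * gramM F i j * x j := by
    rw [Finset.sum_comm]
    refine Finset.sum_congr rfl fun i _ => Finset.sum_congr rfl fun j _ => ?_
    rw [gramM_symm F j i]
    ring
  have e4 : 2 * t * (∑ i, ∑ j, x i * gramM F i j * p j) =
      t * (∑ i, ∑ j, x i * gramM F i j * p j) + t * (∑ i, ∑ j, p i * gramM F i j * x j) := by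
    rw [← e3]
    ring
  rw [e2, e4]
  simp only [Finset.mul_sum, ← Finset.sum_add_distrib]
  refine Finset.sum_congr rfl fun i _ => Finset.sum_congr rfl fun j _ => ?_
  ring

lemma gram_ne_zero [CharZero K] {F : MvPolynomial (Fin n) K} (hF : IsHomogeneous F 2)
    (hs : Smooth F) {x : Fin n → K} (hx : x ≠ 0) : (gramM F).mulVec x ≠ 0 := by
  intro h
  have h1 : ∀ i, ∑ j, gramM F i j * x j = 0 := fun i => congrFun h i
  have h2 : eval x F = 0 := by
    have h3 := two_mul_eval hF x
    have h4 : ∑ i, ∑ j, x i * gramM F i j * x j = 0 := by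
      refine Finset.sum_eq_zero fun i _ => ?_
      have h5 : ∑ j, x i * gramM F i j * x j = x i * ∑ j, gramM F i j * x j := by
        rw [Finset.mul_sum]
        refine Finset.sum_congr rfl fun j _ => ?_
        ring
      rw [h5, h1, mul_zero]
    rw [h4] at h3
    exact (mul_eq_zero.1 h3).resolve_left two_ne_zero
  obtain ⟨i, hi⟩ := hs K x hx (by rw [aeval_eq_eval]; exact h2)
  rw [aeval_eq_eval] at hi
  exact hi ((eval_pderiv hF x i).trans (h1 i))

/-- An isotropic vector in a plane. -/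
lemma exists_isotropic [CharZero K] [IsAlgClosed K] {F : MvPolynomial (Fin n) K}
    (hF : IsHomogeneous F 2) {u v : Fin n → K} (huv : LinearIndependent K ![u, v]) :
    ∃ c d : K, c • u + d • v ≠ 0 ∧ eval (c • u + d • v) F = 0 := by
  rw [LinearIndependent.pair_iff] at huv
  by_cases h : eval v F = 0
  · refine ⟨0, 1, ?_, ?_⟩
    · intro h1
      exact one_ne_zero (huv 0 1 h1).2
    · rw [zero_smul, zero_add, one_smul]
      exact h
  · obtain ⟨s, hs⟩ := IsAlgClosed.exists_eq_mul_self
      (discrim (eval v F) (∑ j, (∑ i, gramM F j i * v i) * u j) (eval u F))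
    obtain ⟨d, hd⟩ := exists_quadratic_eq_zero h ⟨s, hs⟩
    refine ⟨1, d, ?_, ?_⟩
    · intro h1
      exact one_ne_zero (huv 1 d h1).1
    · have e1 : (1 : K) • u + d • v = fun i => u i + d * v i := by
        funext i
        simp
      rw [e1, eval_add_smul hF]
      linear_combination hd

end gram

section coord

variable {K : Type u} [Field K]

/-- Extending a linearly independent family. -/
lemma exists_extend {V : Type u} [AddCommGroup V] [Module K V] [FiniteDimensional K V] {k : ℕ}
    (v : Fin k → V) (hv : LinearIndependent K v) (m : ℕ) (hm : k + m ≤ Module.finrank K V) :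
    ∃ w : Fin (k + m) → V, LinearIndependent K w ∧ ∀ i, w (Fin.castAdd m i) = v i := by
  induction m with
  | zero => exact ⟨v, hv, fun i => rfl⟩
  | succ m ih =>
    obtain ⟨w, hw, hwv⟩ := ih (by omega)
    obtain ⟨x, hx⟩ := exists_linearIndependent_snoc_of_lt_finrank hw (by omega)
    refine ⟨Fin.snoc (α := fun _ => V) w x, hx, fun i => ?_⟩
    rw [← hwv]
    have h1 : (Fin.castAdd (m + 1) i : Fin (k + (m + 1))) = Fin.castSucc (Fin.castAdd m i) := rfl
    rw [h1, Fin.snoc_castSucc]

lemma finrank_ann {n : ℕ} (f : (Fin (n + 1) → K) →ₗ[K] K) : n ≤ Module.finrank K (LinearMap.ker f) := by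
  have h1 := LinearMap.finrank_range_add_finrank_ker f
  have h2 : Module.finrank K (LinearMap.range f) ≤ 1 := by
    have h3 := Submodule.finrank_le (LinearMap.range f)
    simpa using h3
  rw [Module.finrank_fin_fun] at h1
  omega

/-- Coordinates with given first two forms which vanish at a point, and such that this point
is the last basis vector. -/
lemma exists_coord_point {M : ℕ} {p a b : Fin (M + 2) → K} (hp : p ≠ 0)
    (hab : LinearIndependent K ![a, b]) (ha : a ⬝ᵥ p = 0) (hb : b ⬝ᵥ p = 0) (hM : 1 ≤ M) :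
    ∃ g g' : Matrix (Fin (M + 2)) (Fin (M + 2)) K, g * g' = 1 ∧ g' * g = 1 ∧ g' 0 = a ∧
      g' 1 = b ∧ ∀ i, g i (Fin.last (M + 1)) = p i := by
  obtain ⟨f, hf⟩ : ∃ f : (Fin (M + 2) → K) →ₗ[K] K, ∀ v, f v = v ⬝ᵥ p :=
    ⟨{ toFun := fun v => v ⬝ᵥ p
       map_add' := fun a b => add_dotProduct a b p
       map_smul' := fun c a => smul_dotProduct c a p }, fun v => rfl⟩
  have hfin : M + 1 ≤ Module.finrank K (LinearMap.ker f) := finrank_ann f
  let a' : LinearMap.ker f := ⟨a, by rw [LinearMap.mem_ker, hf]; exact ha⟩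
  let b' : LinearMap.ker f := ⟨b, by rw [LinearMap.mem_ker, hf]; exact hb⟩
  have hab' : LinearIndependent K ![a', b'] := by
    apply LinearIndependent.of_comp (LinearMap.ker f).subtype
    have e : (LinearMap.ker f).subtype ∘ ![a', b'] = ![a, b] := by
      funext i
      fin_cases i <;> rfl
    rw [e]
    exact hab
  obtain ⟨m, rfl⟩ : ∃ m, M = m + 1 := ⟨M - 1, by omega⟩
  obtain ⟨w, hw, hwv⟩ := exists_extend ![a', b'] hab' m (by omega)
  -- the family of the first rows
  have hw' : LinearIndependent K fun i => (w i : Fin (m + 1 + 2) → K) :=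
    hw.map' (LinearMap.ker f).subtype (Submodule.ker_subtype _)
  obtain ⟨k, hk⟩ := Function.ne_iff.1 hp
  have hpk : p k ≠ 0 := hk
  let e : Fin (m + 1 + 2) → K := Pi.single k (p k)⁻¹
  have he : e ⬝ᵥ p = 1 := by
    simp only [e, single_dotProduct]
    exact inv_mul_cancel₀ hpk
  let W : Fin (m + 1 + 2) → Fin (m + 1 + 2) → K := fun i =>
    Fin.snoc (α := fun _ => Fin (m + 1 + 2) → K) (n := m + 2)
      (fun i => (w (Fin.cast (by omega) i) : Fin (m + 1 + 2) → K)) e i
  have hW : LinearIndependent K W := by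
    refine linearIndependent_finSnoc.2 ⟨?_, ?_⟩
    · exact hw'.comp _ (Fin.cast_injective _)
    · intro h
      have h1 : Submodule.span K (Set.range fun i : Fin (m + 2) =>
          (w (Fin.cast (by omega) i) : Fin (m + 1 + 2) → K)) ≤ LinearMap.ker f := by
        rw [Submodule.span_le]
        rintro _ ⟨i, rfl⟩
        exact (w _).2
      have h2 := h1 h
      rw [LinearMap.mem_ker, hf, he] at h2
      exact one_ne_zero h2
  have h1 : IsUnit (Matrix.of W) := Matrix.linearIndependent_rows_iff_isUnit.1 hW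
  obtain ⟨g', hg'⟩ := h1
  have hrow : ∀ i, (g' : Matrix (Fin (m + 1 + 2)) (Fin (m + 1 + 2)) K) i = W i := by
    intro i
    rw [hg']
    rfl
  have hw0 : (w (Fin.castAdd m 0) : Fin (m + 1 + 2) → K) = a := by
    rw [hwv]
    rfl
  have hw1 : (w (Fin.castAdd m 1) : Fin (m + 1 + 2) → K) = b := by
    rw [hwv]
    rfl
  have hgp : (g' : Matrix (Fin (m + 1 + 2)) (Fin (m + 1 + 2)) K).mulVec p =
      Pi.single (Fin.last (m + 1 + 1)) 1 := by
    funext i
    have e0 : (g' : Matrix (Fin (m + 1 + 2)) (Fin (m + 1 + 2)) K).mulVec p i = W i ⬝ᵥ p := by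
      rw [← hrow]
      rfl
    rw [e0]
    refine Fin.lastCases ?_ (fun i => ?_) i
    · rw [Pi.single_eq_same]
      have e1 : W (Fin.last (m + 1 + 1)) = e := by
        simp only [W]
        exact Fin.snoc_last (α := fun _ => Fin (m + 1 + 2) → K) _ _
      rw [e1, he]
    · rw [Pi.single_eq_of_ne (Fin.castSucc_lt_last i).ne]
      have e1 : W (Fin.castSucc i) = (w (Fin.cast (by omega) i) : Fin (m + 1 + 2) → K) := by
        simp only [W]
        exact Fin.snoc_castSucc (α := fun _ => Fin (m + 1 + 2) → K) _ _ _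
      rw [e1, ← hf]
      exact (w _).2
  refine ⟨(g'⁻¹ : (Matrix (Fin (m + 1 + 2)) (Fin (m + 1 + 2)) K)ˣ),
    (g' : Matrix (Fin (m + 1 + 2)) (Fin (m + 1 + 2)) K), g'.inv_mul, g'.mul_inv, ?_, ?_, ?_⟩
  · rw [hrow, ← hw0]
    have e1 : (0 : Fin (m + 1 + 2)) = Fin.castSucc (0 : Fin (m + 2)) := rfl
    rw [e1]
    exact Fin.snoc_castSucc (α := fun _ => Fin (m + 1 + 2) → K) _ _ _
  · rw [hrow, ← hw1]
    have e1 : (1 : Fin (m + 1 + 2)) = Fin.castSucc (1 : Fin (m + 2)) := rfl
    rw [e1]
    have e2 := Fin.snoc_castSucc (α := fun _ => Fin (m + 1 + 2) → K) (n := m + 2) e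
      (fun i => (w (Fin.cast (by omega) i) : Fin (m + 1 + 2) → K)) 1
    exact e2
  · intro i
    have e1 : ((g'⁻¹ : (Matrix (Fin (m + 1 + 2)) (Fin (m + 1 + 2)) K)ˣ) :
        Matrix (Fin (m + 1 + 2)) (Fin (m + 1 + 2)) K).mulVec
        ((g' : Matrix (Fin (m + 1 + 2)) (Fin (m + 1 + 2)) K).mulVec p) = p := by
      rw [Matrix.mulVec_mulVec, g'.inv_mul, Matrix.one_mulVec]
    rw [hgp] at e1
    have e2 := congrFun e1 i
    rw [← e2]
    simp [Matrix.mulVec, dotProduct_single]

end coord

/-- Isotropic coordinates. -/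
theorem exists_iso_coord {K : Type u} [Field K] [CharZero K] [IsAlgClosed K] {M : ℕ} (hM : 3 ≤ M)
    {F : MvPolynomial (Fin (M + 2)) K} (hF : IsHomogeneous F 2) (hs : Smooth F)
    {r : Fin (M + 2) → K} (hr : r ≠ 0) :
    ∃ (g g' : Matrix (Fin (M + 2)) (Fin (M + 2)) K) (H : MvPolynomial (Fin (M + 1)) K),
      g * g' = 1 ∧ g' * g = 1 ∧ g' 0 = r ∧ IsHomogeneous H 2 ∧
      lsub K g F = rename Fin.castSucc H + X 1 * X (Fin.last (M + 1)) := by
  -- the polar form is nondegenerate
  have hinj : Function.Injective (gramM F).mulVec := by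
    intro x y hxy
    by_contra hne
    apply gram_ne_zero hF hs (sub_ne_zero.2 hne)
    rw [Matrix.mulVec_sub, hxy, sub_self]
  have hunit : IsUnit (gramM F) := Matrix.mulVec_injective_iff_isUnit.1 hinj
  obtain ⟨s, hs'⟩ : ∃ s, (gramM F).mulVec s = r :=
    (Matrix.mulVec_surjective_iff_isUnit.2 hunit) r
  have hs0 : s ≠ 0 := by
    intro h
    rw [h, Matrix.mulVec_zero] at hs'
    exact hr hs'.symm
  obtain ⟨k, hk⟩ := Function.ne_iff.1 hs0
  have hsk : s k ≠ 0 := hk
  -- the subspace `r = 0`, `x k = 0`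
  obtain ⟨f, hf⟩ : ∃ f : (Fin (M + 2) → K) →ₗ[K] (K × K), ∀ v, f v = (r ⬝ᵥ v, v k) :=
    ⟨{ toFun := fun v => (r ⬝ᵥ v, v k)
       map_add' := fun a b => by rw [dotProduct_add, Pi.add_apply, Prod.mk_add_mk]
       map_smul' := fun c a => by
        rw [dotProduct_smul, Pi.smul_apply, RingHom.id_apply, Prod.smul_mk] }, fun v => rfl⟩
  have hfin : 2 ≤ Module.finrank K (LinearMap.ker f) := by
    have h1 := LinearMap.finrank_range_add_finrank_ker f
    have h2 : Module.finrank K (LinearMap.range f) ≤ 2 := by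
      have h3 := Submodule.finrank_le (LinearMap.range f)
      rw [Module.finrank_prod, Module.finrank_self] at h3
      exact h3
    rw [Module.finrank_fin_fun] at h1
    omega
  obtain ⟨w, hw, -⟩ := exists_extend (K := K) (V := LinearMap.ker f) (k := 0) Fin.elim0
    linearIndependent_empty_type 2 (by omega)
  have huv : LinearIndependent K
      ![(w (Fin.cast (by omega) (0 : Fin 2)) : Fin (M + 2) → K),
        (w (Fin.cast (by omega) (1 : Fin 2)) : Fin (M + 2) → K)] := by
    have h1 := hw.map' (LinearMap.ker f).subtype (Submodule.ker_subtype _)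
    have h2 := h1.comp (Fin.cast (by omega) : Fin 2 → Fin (0 + 2)) (Fin.cast_injective _)
    have e : ![(w (Fin.cast (by omega) (0 : Fin 2)) : Fin (M + 2) → K),
        (w (Fin.cast (by omega) (1 : Fin 2)) : Fin (M + 2) → K)] =
        ((LinearMap.ker f).subtype ∘ w) ∘ (Fin.cast (by omega) : Fin 2 → Fin (0 + 2)) := by
      funext i
      fin_cases i <;> rfl
    rw [e]
    exact h2
  obtain ⟨c, d, hne, hzero⟩ := exists_isotropic hF huv
  set p : Fin (M + 2) → K := c • (w (Fin.cast (by omega) (0 : Fin 2)) : Fin (M + 2) → K) +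
    d • (w (Fin.cast (by omega) (1 : Fin 2)) : Fin (M + 2) → K) with hp
  have hpker : f p = 0 := by
    rw [hp, map_add, map_smul, map_smul]
    have h1 : ∀ i, f (w i : Fin (M + 2) → K) = 0 := fun i => (w i).2
    rw [h1, h1, smul_zero, smul_zero, add_zero]
  rw [hf] at hpker
  have hrp : r ⬝ᵥ p = 0 := congrArg Prod.fst hpker
  have hpk : p k = 0 := congrArg Prod.snd hpker
  set b : Fin (M + 2) → K := (gramM F).mulVec p with hb
  have hrb : LinearIndependent K ![r, b] := by
    rw [LinearIndependent.pair_iff]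
    intro x y hxy
    have h1 : (gramM F).mulVec (x • s + y • p) = (gramM F).mulVec 0 := by
      rw [Matrix.mulVec_add, Matrix.mulVec_smul, Matrix.mulVec_smul, hs', ← hb, hxy,
        Matrix.mulVec_zero]
    have h2 := hinj h1
    have h3 := congrFun h2 k
    simp only [Pi.add_apply, Pi.smul_apply, smul_eq_mul, hpk, mul_zero, add_zero,
      Pi.zero_apply] at h3
    have hx : x = 0 := (mul_eq_zero.1 h3).resolve_right hsk
    refine ⟨hx, ?_⟩
    rw [hx, zero_smul, zero_add] at h2
    exact (smul_eq_zero.1 h2).resolve_right hne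
  have hbp : b ⬝ᵥ p = 0 := by
    have h1 := two_mul_eval hF p
    rw [hzero, mul_zero] at h1
    rw [h1]
    unfold dotProduct
    refine Finset.sum_congr rfl fun i _ => ?_
    rw [hb]
    unfold Matrix.mulVec dotProduct
    rw [Finset.sum_mul]
    refine Finset.sum_congr rfl fun j _ => ?_
    ring
  obtain ⟨g, g', hgg', hg'g, hg0, hg1, hgl⟩ := exists_coord_point hne hrb hrp hbp (by omega)
  -- the first columns of `g`
  let g₀ : Matrix (Fin (M + 2)) (Fin (M + 1)) K := fun i j => g i (Fin.castSucc j)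
  refine ⟨g, g', lsub K g₀ F, hgg', hg'g, hg0, isHomogeneous_lsub g₀ hF, ?_⟩
  apply MvPolynomial.funext
  intro y
  have hl : eval y (lsub K g F) = eval (fun i => (∑ j, g₀ i j * y (Fin.castSucc j)) +
      y (Fin.last (M + 1)) * p i) F := by
    have h1 := aeval_lsub (L := K) g F y
    rw [aeval_eq_eval, aeval_eq_eval] at h1
    rw [h1]
    congr 2
    funext i
    rw [Fin.sum_univ_castSucc, ← hgl]
    simp only [Algebra.algebraMap_self, RingHom.id_apply, g₀]
    ring
  have hr' : eval y (rename Fin.castSucc (lsub K g₀ F)) =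
      eval (fun i => ∑ j, g₀ i j * y (Fin.castSucc j)) F := by
    rw [eval_rename]
    have h1 := aeval_lsub (L := K) g₀ F (y ∘ Fin.castSucc)
    rw [aeval_eq_eval, aeval_eq_eval] at h1
    rw [h1]
    rfl
  rw [hl, eval_add_smul hF, map_add, hr', hzero, map_mul, eval_X, eval_X]
  have h2 : ∑ j, (∑ i, gramM F j i * p i) * (∑ l, g₀ j l * y (Fin.castSucc l)) = y 1 := by
    have e1 : ∀ j, ∑ i, gramM F j i * p i = g' 1 j := by
      intro j
      rw [hg1]
      rfl
    have e2 : ∀ l : Fin (M + 1), ∑ j, g' 1 j * g₀ j l =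
        (1 : Matrix (Fin (M + 2)) (Fin (M + 2)) K) 1 (Fin.castSucc l) := by
      intro l
      rw [← hg'g, Matrix.mul_apply]
    have e3 : ∀ j, (∑ i, gramM F j i * p i) * (∑ l, g₀ j l * y (Fin.castSucc l)) =
        ∑ l, g' 1 j * g₀ j l * y (Fin.castSucc l) := by
      intro j
      rw [e1, Finset.mul_sum]
      refine Finset.sum_congr rfl fun l _ => ?_
      ring
    rw [Finset.sum_congr rfl fun j _ => e3 j, Finset.sum_comm]
    have e4 : ∀ l : Fin (M + 1), ∑ j, g' 1 j * g₀ j l * y (Fin.castSucc l) =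
        (1 : Matrix (Fin (M + 2)) (Fin (M + 2)) K) 1 (Fin.castSucc l) * y (Fin.castSucc l) := by
      intro l
      rw [← Finset.sum_mul, e2]
    rw [Finset.sum_congr rfl fun l _ => e4 l]
    obtain ⟨l1, hl1⟩ : ∃ l1 : Fin (M + 1), Fin.castSucc l1 = 1 := by
      refine ⟨⟨1, by omega⟩, ?_⟩
      apply Fin.ext
      simp
    rw [Finset.sum_eq_single l1]
    · rw [hl1, Matrix.one_apply_eq, one_mul]
    · intro l _ hl
      rw [Matrix.one_apply_ne, zero_mul]
      intro h
      apply hl
      apply Fin.castSucc_injective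
      rw [hl1, h]
    · simp
  rw [h2]
  ring

end Pool.Agent.W5h94.CU
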