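import Pool.Agent.H89.HL.L.W5h94_CU_Graph
import Pool.Agent.H89.HL.L.W5h94_CU_Iso
import Pool.Agent.H89.HL.L.W5h86_HD_Main2

set_option autoImplicit false

/-!
# Chow groups of quadrics
-/

universe u

namespace Pool.Agent.W5h94.CU

open MvPolynomial Pool.Agent.W5h86.HC Pool.Agent.W5h86.HD

/-- Smooth quadrics of dimension `2 j + 1` over algebraically closed fields. -/
theorem quad_closed {j : ℕ} (hj : 1 ≤ j)
    (ih : 2 ≤ j → ∀ N, AffineStatement.{u} 2 (j - 1) N)
    {K : Type u} [Field K] [CharZero K] [IsAlgClosed K] {F : MvPolynomial (Fin (2 * j + 3)) K}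
    (hF : IsHomogeneous F 2) (hs : Smooth F) {r : Fin (2 * j + 3) → K} (hr : r ≠ 0) {t : ℕ}
    (ht : t + j + 1 = 2 * j + 3) {P : Ideal (MvPolynomial (Fin (2 * j + 3)) K)}
    (hP : IsSub t (lform r) P) (hFP : F ∈ P) : pt P ∈ Rel F t (lform r) := by
  obtain ⟨g, g', H, hg, hg', hg0, hH, hgF⟩ := exists_iso_coord (M := 2 * j + 1) (by omega) hF hs hr
  have hl : lsub K g (lform r) = X 0 := by
    rw [lsub_lform, ← lform_single]
    congr 1
    funext j
    have h1 := congrFun (congrFun hg' 0) j
    rw [Matrix.mul_apply, hg0] at h1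
    simp only [Algebra.algebraMap_self, RingHom.id_apply]
    rw [h1, Matrix.one_apply, Pi.single_apply]
    simp only [eq_comm]
  refine pt_mem_of_coord hg hg' ?_ hP hFP
  intro P' hP' hFP'
  rw [hl] at hP' ⊢
  set G := lsub K g F with hG
  have hGs : Smooth G := hs.coord hg hg'
  have hGh : IsHomogeneous G 2 := isHomogeneous_lsub g hF
  have hsec : HasSec ((2 * j + 1) + 2) G := hasSec_self hGs
  have key : Aff (N := 2 * j + 2) j G := by
    refine step (M := 2 * j + 1) hGh hj ?_ ?_ ?_
    · have h1 : lsub K (fibMat (N := 2 * j + 1) (tt K)) G =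
          gr (lsub K (fibMat (N := 2 * j) (tt K)) H) (tt K) := by
        rw [hgF]
        unfold gr
        rw [map_add, lsub_fibMat_rename, map_mul, lsub_fibMat_one, lsub_fibMat_last, mul_assoc]
      rw [h1]
      refine aff_gr _ _ _ _ ?_ (isHomogeneous_lsub _ hH) j hj
      intro h0
      have h2 := transcendental_tt (K := K)
      rw [h0] at h2
      exact h2 isAlgebraic_zero
    · intro hj2 π _
      have hcz : CharZero (AdjoinRoot π) :=
        charZero_of_injective_algebraMap (algebraMap K (AdjoinRoot π)).injective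
      have hsec' : HasSec (2 * j + 1) (lsub K (fibMat (N := 2 * j + 1) (AdjoinRoot.root π)) G) :=
        hsec.closed (d := 0) hGh _
      intro t' ht' P₂ hP₂ hGP₂
      have h3 : (X 0 : MvPolynomial (Fin (2 * j + 1 + 1)) (AdjoinRoot π)) =
          lform (Pi.single 0 1) := (lform_single 0).symm
      rw [h3] at hP₂ ⊢
      refine ih hj2 (2 * j + 1 + 1) (AdjoinRoot π) _ (isHomogeneous_lsub _ hGh) ?_
        (Pi.single 0 1) (by simp) t' (by omega) P₂ hP₂ hGP₂
      have h4 : 2 * (j - 1) + 3 = 2 * j + 1 := by omega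
      rw [h4]
      exact hsec'
    · intro hj1
      refine ⟨ne_zero_of_hasSec (n := 2 * j + 2) hsec, fun π _ => ?_⟩
      have hcz : CharZero (AdjoinRoot π) :=
        charZero_of_injective_algebraMap (algebraMap K (AdjoinRoot π)).injective
      have hsec' : HasSec (2 * j + 1) (lsub K (fibMat (N := 2 * j + 1) (AdjoinRoot.root π)) G) :=
        hsec.closed (d := 0) hGh _
      subst hj1
      exact ⟨ne_zero_of_hasSec (n := 2) hsec', fun P₁ P₂ h₁ h₂ h₃ h₄ =>
        component_unique hsec' h₁ h₂ h₃ h₄⟩
  exact key t (by omega) P' hP' hFP'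

section

attribute [local instance] MvPolynomial.algebraMvPolynomial

/-- Smooth quadrics of dimension `2 j + 1`. -/
theorem quad_base {j : ℕ} (hj : 1 ≤ j) (ih : 2 ≤ j → ∀ N, AffineStatement.{u} 2 (j - 1) N) :
    AffineStatement.{u} 2 j (2 * j + 3) := by
  intro K _ _ F hF hsec r hr t ht P hP hFP
  have hcz : CharZero (AlgebraicClosure K) :=
    charZero_of_injective_algebraMap (algebraMap K (AlgebraicClosure K)).injective
  obtain ⟨P', hP', hcomap⟩ := exists_over_isSub (Ω := AlgebraicClosure K) hP
  have hl : algebraMap (MvPolynomial (Fin (2 * j + 3)) K)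
      (MvPolynomial (Fin (2 * j + 3)) (AlgebraicClosure K))
      (lform r) = lform (fun k => algebraMap K (AlgebraicClosure K) (r k)) := by
    rw [algebraMap_eq_map]
    unfold lform
    rw [map_sum]
    refine Finset.sum_congr rfl fun k _ => ?_
    rw [map_mul, map_C, map_X]
  have h1 : pt P' ∈ Rel (algebraMap (MvPolynomial (Fin (2 * j + 3)) K)
      (MvPolynomial (Fin (2 * j + 3)) (AlgebraicClosure K)) F) t
      (algebraMap (MvPolynomial (Fin (2 * j + 3)) K)
        (MvPolynomial (Fin (2 * j + 3)) (AlgebraicClosure K)) (lform r)) := by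
    rw [hl]
    rw [hl] at hP'
    refine quad_closed hj ih (hF.map _) (smooth_map (smooth_of_hasSec hsec)) ?_ ht hP' ?_
    · intro h2
      apply hr
      funext k
      have h3 := congrFun h2 k
      rw [Pi.zero_apply, map_eq_zero] at h3
      exact h3
    · rw [← hcomap, Ideal.mem_comap] at hFP
      exact hFP
  have h2 := pt_mem_of_closure (K := K) (Ω := AlgebraicClosure K) hP' h1
  rw [hcomap] at h2
  exact h2

end

/-- **Quadrics** of rank at least `2 j + 3`: outside of an arbitrary hyperplane, the cycles of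
codimension `j` are rationally equivalent to zero. -/
theorem quad : ∀ j, 1 ≤ j → ∀ N, AffineStatement.{u} 2 j N := by
  have key : ∀ n j, 1 ≤ j → j ≤ n → ∀ N, AffineStatement.{u} 2 j N := by
    intro n
    induction n with
    | zero =>
      intro j h1 h2
      omega
    | succ n ih =>
      intro j h1 h2 N
      refine affineStatement_of_base (d := 0) (i := n + 1) ?_ N j h1 h2
      intro j' h3 h4
      exact quad_base h3 fun h5 N => ih (j' - 1) (by omega) (by omega) N
  exact fun j hj N => key j j hj le_rfl N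

end Pool.Agent.W5h94.CU
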