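import Pool.Agent.H89.HL.L.W5h94_CU_Cond
import Pool.Agent.H89.HL.L.W5h94_CU_Quad

set_option autoImplicit false

/-!
# Chow groups of hypersurfaces which are fibred in quadrics
-/

universe u

namespace Pool.Agent.W5h94.CU

open MvPolynomial Pool.Agent.W5h86.HC

lemma charZero_of {K κ : Type u} [Field K] [CharZero K] [Field κ] [Algebra K κ] : CharZero κ :=
  charZero_of_injective_algebraMap (algebraMap K κ).injective

/-- **The statement outside of a hyperplane.** -/
theorem affine_main : ∀ (e c j m : ℕ) (K : Type u) [Field K] [CharZero K]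
    (G : MvPolynomial (Fin (m + e + 1)) K), IsHomogeneous G 3 → AC m e c G → 1 ≤ j →
      2 * j + 2 + c ≤ m → Aff (N := m + e) j G := by
  intro e
  induction e with
  | zero =>
    intro c j m K _ _ G hG h hj hm t ht P hP hGP
    obtain ⟨Q, hGQ, hQ, hsec⟩ := h.base
    have hQP : Q ∈ P := by
      rw [hGQ] at hGP
      exact (hP.prime.mem_or_mem hGP).resolve_left hP.notMem
    have h3 : (X 0 : MvPolynomial (Fin (m + 0 + 1)) K) = lform (Pi.single 0 1) :=
      (lform_single 0).symm
    rw [h3] at hP
    have h4 := quad j hj (m + 1) K Q hQ (hsec (2 * j + 3) (by omega)) (Pi.single 0 1) (by simp) t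
      (by omega) P hP hQP
    rw [← h3] at h4
    refine (?_ : Pool.Agent.W5h86.HC.Rel Q t (X 0) ≤ Pool.Agent.W5h86.HC.Rel G t (X 0)) h4
    unfold Pool.Agent.W5h86.HC.Rel
    rw [Submodule.span_le]
    rintro c' ⟨Q', G', e', h5, h6, h7, h8, rfl⟩
    refine Submodule.subset_span ⟨Q', G', e', h5, ?_, h7, h8, rfl⟩
    rw [hGQ]
    exact Q'.mul_mem_left _ h6
  | succ e ih =>
    intro c j m K _ _ G hG h hj hm
    refine step (M := m + e) hG hj ?_ ?_ ?_
    · have hcz : CharZero (Kt K) := charZero_of (K := K)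
      exact ih c j m (Kt K) _ (isHomogeneous_lsub _ hG) h.generic hj hm
    · intro hj2 π _
      have hcz : CharZero (AdjoinRoot π) := charZero_of (K := K)
      exact ih (c + 1) (j - 1) m (AdjoinRoot π) _ (isHomogeneous_lsub _ hG) (h.closed _)
        (by omega) (by omega)
    · intro hj1
      refine ⟨AC.ne_zero (e + 1) c m K G h (by omega), fun π _ => ?_⟩
      exact ⟨AC.ne_zero e (c + 1) m _ _ (h.closed _) (by omega),
        AC.uniq e (c + 1) m _ _ (h.closed _) (by omega)⟩

/-- The first `i` coordinates. -/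
def cf (K : Type u) [Field K] (N i : ℕ) : Fin i → Fin N → K :=
  fun k x => if x.val = k.val then 1 else 0

section zin

variable {K : Type u} [Field K] {p : ℕ}

lemma zin_inv : (hinv : Matrix (Fin p) (Fin (p + 1)) K) * (zin : Matrix (Fin (p + 1)) (Fin p) K)
    = 1 := hinv_mul_hyp 0

lemma zin_mul_hinv :
    (zin : Matrix (Fin (p + 1)) (Fin p) K) * (hinv : Matrix (Fin p) (Fin (p + 1)) K) =
      1 - Matrix.vecMulVec (Pi.single 0 1) (Pi.single 0 1) := by
  ext i j
  rw [Matrix.mul_apply, Matrix.sub_apply, Matrix.vecMulVec_apply]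
  rcases Fin.eq_zero_or_eq_succ i with h | ⟨i', h⟩
  · rw [h, Finset.sum_eq_zero]
    · rw [Pi.single_eq_same, one_mul, Matrix.one_apply, Pi.single_apply]
      simp only [eq_comm]
      simp
    · intro k _
      simp [zin]
  · rw [h, Finset.sum_eq_single i']
    · simp only [zin, hinv, hyp_succ, if_true, one_mul, Matrix.one_apply]
      rw [Pi.single_eq_of_ne (Fin.succ_ne_zero i'), zero_mul, sub_zero]
      simp only [eq_comm]
    · intro k _ hk
      simp [zin]
      intro h3
      exact absurd h3.symm hk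
    · simp

lemma single_vecMul_zin :
    Matrix.vecMul (Pi.single 0 1) (zin : Matrix (Fin (p + 1)) (Fin p) K) = 0 := by
  rw [Matrix.single_one_vecMul]
  funext j
  simp [zin]

lemma cf_zero (i : ℕ) : cf K (p + 1) (i + 1) 0 = Pi.single 0 1 := by
  funext x
  unfold cf
  rw [Pi.single_apply]
  congr 1
  rw [eq_iff_iff]
  constructor
  · intro h
    exact Fin.ext h
  · intro h
    rw [h]
    rfl

lemma cf_succ_vecMul {i : ℕ} (k : Fin i) :
    Matrix.vecMul (cf K (p + 1) (i + 1) k.succ) (zin : Matrix (Fin (p + 1)) (Fin p) K) =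
      cf K p i k := by
  funext x
  rw [Matrix.vecMul, dotProduct, Finset.sum_eq_single x.succ]
  · unfold zin cf
    rw [hyp_succ, if_pos rfl, mul_one, Fin.val_succ, Fin.val_succ]
    congr 1
    rw [eq_iff_iff]
    omega
  · intro y _ hy
    rcases Fin.eq_zero_or_eq_succ y with h | ⟨y', h⟩
    · rw [h]
      simp [zin]
    · rw [h]
      unfold zin
      rw [hyp_succ, if_neg, mul_zero]
      rintro rfl
      exact hy h
  · simp

end zin

/-- **The projective statement**. -/
theorem proj_main : ∀ (i e c m : ℕ) (K : Type u) [Field K] [CharZero K]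
    (G : MvPolynomial (Fin (m + e + 1)) K), IsHomogeneous G 3 → PC m e c G → i + 1 ≤ e →
      2 * i + 2 + c ≤ m → ∀ t, t + i = m + e → ∀ P, IsSub t 1 P → G ∈ P →
        pt P ∈ Submodule.span ℚ {sect t G (cf K (m + e + 1) i)} ⊔ RatEq G t := by
  intro i
  induction i with
  | zero =>
    intro e c m K _ _ G hG h he hm t ht P hP hGP
    obtain ⟨e, rfl⟩ : ∃ e', e = e' + 1 := ⟨e - 1, by omega⟩
    have ht' : t = m + (e + 1) := by omega
    subst ht'
    have hzero : lsub K (zin (K := K) (p := m + e + 1)) G ≠ 0 :=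
      AC.ne_zero e (c + 1) m K _ h.hyperplane.ac (by omega)
    have hX : ∀ P : Ideal (MvPolynomial (Fin (m + (e + 1) + 1)) K), IsSub (m + (e + 1)) 1 P →
        G ∈ P → IsSub (m + (e + 1)) (X 0) P := by
      intro P hP hGP
      refine isSub_iff.2 ⟨hP, fun hX => ?_⟩
      obtain ⟨P', hP', hPP'⟩ := exists_isSub_param (M := m + e + 1) (zin_inv (K := K))
        zin_mul_hinv hP (by
          rw [lform_single]
          exact hX)
      have hGP' : lsub K (zin (K := K) (p := m + e + 1)) G ∈ P' := by
        rw [← hPP', Ideal.mem_comap] at hGP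
        exact hGP
      have h2 : P' ≠ ⊥ := by
        intro h3
        rw [h3, Ideal.mem_bot] at hGP'
        exact hzero hGP'
      have h4 := trdeg_quot_lt (K := K) Ideal.isPrime_bot hP'.prime
        (lt_of_le_of_ne bot_le (Ne.symm h2)) trdeg_bot hP'.trdeg
      omega
    have huniq := AC.uniq (e + 1) c m K G h.ac (by omega)
    have hG0 : G ≠ 0 := AC.ne_zero (e + 1) c m K G h.ac (by omega)
    apply Submodule.mem_sup_left
    set ℓ := cf K (m + (e + 1) + 1) 0 with hℓ
    set c : ℚ := (mult (Ideal.span {G} ⊔ Ideal.span (Set.range fun k => lform (ℓ k))) P : ℚ)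
      with hc
    have hc0 : c ≠ 0 := by
      rw [hc, Nat.cast_ne_zero]
      apply mult_ne_zero
      refine mem_minimalPrimes (K := K) (Q := ⊥) hP.prime Ideal.isPrime_bot hP.trdeg trdeg_bot
        bot_le (a := G) hG0 (Ideal.mem_sup_left (Ideal.mem_span_singleton_self _)) ?_
      refine sup_le ?_ ?_
      · rw [Ideal.span_singleton_le_iff_mem]
        exact hGP
      · rw [Set.range_eq_empty, Ideal.span_empty]
        exact bot_le
    have h1 : sect (m + (e + 1)) G ℓ = c • pt P := by
      classical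
      funext P'
      rw [Pi.smul_apply, smul_eq_mul]
      unfold pt
      by_cases h : P' = P
      · rw [h, sect_of hP, Pi.single_eq_same, mul_one]
      · rw [Pi.single_eq_of_ne h, mul_zero]
        by_contra h2
        obtain ⟨h3, h4, -⟩ := le_of_sect_ne_zero h2
        exact h (huniq P' P (hX P' h3 h4) (hX P hP hGP) h4 hGP)
    rw [h1]
    refine Submodule.mem_span_singleton.2 ⟨c⁻¹, ?_⟩
    rw [smul_smul, inv_mul_cancel₀ hc0, one_smul]
  | succ i ih =>
    intro e c m K _ _ G hG h he hm t ht P hP hGP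
    obtain ⟨e, rfl⟩ : ∃ e', e = e' + 1 := ⟨e - 1, by omega⟩
    set ℓ := cf K (m + (e + 1) + 1) (i + 1) with hℓ
    have hℓ0 : ℓ 0 = Pi.single 0 1 := cf_zero i
    -- the subvarieties of the hyperplane
    have key : ∀ P, IsSub t 1 P → G ∈ P → lform (ℓ 0) ∈ P →
        pt P ∈ Submodule.span ℚ {sect t G ℓ} ⊔ RatEq G t := by
      intro P hP hFP hlP
      have h1 : (hinv : Matrix (Fin (m + e + 1)) (Fin (m + e + 1 + 1)) K) *
        (zin : Matrix (Fin (m + e + 1 + 1)) (Fin (m + e + 1)) K) = 1 := zin_inv
      have h2 : (zin : Matrix (Fin (m + e + 1 + 1)) (Fin (m + e + 1)) K) *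
          (hinv : Matrix (Fin (m + e + 1)) (Fin (m + e + 1 + 1)) K) =
          1 - Matrix.vecMulVec (Pi.single 0 1) (ℓ 0) := by
        rw [hℓ0]
        exact zin_mul_hinv
      have h3 : Matrix.vecMul (ℓ 0) (zin : Matrix (Fin (m + e + 1 + 1)) (Fin (m + e + 1)) K) = 0 := by
        rw [hℓ0]
        exact single_vecMul_zin
      obtain ⟨P', hP', hPP'⟩ := exists_isSub_param (M := m + e + 1) h1 h2 hP hlP
      have h4 := ih e (c + 1) m K (lsub K (zin (K := K) (p := m + e + 1)) G)
        (isHomogeneous_lsub _ hG) h.hyperplane (by omega) (by omega) t (by omega) P' hP'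
        (by
          rw [← hPP', Ideal.mem_comap] at hFP
          exact hFP)
      have h6 : (fun k : Fin i => Matrix.vecMul (ℓ k.succ)
          (zin : Matrix (Fin (m + e + 1 + 1)) (Fin (m + e + 1)) K)) = cf K (m + e + 1) i := by
        funext k
        exact cf_succ_vecMul k
      have h5 := Submodule.mem_map_of_mem (f := push (lsub K
        (zin : Matrix (Fin (m + e + 1 + 1)) (Fin (m + e + 1)) K)) 1 t) h4
      rw [push_pt (isFib_param (K := K) h1) (by rw [map_one]; exact hP'), hPP',
        Submodule.map_sup, Submodule.map_span, Set.image_singleton, ← h6,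
        push_sect_param h1 h2 h3] at h5
      exact (sup_le_sup_left (push_ratEq_param h1 h2 h3) _) h5
    by_cases hlP : lform (ℓ 0) ∈ P
    · exact key P hP hGP hlP
    · have h1 := affine_main (e + 1) c (i + 1) m K G hG h.ac (by omega) (by omega) t (by omega) P
        (by
          refine isSub_iff.2 ⟨hP, ?_⟩
          rw [hℓ0, lform_single] at hlP
          exact hlP) hGP
      rw [← lform_single, ← hℓ0] at h1
      exact rel_le le_sup_right key h1

end Pool.Agent.W5h94.CU
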