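import Pool.Agent.H89.HL.L.W5h94_CU_KerLe
import Pool.Agent.H89.HL.L.W5h94_CU_Main

set_option autoImplicit false

/-!
# Smooth cubic hypersurfaces containing a linear subspace
-/

universe u

namespace Pool.Agent.W5h94.CU

open MvPolynomial Pool.Agent.W5h86.HC

variable {K : Type u} [Field K] {m e : ℕ}

/-- Decomposition of the forms which vanish on the linear subspace. -/
lemma exists_H {N : ℕ} {F : MvPolynomial (Fin N) K} (hF : IsHomogeneous F 3)
    (hy : F ∈ Ideal.span {f | ∃ i : Fin N, i.val ≤ e ∧ f = X i}) :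
    ∃ H : Fin N → MvPolynomial (Fin N) K, (∀ i, IsHomogeneous (H i) 2) ∧
      (∀ i, e < i.val → H i = 0) ∧ F = ∑ i, X i * H i := by
  classical
  have key : ∃ H : Fin N → MvPolynomial (Fin N) K,
      (∀ i, e < i.val → H i = 0) ∧ F = ∑ i, X i * H i := by
    refine Submodule.span_induction (p := fun F _ => ∃ H : Fin N → MvPolynomial (Fin N) K,
      (∀ i, e < i.val → H i = 0) ∧ F = ∑ i, X i * H i) ?_ ?_ ?_ ?_ hy
    · rintro _ ⟨i, hi, rfl⟩
      refine ⟨Pi.single i 1, ?_, ?_⟩
      · intro k hk
        rw [Pi.single_eq_of_ne]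
        rintro rfl
        omega
      · rw [Finset.sum_eq_single i]
        · rw [Pi.single_eq_same, mul_one]
        · intro k _ hk
          rw [Pi.single_eq_of_ne hk, mul_zero]
        · simp
    · exact ⟨0, fun _ _ => rfl, by simp⟩
    · rintro x y _ _ ⟨H, h1, h2⟩ ⟨H', h1', h2'⟩
      refine ⟨H + H', ?_, ?_⟩
      · intro i hi
        rw [Pi.add_apply, h1 i hi, h1' i hi, add_zero]
      · rw [h2, h2', ← Finset.sum_add_distrib]
        refine Finset.sum_congr rfl fun i _ => ?_
        rw [Pi.add_apply, mul_add]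
    · rintro a x _ ⟨H, h1, h2⟩
      refine ⟨fun i => a * H i, ?_, ?_⟩
      · intro i hi
        simp only [h1 i hi, mul_zero]
      · rw [h2, smul_eq_mul, Finset.mul_sum]
        refine Finset.sum_congr rfl fun i _ => ?_
        ring
  obtain ⟨H, h1, h2⟩ := key
  refine ⟨fun i => homogeneousComponent 2 (H i), fun i => homogeneousComponent_isHomogeneous _ _,
    ?_, ?_⟩
  · intro i hi
    simp only [h1 i hi, map_zero]
  · have h3 : homogeneousComponent 3 F = F := by
      rw [homogeneousComponent_of_mem hF, if_pos rfl]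
    rw [← h3]
    conv_lhs => rw [h2]
    rw [map_sum]
    refine Finset.sum_congr rfl fun i _ => ?_
    exact homogeneousComponent_mul_of_isHomogeneous (isHomogeneous_X K i) 2

lemma lsub_Wm_X0 {L : Type u} [Field L] [Algebra K L] (w : ℕ → L) {i : Fin (m + e + 1)}
    (hi : i.val ≤ e) : lsub K (Wm m e w) (X i) = C (w i.val) * X 0 := by
  rw [lsub_X, Finset.sum_eq_single 0]
  · rw [Wm_apply, if_pos hi, if_pos rfl]
  · intro j _ hj
    rw [Wm_apply, if_pos hi, if_neg hj, map_zero, zero_mul]
  · simp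

/-- **The corank of the fibres.** -/
theorem corank {L : Type u} [CharZero K] [Field L] [Algebra K L] {δ : ℕ}
    {F : MvPolynomial (Fin (m + e + 1)) K} (hF : IsHomogeneous F 3) (hs : Smooth F)
    (hy : F ∈ Ideal.span {f | ∃ i : Fin (m + e + 1), i.val ≤ e ∧ f = X i})
    (w : ℕ → L) (k0 : ℕ) (hk0 : k0 ≤ e) (hw : w k0 = 1) (T : Fin δ → ℕ) (hT : ∀ l, T l ≤ e)
    (hTi : AlgebraicIndependent K fun l => w (T l)) :
    ∃ Q : MvPolynomial (Fin (m + 1)) L, lsub K (Wm m e w) F = X 0 * Q ∧ IsHomogeneous Q 2 ∧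
      ∀ n, n + e ≤ m + 1 + δ → HasSec n Q := by
  obtain ⟨H, hH, hH0, hFH⟩ := exists_H hF hy
  have hcz : CharZero L := charZero_of (K := K)
  have hhom : IsHomogeneous (∑ i : Fin (m + e + 1), C (w i.val) * lsub K (Wm m e w) (H i)) 2 :=
    IsHomogeneous.sum _ _ _ fun i _ => (isHomogeneous_lsub _ (hH i)).C_mul _
  refine ⟨∑ i, C (w i.val) * lsub K (Wm m e w) (H i), ?_, hhom, fun n hn => ?_⟩
  · conv_lhs => rw [hFH]
    rw [map_sum, Finset.mul_sum]
    refine Finset.sum_congr rfl fun i _ => ?_
    rw [map_mul]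
    by_cases hi : i.val ≤ e
    · rw [lsub_Wm_X0 w hi]
      ring
    · rw [hH0 i (by omega), map_zero]
      ring
  · refine hasSec_of_corank hhom ?_
    have h1 := ker_le hs H hH hH0 hFH w k0 hk0 hw T hT hTi
    omega

/-- The dimension of a linear subspace of a smooth cubic hypersurface is at most half of the
dimension of the hypersurface. -/
lemma le_of_smooth {F : MvPolynomial (Fin (m + e + 1)) K} (hF : IsHomogeneous F 3) (hs : Smooth F)
    (hy : F ∈ Ideal.span {f | ∃ i : Fin (m + e + 1), i.val ≤ e ∧ f = X i}) : m ≤ e + 1 := by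
  classical
  by_contra hcon
  obtain ⟨H, hH, hH0, hFH⟩ := exists_H hF hy
  -- the restriction to the linear subspace
  let ρ : MvPolynomial (Fin (m + e + 1)) K →ₐ[K] MvPolynomial (Fin m) K :=
    aeval fun i => if h : i.val ≤ e then 0 else X ⟨i.val - e - 1, by omega⟩
  have hρ : ∀ f, constantCoeff f = 0 → constantCoeff (ρ f) = 0 := by
    intro f hf
    have h1 : (constantCoeff : MvPolynomial (Fin m) K →+* K).comp (ρ : _ →+* _) =
        (constantCoeff : MvPolynomial (Fin (m + e + 1)) K →+* K) := by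
      apply MvPolynomial.ringHom_ext
      · intro a
        rw [RingHom.comp_apply]
        change constantCoeff (ρ (C a)) = constantCoeff (C a)
        have h2 : ρ (C a) = C a := ρ.commutes a
        rw [h2, constantCoeff_C, constantCoeff_C]
      · intro i
        rw [RingHom.comp_apply]
        change constantCoeff (ρ (X i)) = _
        simp only [ρ, aeval_X, constantCoeff_X]
        split_ifs
        · exact map_zero _
        · exact constantCoeff_X _ _
    rw [← hf]
    exact DFunLike.congr_fun h1 f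
  obtain ⟨L, _, _, b, hb, hb0⟩ := exists_common_zero' (K := K) (s := e + 1) (c := m) (by omega)
    (fun k => ρ (H ⟨k.val, by omega⟩)) (fun k => hρ _ (by
      by_contra hne
      have h1 := (hH ⟨k.val, by omega⟩).coeff_eq_zero (d := 0) (by simp)
      exact hne h1))
  set x : Fin (m + e + 1) → L := fun i => if h : i.val ≤ e then 0 else b ⟨i.val - e - 1, by omega⟩
    with hx
  have hρx : ∀ f, aeval b (ρ f) = aeval x f := by
    intro f
    have h1 : (aeval b : MvPolynomial (Fin m) K →ₐ[K] L).comp ρ = aeval x := by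
      apply MvPolynomial.algHom_ext
      intro i
      rw [AlgHom.comp_apply, aeval_X]
      simp only [ρ, aeval_X, hx]
      split_ifs
      · exact map_zero _
      · exact aeval_X _ _
    exact DFunLike.congr_fun h1 f
  have hHx : ∀ i, aeval x (H i) = 0 := by
    intro i
    by_cases hi : i.val ≤ e
    · have h1 := hb0 ⟨i.val, by omega⟩
      rw [hρx] at h1
      exact h1
    · rw [hH0 i (by omega), map_zero]
  have hx0 : ∀ i : Fin (m + e + 1), i.val ≤ e → x i = 0 := by
    intro i hi
    simp only [hx, dif_pos hi]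
  have hxne : x ≠ 0 := by
    intro h0
    apply hb
    funext j
    have h1 := congrFun h0 ⟨j.val + e + 1, by omega⟩
    simp only [hx, Pi.zero_apply] at h1
    rw [dif_neg (by omega)] at h1
    rw [Pi.zero_apply, ← h1]
    congr 1
    apply Fin.ext
    simp only
    omega
  obtain ⟨j, hj⟩ := hs L x hxne (by
    rw [hFH, map_sum]
    refine Finset.sum_eq_zero fun i _ => ?_
    rw [map_mul, hHx, mul_zero])
  apply hj
  rw [hFH, map_sum, map_sum]
  refine Finset.sum_eq_zero fun i _ => ?_
  rw [pderiv_mul, map_add, map_mul, map_mul, hHx, mul_zero, zero_add, aeval_X]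
  by_cases hi : i.val ≤ e
  · rw [hx0 i hi, zero_mul]
  · rw [hH0 i (by omega), map_zero, map_zero, mul_zero]

/-- **Smooth cubic hypersurfaces which contain a coordinate subspace.** -/
theorem cubic_main [CharZero K] {i : ℕ} {G : MvPolynomial (Fin (m + e + 1)) K}
    (hG : IsHomogeneous G 3) (hs : Smooth G)
    (hy : G ∈ Ideal.span {f | ∃ k : Fin (m + e + 1), k.val ≤ e ∧ f = X k}) (him : 2 * i + 2 ≤ m)
    {t : ℕ} (ht : t + i = m + e) {P : Ideal (MvPolynomial (Fin (m + e + 1)) K)} (hP : IsSub t 1 P)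
    (hGP : G ∈ P) : pt P ∈ Submodule.span ℚ {sect t G (cf K (m + e + 1) i)} ⊔ RatEq G t := by
  have hme := le_of_smooth hG hs hy
  refine proj_main i e 0 m K G hG ?_ (by omega) (by omega) t ht P hP hGP
  intro L _ _ w k0 hk0 hw δ T hT hTi
  obtain ⟨Q, h1, h2, h3⟩ := corank hG hs hy w k0 hk0 hw T hT hTi
  exact ⟨Q, h1, h2, fun n hn => h3 n (by omega)⟩

end Pool.Agent.W5h94.CU
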