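import Pool.Agent.H89.HL.L.W5h86_HC_Base

set_option autoImplicit false

/-!
# The fibres of the projection from a linear subspace: definitions
-/

universe u

namespace Pool.Agent.W5h94.CU

open MvPolynomial Pool.Agent.W5h86.HC

/-- The matrix of the substitution `y k = w k * X 0` for the first `e + 1` variables `y`, and
`x i = X (i + 1)` for the last `m` variables `x`. -/
def Wm {L : Type u} [Field L] (m e : ℕ) (w : ℕ → L) :
    Matrix (Fin (m + e + 1)) (Fin (m + 1)) L :=
  fun i j => if i.val ≤ e then (if j = 0 then w i.val else 0)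
    else (if j.val + e = i.val then 1 else 0)

/-- All subvarieties of codimension `j` of the hypersurface `G = 0` outside of `X 0 = 0` are
rationally equivalent to zero. -/
def Aff {K : Type u} [Field K] (j : ℕ) {N : ℕ} (G : MvPolynomial (Fin (N + 1)) K) : Prop :=
  ∀ t, t + j = N → ∀ P, IsSub t (X 0) P → G ∈ P → pt P ∈ Rel G t (X 0)

/-- The hypersurface `G = 0` has at most one component outside of `X 0 = 0`. -/
def Uniq {K : Type u} [Field K] {N : ℕ} (G : MvPolynomial (Fin (N + 1)) K) : Prop :=
  ∀ P₁ P₂, IsSub N (X 0) P₁ → IsSub N (X 0) P₂ → G ∈ P₁ → G ∈ P₂ → P₁ = P₂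

end Pool.Agent.W5h94.CU
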