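import Pool.Agent.H89.HL.L.W5h94_CU_Main

set_option autoImplicit false

/-!
# Linear changes of coordinates
-/

universe u

namespace Pool.Agent.W5h94.CU

open MvPolynomial Pool.Agent.W5h86.HC

section transport

variable {K : Type u} [Field K] {N : ℕ} {g g' : Matrix (Fin N) (Fin N) K}

lemma lsub_inv (hg : g * g' = 1) (f : MvPolynomial (Fin N) K) : lsub K g' (lsub K g f) = f := by
  rw [lsub_lsub, hg, lsub_one]
  rfl

lemma comap_comap_inv (hg : g * g' = 1) (P : Ideal (MvPolynomial (Fin N) K)) :
    (P.comap (lsub K g')).comap (lsub K g) = P := by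
  ext f
  rw [Ideal.mem_comap, Ideal.mem_comap, lsub_inv hg]

lemma isSub_comap_inv (hg : g * g' = 1) {t : ℕ} {P : Ideal (MvPolynomial (Fin N) K)}
    (hP : IsSub t 1 P) : IsSub t 1 (P.comap (lsub K g')) :=
  (isFib_coord hg (1 : MvPolynomial (Fin N) K)).isSub_comap (t := t) trdeg_self_eq (P' := P)
    (by rw [map_one]; exact hP)

lemma push_idiv_coord (hg : g * g' = 1) (hg' : g' * g = 1) {t : ℕ}
    {Q' : Ideal (MvPolynomial (Fin N) K)} {G' : MvPolynomial (Fin N) K} :
    push (lsub K g) 1 t (idiv t 1 Q' G') = idiv t 1 (Q'.comap (lsub K g)) (lsub K g' G') := by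
  have hfib := isFib_coord hg' (1 : MvPolynomial (Fin N) K)
  funext P
  obtain ⟨P', rfl⟩ : ∃ P', P = Ideal.comap (lsub K g) P' := ⟨_, (comap_comap_inv hg P).symm⟩
  by_cases hP : IsSub t 1 P'
  · have hP1 : IsSub t (lsub K g 1) P' := by
      rw [map_one]
      exact hP
    have hP2 : IsSub t 1 (P'.comap (lsub K g)) := isSub_comap_inv hg' hP
    rw [push_of hfib _ hP1, idiv_of hP, idiv_of hP2]
    rw [hfib.mult_eq hP1.prime hP1.notMem (s := 1) (y := G') ?_ ?_]
    · exact hP1.notMem
    · rw [lsub_inv hg', map_one, one_mul]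
  · have hP2 : ¬ IsSub t 1 (P'.comap (lsub K g)) := by
      intro h
      have h1 := isSub_comap_inv hg h
      rw [comap_comap_inv hg'] at h1
      exact hP h1
    rw [idiv_of_not hP2, push_of_not]
    rintro ⟨P'', h1, h2⟩
    rw [map_one] at h1
    have h3 : P'' = P' := by
      have h4 := congrArg (Ideal.comap (lsub K g')) h2
      rw [comap_comap_inv hg', comap_comap_inv hg'] at h4
      exact h4
    exact hP (h3 ▸ h1)

lemma push_ratEq_coord (hg : g * g' = 1) (hg' : g' * g = 1) {t : ℕ}
    {F : MvPolynomial (Fin N) K} :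
    (RatEq (lsub K g F) t).map (push (lsub K g) 1 t) ≤ RatEq F t := by
  unfold RatEq
  rw [Submodule.map_span_le]
  rintro c ⟨Q', G₁, G₂, e, hQ, hFQ, hG₁, hG₂, hGQ₁, hGQ₂, rfl⟩
  rw [map_sub, push_idiv_coord hg hg', push_idiv_coord hg hg']
  refine Submodule.subset_span ⟨_, _, _, e, isSub_comap_inv hg' hQ, hFQ,
    isHomogeneous_lsub g' hG₁, isHomogeneous_lsub g' hG₂, ?_, ?_, rfl⟩
  · rw [Ideal.mem_comap, lsub_inv hg']
    exact hGQ₁
  · rw [Ideal.mem_comap, lsub_inv hg']
    exact hGQ₂

lemma map_eq_comap_inv (hg : g * g' = 1) (hg' : g' * g = 1)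
    (J : Ideal (MvPolynomial (Fin N) K)) : (J.map (lsub K g)).comap (lsub K g) = J := by
  apply le_antisymm
  · intro f hf
    have h1 : lsub K g' (lsub K g f) ∈ (J.map (lsub K g)).map (lsub K g') :=
      Ideal.mem_map_of_mem _ hf
    rw [lsub_inv hg] at h1
    have h2 : (J.map (lsub K g)).map (lsub K g') ≤ J := by
      rw [Ideal.map_le_iff_le_comap, Ideal.map_le_iff_le_comap]
      intro j hj
      change lsub K g' (lsub K g j) ∈ J
      rw [lsub_inv hg]
      exact hj
    exact h2 h1
  · exact Ideal.le_comap_map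

lemma push_sect_coord (hg : g * g' = 1) (hg' : g' * g = 1) {t i : ℕ}
    {F : MvPolynomial (Fin N) K} {ℓ : Fin i → Fin N → K} :
    push (lsub K g) 1 t (sect t (lsub K g F) fun k => Matrix.vecMul (ℓ k) g) = sect t F ℓ := by
  have hfib := isFib_coord hg' (1 : MvPolynomial (Fin N) K)
  have hspan : Ideal.span {lsub K g F} ⊔
      Ideal.span (Set.range fun k => lform (Matrix.vecMul (ℓ k) g)) =
      (Ideal.span {F} ⊔ Ideal.span (Set.range fun k => lform (ℓ k))).map (lsub K g) := by
    rw [Ideal.map_sup, Ideal.map_span, Ideal.map_span, Set.image_singleton, ← Set.range_comp]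
    congr 3
    funext k
    rw [Function.comp_apply]
    exact (lsub_lform g (ℓ k)).symm
  funext P
  obtain ⟨P', rfl⟩ : ∃ P', P = Ideal.comap (lsub K g) P' := ⟨_, (comap_comap_inv hg P).symm⟩
  by_cases hP : IsSub t 1 P'
  · have hP1 : IsSub t (lsub K g 1) P' := by
      rw [map_one]
      exact hP
    have hP2 : IsSub t 1 (P'.comap (lsub K g)) := isSub_comap_inv hg' hP
    rw [push_of hfib _ hP1, sect_of hP, sect_of hP2, hspan]
    congr 1
    rw [← map_eq_comap_inv hg hg' (Ideal.span {F} ⊔ Ideal.span (Set.range fun k => lform (ℓ k)))]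
    rw [map_eq_comap_inv hg hg' (Ideal.span {F} ⊔ Ideal.span (Set.range fun k => lform (ℓ k)))]
    have h1 := mult_comap (lsub K g : MvPolynomial (Fin N) K →+* MvPolynomial (Fin N) K)
      hP1.prime (hfib.den' hP1.prime hP1.notMem)
      ((Ideal.span {F} ⊔ Ideal.span (Set.range fun k => lform (ℓ k))).map (lsub K g))
    rw [← h1]
    congr 1
    exact map_eq_comap_inv hg hg' _
  · have hP2 : ¬ IsSub t 1 (P'.comap (lsub K g)) := by
      intro h
      have h1 := isSub_comap_inv hg h
      rw [comap_comap_inv hg'] at h1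
      exact hP h1
    rw [sect_of_not hP2, push_of_not]
    rintro ⟨P'', h1, h2⟩
    rw [map_one] at h1
    have h3 : P'' = P' := by
      have h4 := congrArg (Ideal.comap (lsub K g')) h2
      rw [comap_comap_inv hg', comap_comap_inv hg'] at h4
      exact h4
    exact hP (h3 ▸ h1)

/-- **Change of coordinates.** -/
theorem pt_mem_coord (hg : g * g' = 1) (hg' : g' * g = 1) {t i : ℕ}
    {F : MvPolynomial (Fin N) K} {ℓ : Fin i → Fin N → K}
    (h : ∀ P, IsSub t 1 P → lsub K g F ∈ P → pt P ∈ Submodule.span ℚ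
      {sect t (lsub K g F) fun k => Matrix.vecMul (ℓ k) g} ⊔ RatEq (lsub K g F) t)
    {P : Ideal (MvPolynomial (Fin N) K)} (hP : IsSub t 1 P) (hFP : F ∈ P) :
    pt P ∈ Submodule.span ℚ {sect t F ℓ} ⊔ RatEq F t := by
  have h1 := h _ (isSub_comap_inv hg hP) (by
    rw [Ideal.mem_comap, lsub_inv hg]
    exact hFP)
  have h2 := Submodule.mem_map_of_mem (f := push (lsub K g) 1 t) h1
  rw [push_pt (isFib_coord hg' (1 : MvPolynomial (Fin N) K)) (by
      rw [map_one]
      exact isSub_comap_inv hg hP), comap_comap_inv hg,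
    Submodule.map_sup, Submodule.map_span, Set.image_singleton, push_sect_coord hg hg'] at h2
  exact (sup_le_sup_left (push_ratEq_coord hg hg') _) h2

end transport

/-- Linearly independent families of a finite dimensional space can be extended. -/
lemma exists_extend_li' {K V : Type u} [Field K] [AddCommGroup V] [Module K V]
    [FiniteDimensional K V] {k n : ℕ} (v : Fin k → V) (hv : LinearIndependent K v)
    (hn : Module.finrank K V = n) :
    ∃ (hk : k ≤ n) (w : Fin n → V), LinearIndependent K w ∧ ∀ i, w (Fin.castLE hk i) = v i := by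
  have hk : k ≤ n := by
    have h1 := hv.fintype_card_le_finrank
    rw [hn] at h1
    simpa using h1
  obtain ⟨m, rfl⟩ := Nat.exists_eq_add_of_le hk
  refine ⟨hk, ?_⟩
  have key : ∀ j, j ≤ m → ∃ w : Fin (k + j) → V, LinearIndependent K w ∧
      ∀ i, w (Fin.castLE (Nat.le_add_right k j) i) = v i := by
    intro j
    induction j with
    | zero => exact fun _ => ⟨v, hv, fun i => rfl⟩
    | succ j ih =>
      intro hj
      obtain ⟨w, hw, hwv⟩ := ih (by omega)
      obtain ⟨x, hx⟩ := exists_linearIndependent_snoc_of_lt_finrank hw (by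
        rw [hn]
        omega)
      refine ⟨Fin.snoc (α := fun _ => V) w x, hx, fun i => ?_⟩
      rw [← hwv]
      have h1 : (Fin.castLE (Nat.le_add_right k (j + 1)) i : Fin (k + (j + 1))) =
          Fin.castSucc (Fin.castLE (Nat.le_add_right k j) i) := rfl
      rw [h1, Fin.snoc_castSucc]
  exact key m le_rfl

/-- The matrix which kills the first `e + 1` coordinates. -/
def kill (K : Type u) [Field K] (N e : ℕ) : Matrix (Fin N) (Fin N) K :=
  fun i j => if i = j ∧ e < i.val then 1 else 0

lemma lsub_kill_X (K : Type u) [Field K] (N e : ℕ) (i : Fin N) :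
    lsub K (kill K N e) (X i) = if e < i.val then X i else 0 := by
  rw [lsub_X, Finset.sum_eq_single i]
  · unfold kill
    by_cases h : e < i.val
    · rw [if_pos ⟨rfl, h⟩, if_pos h, map_one, one_mul]
    · rw [if_neg (fun h1 => h h1.2), if_neg h, map_zero, zero_mul]
  · intro j _ hj
    unfold kill
    rw [if_neg (fun h1 => hj h1.1.symm), map_zero, zero_mul]
  · simp

lemma sub_kill_mem {K : Type u} [Field K] {N e : ℕ} (f : MvPolynomial (Fin N) K) :
    f - lsub K (kill K N e) f ∈
      Ideal.span {f : MvPolynomial (Fin N) K | ∃ k : Fin N, k.val ≤ e ∧ f = X k} := by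
  rw [← Ideal.Quotient.eq_zero_iff_mem, map_sub, sub_eq_zero]
  have h1 : (Ideal.Quotient.mkₐ K
      (Ideal.span {f : MvPolynomial (Fin N) K | ∃ k : Fin N, k.val ≤ e ∧ f = X k})).comp
      (lsub K (kill K N e)) = Ideal.Quotient.mkₐ K _ := by
    apply MvPolynomial.algHom_ext
    intro i
    rw [AlgHom.comp_apply, lsub_kill_X]
    split_ifs with h
    · rfl
    · rw [map_zero]
      symm
      exact Ideal.Quotient.eq_zero_iff_mem.2 (Ideal.subset_span ⟨i, by omega, rfl⟩)
  exact (DFunLike.congr_fun h1 f).symm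

/-- **Coordinates adapted to a linear subspace.** -/
theorem exists_adapted {K : Type u} [Field K] {N r i : ℕ} {F : MvPolynomial (Fin N) K}
    (hs : Smooth F) (A : Matrix (Fin N) (Fin (r + 1)) K) (A' : Matrix (Fin (r + 1)) (Fin N) K)
    (hA : A' * A = 1) (hAF : lsub K A F = 0) {ℓ : Fin i → Fin N → K}
    (hℓ : LinearIndependent K ℓ) (hℓA : ∀ k, Matrix.vecMul (ℓ k) A = 0) :
    ∃ (e : ℕ) (g g' : Matrix (Fin N) (Fin N) K), N = (r + 1) + e + 1 ∧ g * g' = 1 ∧ g' * g = 1 ∧
      lsub K g F ∈ Ideal.span {f | ∃ k : Fin N, k.val ≤ e ∧ f = X k} ∧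
      (fun k => Matrix.vecMul (ℓ k) g) = cf K N i := by
  -- the dimension
  set S := LinearMap.ker A.vecMulLinear with hS
  have hsurj : Function.Surjective A.vecMulLinear := by
    intro u
    refine ⟨Matrix.vecMul u A', ?_⟩
    rw [Matrix.vecMulLinear_apply, Matrix.vecMul_vecMul, hA, Matrix.vecMul_one]
  have hdim : (r + 1) + Module.finrank K S = N := by
    have h1 := LinearMap.finrank_range_add_finrank_ker A.vecMulLinear
    rw [LinearMap.range_eq_top.2 hsurj, finrank_top, Module.finrank_fin_fun,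
      Module.finrank_fin_fun] at h1
    exact h1
  have hpos : Module.finrank K S ≠ 0 := by
    intro h0
    rw [h0, add_zero] at hdim
    subst hdim
    have h1 : A * A' = 1 := mul_eq_one_comm.1 hA
    have h2 := lsub_inv h1 F
    rw [hAF, map_zero] at h2
    rw [← h2] at hs
    obtain ⟨i, hi⟩ := hs K (fun _ => 1) (fun h => one_ne_zero (congrFun h 0)) (map_zero _)
    exact hi (by rw [map_zero, map_zero])
  obtain ⟨e, he⟩ : ∃ e, Module.finrank K S = e + 1 := ⟨Module.finrank K S - 1, by omega⟩
  have hN : N = (r + 1) + e + 1 := by omega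
  -- the basis
  have hℓS : ∀ k, ℓ k ∈ S := fun k => hℓA k
  have hli : LinearIndependent K (fun k => (⟨ℓ k, hℓS k⟩ : S)) :=
    LinearIndependent.of_comp S.subtype hℓ
  obtain ⟨hk, b, hb, hbℓ⟩ := exists_extend_li' _ hli he
  have hbS : LinearIndependent K (fun k => (b k : Fin N → K)) :=
    hb.map' S.subtype (Submodule.ker_subtype S)
  obtain ⟨hk2, g, g', hg, hg', hgb⟩ := exists_coord _ hbS
  have hspan : Submodule.span K (Set.range b) = ⊤ := by
    apply hb.span_eq_top_of_card_eq_finrank'
    rw [he, Fintype.card_fin]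
  refine ⟨e, g, g', hN, hg, hg', ?_, ?_⟩
  · -- the columns of `g * kill` lie in the image of `A`
    have hcol : ∀ k : Fin (e + 1), ∀ c : Fin N,
        (b k : Fin N → K) ⬝ᵥ (fun a => (g * kill K N e) a c) = 0 := by
      intro k c
      have h1 : (b k : Fin N → K) ⬝ᵥ (fun a => (g * kill K N e) a c) =
          (g' * (g * kill K N e)) (Fin.castLE hk2 k) c := by
        rw [Matrix.mul_apply, ← hgb]
        rfl
      rw [h1, ← Matrix.mul_assoc, hg', Matrix.one_mul]
      unfold kill
      rw [if_neg]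
      rintro ⟨-, h2⟩
      rw [Fin.val_castLE] at h2
      omega
    have hcolS : ∀ v ∈ S, ∀ c : Fin N, v ⬝ᵥ (fun a => (g * kill K N e) a c) = 0 := by
      intro v hv c
      have h1 : (⟨v, hv⟩ : S) ∈ Submodule.span K (Set.range b) := by
        rw [hspan]
        exact Submodule.mem_top
      have h2 : ∀ x : S, x ∈ Submodule.span K (Set.range b) →
          (x : Fin N → K) ⬝ᵥ (fun a => (g * kill K N e) a c) = 0 := by
        intro x hx
        refine Submodule.span_induction (p := fun (x : S) _ =>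
          ((x : S) : Fin N → K) ⬝ᵥ (fun a => (g * kill K N e) a c) = 0) ?_ ?_ ?_ ?_ hx
        · rintro _ ⟨k, rfl⟩
          exact hcol k c
        · rw [Submodule.coe_zero, zero_dotProduct]
        · intro x y _ _ hx hy
          rw [Submodule.coe_add, add_dotProduct, hx, hy, add_zero]
        · intro a x _ hx
          rw [Submodule.coe_smul, smul_dotProduct, hx, smul_zero]
      exact h2 _ h1
    have hfac : A * (A' * (g * kill K N e)) = g * kill K N e := by
      rw [← Matrix.mul_assoc]
      have h1 : (1 - A * A') * (g * kill K N e) = 0 := by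
        ext a c
        have h2 : ((1 - A * A' : Matrix (Fin N) (Fin N) K)) a ∈ S := by
          rw [hS, LinearMap.mem_ker, Matrix.vecMulLinear_apply]
          have h3 : Matrix.vecMul (((1 - A * A' : Matrix (Fin N) (Fin N) K)) a) A =
              ((1 - A * A' : Matrix (Fin N) (Fin N) K) * A) a := rfl
          rw [h3, Matrix.sub_mul, Matrix.one_mul, Matrix.mul_assoc, hA, Matrix.mul_one, sub_self]
          rfl
        exact hcolS _ h2 c
      rw [Matrix.sub_mul, Matrix.one_mul, sub_eq_zero] at h1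
      exact h1.symm
    have hkill : lsub K (kill K N e) (lsub K g F) = 0 := by
      rw [lsub_lsub, ← hfac, ← lsub_lsub, hAF, map_zero]
    have h1 := sub_kill_mem (e := e) (lsub K g F)
    rw [hkill, sub_zero] at h1
    exact h1
  · funext k
    have h1 : ℓ k = g' (Fin.castLE hk2 (Fin.castLE hk k)) := by
      rw [hgb, hbℓ]
    have h2 : Matrix.vecMul (g' (Fin.castLE hk2 (Fin.castLE hk k))) g =
        (g' * g) (Fin.castLE hk2 (Fin.castLE hk k)) := rfl
    rw [h1, h2, hg']
    funext c
    unfold cf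
    rw [Matrix.one_apply]
    congr 1
    rw [eq_iff_iff, Fin.ext_iff]
    simp only [Fin.val_castLE, eq_comm]

end Pool.Agent.W5h94.CU
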