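import Pool.Agent.H89.HL.L.W5h94_CU_Defs

set_option autoImplicit false

/-!
# One step of a fibration by a pencil of hyperplane sections
-/

universe u

namespace Pool.Agent.W5h94.CU

open MvPolynomial Pool.Agent.W5h86.HC

variable {K : Type u} [Field K] {M : ℕ}

/-- **The closed members of the pencil**, codimension one. -/
theorem closed_one' {e : ℕ} {G : MvPolynomial (Fin (M + 2)) K} (hG : IsHomogeneous G e)
    (hG0 : G ≠ 0) {P : Ideal (MvPolynomial (Fin (M + 2)) K)} [P.IsPrime]
    (hP : IsSub M (X 0) P) (hGP : G ∈ P) (hval : IsAlgebraic K (val P))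
    (hone : ∀ (π : Polynomial K) [Fact (Irreducible π)],
      lsub K (fibMat (N := M) (AdjoinRoot.root π)) G ≠ 0 ∧
        Uniq (lsub K (fibMat (N := M) (AdjoinRoot.root π)) G)) :
    pt P ∈ Rel G M (X 0) := by
  set π := minpoly K (val P) with hπ
  have hirr : Irreducible π := minpoly.irreducible hval.isIntegral
  have hfact : Fact (Irreducible π) := ⟨hirr⟩
  set φ := lsub K (fibMat (N := M) (AdjoinRoot.root π)) with hφ
  obtain ⟨hG0', huniq⟩ := hone π
  set Pi2 := hom2 M π.natDegree π with hpi2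
  have hpi2P : Pi2 ∈ P := (hom2_mem_iff hP π).2 (minpoly.aeval K (val P))
  have hφ0 : φ (X 0) = X 0 := lsub_fibMat_zero
  -- the component
  obtain ⟨Q, hQ, hGQ, hQP⟩ := exists_component (M := M + 1) hG hG0 hP.prime hGP hP.notMem
  have hover : ∀ (t : ℕ) (P' : Ideal (MvPolynomial (Fin (M + 2)) K)), IsSub t (X 0) P' →
      Pi2 ∈ P' → ∃ P'', IsSub t (φ (X 0)) P'' ∧ P''.comap φ = P' := by
    intro t P' hP' hmem
    have hprime := hP'.prime
    exact exists_over_closed π hP' ((hom2_mem_iff hP' π).1 hmem)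
  have hpi2Q : Pi2 ∉ Q := by
    intro h1
    obtain ⟨Q', hQ', hQQ'⟩ := hover _ Q hQ h1
    have hGQ' : φ G ∈ Q' := by
      rw [← hQQ', Ideal.mem_comap] at hGQ
      exact hGQ
    have h2 : Q' ≠ ⊥ := by
      intro h3
      rw [h3, Ideal.mem_bot] at hGQ'
      exact hG0' hGQ'
    have h4 := trdeg_quot_lt (K := AdjoinRoot π) Ideal.isPrime_bot hQ'.prime
      (lt_of_le_of_ne bot_le (Ne.symm h2)) trdeg_bot hQ'.trdeg
    omega
  set c := idiv M (X 0) Q Pi2 with hc
  have hcmem : c ∈ Rel G M (X 0) :=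
    Submodule.subset_span ⟨Q, Pi2, π.natDegree, hQ, hGQ, isHomogeneous_hom2 _ _, hpi2Q, rfl⟩
  have hmP : mult (Q ⊔ Ideal.span {Pi2}) P ≠ 0 := by
    apply mult_ne_zero
    refine mem_minimalPrimes (K := K) hP.prime hQ.prime hP.trdeg hQ.trdeg le_sup_left hpi2Q
      (Ideal.mem_sup_right (Ideal.mem_span_singleton_self _)) (sup_le hQP ?_)
    rw [Ideal.span_singleton_le_iff_mem]
    exact hpi2P
  have hcP : c = (mult (Q ⊔ Ideal.span {Pi2}) P : ℚ) • pt P := by
    classical
    funext P₂
    rw [Pi.smul_apply, smul_eq_mul]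
    by_cases heq : P₂ = P
    · rw [heq, hc, idiv_of hP]
      unfold pt
      rw [Pi.single_eq_same, mul_one]
    · unfold pt
      rw [Pi.single_eq_of_ne heq, mul_zero]
      by_contra hne
      obtain ⟨h1, h2⟩ := idiv_support hQ hpi2Q hne
      have hle : Q ⊔ Ideal.span {Pi2} ≤ P₂ := h2.1.2
      have h3 : Pi2 ∈ P₂ := hle (Ideal.mem_sup_right (Ideal.mem_span_singleton_self _))
      have h4 : G ∈ P₂ := hle (Ideal.mem_sup_left hGQ)
      obtain ⟨P', hP', hPP'⟩ := hover _ P hP hpi2P
      obtain ⟨P₂', hP₂', hPP₂'⟩ := hover _ P₂ h1 h3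
      have h5 : P' = P₂' := by
        rw [hφ0] at hP' hP₂'
        refine huniq P' P₂' hP' hP₂' ?_ ?_
        · rw [← hPP', Ideal.mem_comap] at hGP
          exact hGP
        · rw [← hPP₂', Ideal.mem_comap] at h4
          exact h4
      exact heq (by rw [← hPP₂', ← h5, hPP'])
  have h6 : pt P = (mult (Q ⊔ Ideal.span {Pi2}) P : ℚ)⁻¹ • c := by
    rw [hcP, smul_smul, inv_mul_cancel₀ (by exact_mod_cast hmP), one_smul]
  rw [h6]
  exact Submodule.smul_mem _ _ hcmem

/-- **One step of the fibration.** -/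
theorem step {e : ℕ} {G : MvPolynomial (Fin (M + 2)) K} (hG : IsHomogeneous G e) {j : ℕ}
    (hj : 1 ≤ j) (hgen : Aff j (lsub K (fibMat (N := M) (tt K)) G))
    (hcl : 2 ≤ j → ∀ (π : Polynomial K) [Fact (Irreducible π)],
      Aff (j - 1) (lsub K (fibMat (N := M) (AdjoinRoot.root π)) G))
    (hone : j = 1 → G ≠ 0 ∧ ∀ (π : Polynomial K) [Fact (Irreducible π)],
      lsub K (fibMat (N := M) (AdjoinRoot.root π)) G ≠ 0 ∧
        Uniq (lsub K (fibMat (N := M) (AdjoinRoot.root π)) G)) :
    Aff j G := by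
  have hclosed : ∀ t, t + j = M + 1 → ∀ P : Ideal (MvPolynomial (Fin (M + 2)) K),
      IsSub t (X 0) P → G ∈ P → ∀ [P.IsPrime], IsAlgebraic K (val P) → pt P ∈ Rel G t (X 0) := by
    intro t ht P hP hGP _ hval
    rcases Nat.lt_or_ge 1 j with h1 | h1
    · set π := minpoly K (val P) with hπ
      have hirr : Irreducible π := minpoly.irreducible hval.isIntegral
      have hfact : Fact (Irreducible π) := ⟨hirr⟩
      obtain ⟨P', hP', hPP'⟩ := exists_over_closed π hP (minpoly.aeval K (val P))
      have h4 := hcl h1 π t (by omega) P' (by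
          rw [← lsub_fibMat_zero (K := K) (θ := AdjoinRoot.root π)]
          exact hP') (by
          rw [← hPP', Ideal.mem_comap] at hGP
          exact hGP)
      rw [← lsub_fibMat_zero (K := K) (θ := AdjoinRoot.root π)] at h4
      have h5 := pt_mem_of_pt_mem (isFib_fibMat (M := M) (hgen_adjoinRoot π)) (trdeg_adjoinRoot π)
        (F := G) hP' h4 (by
          intro Q' hQ' hGQ' P₂ hQP₂ hP₂ hno
          exfalso
          apply hno
          have hpi2Q : hom2 M π.natDegree π ∈
              Q'.comap (lsub K (fibMat (N := M) (AdjoinRoot.root π))) := by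
            rw [Ideal.mem_comap, lsub_fibMat_hom2 le_rfl]
            have h6 : Polynomial.aeval (AdjoinRoot.root π) π = 0 := by
              rw [AdjoinRoot.aeval_eq, AdjoinRoot.mk_self]
            rw [h6, map_zero, zero_mul]
            exact Q'.zero_mem
          have hprime := hP₂.prime
          exact exists_over_closed π hP₂ ((hom2_mem_iff hP₂ π).1 (hQP₂ hpi2Q)))
      rw [hPP'] at h5
      exact h5
    · have h2 : j = 1 := by omega
      subst h2
      have h3 : t = M := by omega
      subst h3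
      exact closed_one' hG (hone rfl).1 hP hGP hval (hone rfl).2
  intro t ht P hP hGP
  have hprime := hP.prime
  by_cases hval : IsAlgebraic K (val P)
  · exact hclosed t ht P hP hGP hval
  · obtain ⟨t', P', ht', hP', hPP'⟩ := exists_over_generic hP hval
    subst ht'
    have h4 := hgen t' (by omega) P' (by
        rw [← lsub_fibMat_zero (K := K) (θ := tt K)]
        exact hP') (by
        rw [← hPP', Ideal.mem_comap] at hGP
        exact hGP)
    rw [← lsub_fibMat_zero (K := K) (θ := tt K)] at h4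
    have hfib : IsFib (lsub K (fibMat (N := M) (tt K))) (X 0) :=
      isFib_fibMat (M := M) (θ := tt K) (hgen_Kt (K := K))
    have h5 := pt_mem_of_pt_mem hfib (trdeg_Kt (K := K))
      (F := G) hP' h4 (by
        intro Q' hQ' hGQ' P₂ hQP₂ hP₂ hno
        have hprime := hP₂.prime
        have hGP₂ : G ∈ P₂ := hQP₂ hGQ'
        by_cases hval₂ : IsAlgebraic K (val P₂)
        · exact hclosed _ ht P₂ hP₂ hGP₂ hval₂
        · exfalso
          apply hno
          obtain ⟨t'', P'', ht'', hP'', hPP''⟩ := exists_over_generic hP₂ hval₂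
          have h6 : t'' = t' := by omega
          subst h6
          exact ⟨P'', hP'', hPP''⟩)
    rw [hPP'] at h5
    exact h5

/-- Uniqueness of components in a pencil. -/
theorem uniq_step {G : MvPolynomial (Fin (M + 2)) K}
    (hgen : Uniq (lsub K (fibMat (N := M) (tt K)) G))
    (hcl : ∀ (π : Polynomial K) [Fact (Irreducible π)],
      lsub K (fibMat (N := M) (AdjoinRoot.root π)) G ≠ 0) : Uniq G := by
  have key : ∀ P : Ideal (MvPolynomial (Fin (M + 2)) K), IsSub (M + 1) (X 0) P → G ∈ P →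
      ∃ P', IsSub M (X 0) P' ∧ lsub K (fibMat (N := M) (tt K)) G ∈ P' ∧
        P'.comap (lsub K (fibMat (N := M) (tt K))) = P := by
    intro P hP hGP
    have hprime := hP.prime
    by_cases hval : IsAlgebraic K (val P)
    · exfalso
      set π := minpoly K (val P) with hπ
      have hirr : Irreducible π := minpoly.irreducible hval.isIntegral
      have hfact : Fact (Irreducible π) := ⟨hirr⟩
      obtain ⟨P', hP', hPP'⟩ := exists_over_closed π hP (minpoly.aeval K (val P))
      have hGP' : lsub K (fibMat (N := M) (AdjoinRoot.root π)) G ∈ P' := by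
        rw [← hPP', Ideal.mem_comap] at hGP
        exact hGP
      have h2 : P' ≠ ⊥ := by
        intro h3
        rw [h3, Ideal.mem_bot] at hGP'
        exact hcl π hGP'
      have h4 := trdeg_quot_lt (K := AdjoinRoot π) Ideal.isPrime_bot hP'.prime
        (lt_of_le_of_ne bot_le (Ne.symm h2)) trdeg_bot hP'.trdeg
      omega
    · obtain ⟨t', P', ht', hP', hPP'⟩ := exists_over_generic hP hval
      have h1 : t' = M := by omega
      subst h1
      refine ⟨P', ?_, ?_, hPP'⟩
      · rw [← lsub_fibMat_zero (K := K) (θ := tt K)]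
        exact hP'
      · rw [← hPP', Ideal.mem_comap] at hGP
        exact hGP
  intro P₁ P₂ h₁ h₂ hG₁ hG₂
  obtain ⟨P₁', a1, a2, a3⟩ := key P₁ h₁ hG₁
  obtain ⟨P₂', b1, b2, b3⟩ := key P₂ h₂ hG₂
  rw [← a3, ← b3, hgen P₁' P₂' a1 b1 a2 b2]

/-- Subvarieties outside of `X 0 = 0` are not empty. -/
lemma one_le_of_isSub {N t : ℕ} {P : Ideal (MvPolynomial (Fin (N + 1)) K)} (hP : IsSub t (X 0) P) :
    1 ≤ t := by
  by_contra hcon
  have ht : t = 0 := by omega
  subst ht
  have hprime := hP.prime
  have h1 := hP.trdeg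
  rw [Nat.cast_zero, trdeg_eq_zero_iff] at h1
  have h2 : IsAlgebraic K (Ideal.Quotient.mk P (X 0)) := h1.isAlgebraic _
  obtain ⟨p, hp, hp0⟩ := h2
  have h3 : Polynomial.aeval (X 0 : MvPolynomial (Fin (N + 1)) K) p ∈ P := by
    rw [← Ideal.Quotient.eq_zero_iff_mem, ← hp0]
    exact (Polynomial.aeval_algHom_apply (Ideal.Quotient.mkₐ K P) (X 0) p).symm
  obtain ⟨k, hk⟩ : ∃ k, p.coeff k ≠ 0 := by
    by_contra hcon
    push Not at hcon
    exact hp (Polynomial.ext fun k => by rw [hcon k, Polynomial.coeff_zero])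
  have h4 := hP.hom _ h3 k
  have h5 : homogeneousComponent k (Polynomial.aeval (X 0 : MvPolynomial (Fin (N + 1)) K) p) =
      C (p.coeff k) * X 0 ^ k := by
    rw [Polynomial.aeval_eq_sum_range, map_sum]
    have h6 : ∀ i, homogeneousComponent k (p.coeff i • (X 0 : MvPolynomial (Fin (N + 1)) K) ^ i) =
        if i = k then C (p.coeff k) * X 0 ^ k else 0 := by
      intro i
      rw [smul_eq_C_mul, homogeneousComponent_of_mem ((isHomogeneous_X_pow (R := K) (0 : Fin (N + 1)) i).C_mul _)]
      by_cases hik : i = k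
      · rw [if_pos hik.symm, if_pos hik, hik]
      · rw [if_neg (fun h => hik h.symm), if_neg hik]
    rw [Finset.sum_congr rfl fun i _ => h6 i, Finset.sum_ite_eq', if_pos]
    rw [Finset.mem_range, Nat.lt_succ_iff]
    exact Polynomial.le_natDegree_of_ne_zero hk
  rw [h5] at h4
  rcases hprime.mem_or_mem h4 with h7 | h7
  · apply hprime.ne_top
    exact Ideal.eq_top_of_isUnit_mem _ h7 ((isUnit_iff_ne_zero.2 hk).map C)
  · exact hP.notMem (hprime.mem_of_pow_mem _ h7)

end Pool.Agent.W5h94.CU
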